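import Mathlib

/-!
# Automorphisms of algebraically closed fields

Proof plan: `Ω` is an algebraic closure of `Algebra.adjoin L (range x)`
(`IsAlgClosed.isAlgClosure_of_transcendence_basis`, see the definition of
`IsAlgClosed.equivOfTranscendenceBasis` in `Mathlib.FieldTheory.IsAlgClosed.Classification`), and the
same for `y`. The isomorphism of the two polynomial algebras (`AlgebraicIndependent.aevalEquiv`)
extends to `Ω` by `IsAlgClosure.equivOfEquiv` (with `IsAlgClosure.equivOfEquiv_algebraMap`).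

`exists_embedding`: take transcendence bases `x` of `F` and `z` of `Ω` over `k`, both of cardinality
`D`, so a bijection of the index sets; extend `k[x] → Ω`, `x i ↦ z i`, to the algebraic extension `F`
of the fraction field of `k[x]` (`IsAlgClosed.lift`).

`exists_omega`: `Ω = AlgebraicClosure (FractionRing (MvPolynomial (Fin D) k))`.
-/

namespace Pool.Agent.H72.SB

theorem exists_aut {L Ω ι : Type*} [Field L] [Field Ω] [Algebra L Ω] [IsAlgClosed Ω]
    {x y : ι → Ω} (hx : IsTranscendenceBasis L x) (hy : IsTranscendenceBasis L y) :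
    ∃ σ : Ω ≃ₐ[L] Ω, ∀ i, σ (x i) = y i := by
  let := IsAlgClosed.isAlgClosure_of_transcendence_basis x hx
  let := IsAlgClosed.isAlgClosure_of_transcendence_basis y hy
  let e : Algebra.adjoin L (Set.range x) ≃ₐ[L] Algebra.adjoin L (Set.range y) :=
    hx.1.aevalEquiv.symm.trans hy.1.aevalEquiv
  have he : ∀ i, e ⟨x i, Algebra.subset_adjoin ⟨i, rfl⟩⟩ =
      ⟨y i, Algebra.subset_adjoin ⟨i, rfl⟩⟩ := by
    intro i
    have h1 : hx.1.aevalEquiv (MvPolynomial.X i) =
        ⟨x i, Algebra.subset_adjoin ⟨i, rfl⟩⟩ := by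
      apply Subtype.ext
      simp
    have h2 : hx.1.aevalEquiv.symm ⟨x i, Algebra.subset_adjoin ⟨i, rfl⟩⟩ = MvPolynomial.X i := by
      rw [← h1, AlgEquiv.symm_apply_apply]
    show hy.1.aevalEquiv (hx.1.aevalEquiv.symm _) = _
    rw [h2]
    apply Subtype.ext
    simp
  let τ : Ω ≃+* Ω := IsAlgClosure.equivOfEquiv Ω Ω e.toRingEquiv
  have hτ : ∀ a : Algebra.adjoin L (Set.range x), τ (a : Ω) = (e a : Ω) := fun a =>
    IsAlgClosure.equivOfEquiv_algebraMap Ω Ω e.toRingEquiv a
  refine ⟨AlgEquiv.ofRingEquiv (f := τ) fun c => ?_, fun i => ?_⟩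
  · have h1 := hτ (algebraMap L _ c)
    rw [AlgEquiv.commutes] at h1
    exact h1
  · have h1 := hτ ⟨x i, Algebra.subset_adjoin ⟨i, rfl⟩⟩
    rw [he] at h1
    exact h1

theorem exists_embedding {k F Ω : Type*} [Field k] [Field F] [Field Ω] [Algebra k F]
    [Algebra k Ω] [IsAlgClosed Ω] {D : ℕ} (hF : Algebra.trdeg k F = D)
    (hΩ : Algebra.trdeg k Ω = D) : Nonempty (F →ₐ[k] Ω) := by
  obtain ⟨s, hs⟩ := exists_isTranscendenceBasis k F
  obtain ⟨t, ht⟩ := exists_isTranscendenceBasis k Ω
  have h1 := hs.cardinalMk_eq_trdeg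
  have h2 := ht.cardinalMk_eq_trdeg
  rw [hF] at h1
  rw [hΩ] at h2
  have h3 : Nonempty (s ≃ t) := by
    rw [← Cardinal.lift_mk_eq', h1, h2]
    simp
  obtain ⟨w⟩ := h3
  let g : Algebra.adjoin k (Set.range ((↑) : s → F)) →ₐ[k] Ω :=
    (MvPolynomial.aeval fun i : s => ((w i : t) : Ω)).comp hs.1.aevalEquiv.symm.toAlgHom
  have hg : Function.Injective g := by
    have h4 : AlgebraicIndependent k fun i : s => ((w i : t) : Ω) := ht.1.comp w w.injective
    exact (algebraicIndependent_iff_injective_aeval.1 h4).comp hs.1.aevalEquiv.symm.injective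
  let : Algebra (Algebra.adjoin k (Set.range ((↑) : s → F))) Ω := g.toRingHom.toAlgebra
  have : FaithfulSMul (Algebra.adjoin k (Set.range ((↑) : s → F))) Ω :=
    (faithfulSMul_iff_algebraMap_injective _ _).2 hg
  have : Module.IsTorsionFree (Algebra.adjoin k (Set.range ((↑) : s → F))) Ω :=
    inferInstance
  have : Algebra.IsAlgebraic (Algebra.adjoin k (Set.range ((↑) : s → F))) F := hs.isAlgebraic
  let φ : F →ₐ[Algebra.adjoin k (Set.range ((↑) : s → F))] Ω := IsAlgClosed.lift
  refine ⟨{ φ.toRingHom with commutes' := fun c => ?_ }⟩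
  have h5 := φ.commutes (algebraMap k _ c)
  have h6 : g (algebraMap k _ c) = algebraMap k Ω c := g.commutes c
  exact h5.trans h6

theorem exists_omega.{u} (k : Type u) [Field k] (D : ℕ) :
    ∃ (Ω : Type u) (_ : Field Ω) (_ : Algebra k Ω), IsAlgClosed Ω ∧ Algebra.trdeg k Ω = D := by
  let A := MvPolynomial (Fin D) k
  let Ω := AlgebraicClosure (FractionRing A)
  refine ⟨Ω, inferInstance, inferInstance, inferInstance, ?_⟩
  have h0 : Algebra.IsAlgebraic A (FractionRing A) :=
    IsLocalization.isAlgebraic (FractionRing A) (nonZeroDivisors A)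
  have h1 : Algebra.IsAlgebraic A Ω := Algebra.IsAlgebraic.trans A (FractionRing A) Ω
  have h2 : FaithfulSMul A Ω := by
    rw [faithfulSMul_iff_algebraMap_injective, IsScalarTower.algebraMap_eq A (FractionRing A) Ω]
    exact (algebraMap (FractionRing A) Ω).injective.comp (IsFractionRing.injective A _)
  have h3 := (IsTranscendenceBasis.mvPolynomial (Fin D) k).algebraMap_comp (A := Ω)
  have h4 := h3.lift_cardinalMk_eq_trdeg
  apply Cardinal.lift_injective.{0}
  rw [← h4]
  simp

end Pool.Agent.H72.SB
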