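import Pool.Agent.H72.SB.Final

/-!
# The theorems for all fields, finite ones included
-/

open Module Matrix TensorProduct

universe u

namespace Pool.Agent.H72.SB

variable {k : Type u} [Field k]

theorem cyclic_iff {A B : CSA.{u, u} k} {n m : ℕ} (hA : finrank k A = n ^ 2)
    (hB : finrank k B = n ^ 2) (hm : 1 ≤ m) (hmn : m < n) (hAB : InCyclic A B)
    (hBA : InCyclic B A) (h1 : 3 * Nat.gcd m n ≤ m) (h2 : 3 * Nat.gcd m n ≤ n - m)
    (F : Type u) [Field F] [Algebra k F] :
    IsFunctionField A m F ↔ IsFunctionField B m F := by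
  rcases finite_or_infinite k with hk | hk
  · obtain ⟨e⟩ := nonempty_algEquiv_of_finite A B (by rw [hA, hB])
    exact ⟨fun h => h.congr e, fun h => h.congr e.symm⟩
  · exact ⟨fun h => functionField_cyclic hA hB hm hmn hAB hBA h1 h2 h,
      fun h => functionField_cyclic hB hA hm hmn hBA hAB h1 h2 h⟩

theorem op_iff {A B : CSA.{u, u} k} {n m : ℕ} (hA : finrank k A = n ^ 2)
    (hm : 1 ≤ m) (hmn : m < n) (e : B ≃ₐ[k] (A : Type u)ᵐᵒᵖ)
    (F : Type u) [Field F] [Algebra k F] :
    IsFunctionField A m F ↔ IsFunctionField B m F := by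
  have hB : finrank k B = n ^ 2 := by
    rw [e.toLinearEquiv.finrank_eq, ← hA]
    exact (MulOpposite.opLinearEquiv k).finrank_eq.symm
  rcases finite_or_infinite k with hk | hk
  · obtain ⟨e⟩ := nonempty_algEquiv_of_finite A B (by rw [hA, hB])
    exact ⟨fun h => h.congr e, fun h => h.congr e.symm⟩
  · refine ⟨fun h => functionField_op hA hm hmn e h, fun h => functionField_op hB hm hmn ?_ h⟩
    exact (AlgEquiv.opOp k A).trans (AlgEquiv.op e.symm)

end Pool.Agent.H72.SB
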