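import Pool.Agent.H72.SB.KS

/-!
# Basic facts on forms of matrix algebras and rational subspaces
-/

open Module Matrix

namespace Pool.Agent.H72.SB

variable {k Ω : Type*} [Field k] [Field Ω] [Algebra k Ω]
variable {ι : Type*} [Fintype ι] {n : ℕ}
variable {β : Basis ι Ω (Matrix (Fin n) (Fin n) Ω)} {K : IntermediateField k Ω}
variable {X Y : Matrix (Fin n) (Fin n) Ω} {U V : Submodule Ω (Fin n → Ω)}

theorem RatV.mul (hβ : IsForm k β) (hX : RatV β K X) (hY : RatV β K Y) : RatV β K (X * Y) := by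
  rw [← β.sum_repr X, ← β.sum_repr Y, Finset.sum_mul]
  refine RatV.sum fun i _ => ?_
  rw [Finset.mul_sum]
  refine RatV.sum fun j _ => ?_
  rw [smul_mul_smul_comm]
  exact ((hβ.mul i j).mono bot_le).smul (K.mul_mem (hX i) (hY j))

theorem IsForm.ratV_one (hβ : IsForm k β) (K : IntermediateField k Ω) : RatV β K 1 :=
  hβ.one.mono bot_le

theorem ratV_tr : RatV (tr β) K X ↔ RatV β K Xᵀ := by
  unfold RatV tr
  simp only [Basis.map_repr, LinearEquiv.trans_apply]
  rfl

theorem IsForm.tr (hβ : IsForm k β) : IsForm k (tr β) where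
  one := by rw [ratV_tr, Matrix.transpose_one]; exact hβ.one
  mul i j := by
    rw [ratV_tr]
    have h1 : ∀ i, (Pool.Agent.H72.SB.tr β) i = (β i)ᵀ := fun i => rfl
    rw [h1, h1, Matrix.transpose_mul, Matrix.transpose_transpose, Matrix.transpose_transpose]
    exact hβ.mul j i

theorem mem_RI : X ∈ RI U ↔ ∀ v, X *ᵥ v ∈ U := Iff.rfl

theorem mem_RI_iff : X ∈ RI U ↔ colS X ≤ U := by
  constructor
  · rintro h _ ⟨v, rfl⟩; exact h v
  · intro h v; exact h ⟨v, rfl⟩

theorem mem_colS {x : Fin n → Ω} : x ∈ colS X ↔ ∃ v, X *ᵥ v = x := Iff.rfl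

theorem RI_mono (h : U ≤ V) : RI U ≤ RI V := fun _ hX v => h (hX v)

theorem RI_inf : RI (U ⊓ V) = RI U ⊓ RI V := by
  ext X
  exact ⟨fun h => ⟨fun v => (h v).1, fun v => (h v).2⟩, fun h v => ⟨h.1 v, h.2 v⟩⟩

theorem RI_top : RI (⊤ : Submodule Ω (Fin n → Ω)) = ⊤ := by
  ext X; simp [mem_RI]

theorem RI_bot : RI (⊥ : Submodule Ω (Fin n → Ω)) = ⊥ := by
  ext X
  rw [mem_RI, Submodule.mem_bot]
  constructor
  · intro h
    ext i j
    have := congrFun ((Submodule.mem_bot Ω).1 (h (Pi.single j 1))) i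
    simpa using this
  · rintro rfl v
    simp

/-- The matrix with all columns equal to `x` except for the factors `w j`. -/
theorem vecMulVec_mem_RI {x w : Fin n → Ω} (hx : x ∈ U) : Matrix.vecMulVec x w ∈ RI U := by
  intro v
  have : Matrix.vecMulVec x w *ᵥ v = (w ⬝ᵥ v) • x := by
    ext i
    simp only [Matrix.mulVec, dotProduct, Matrix.vecMulVec_apply, Pi.smul_apply, smul_eq_mul]
    rw [Finset.sum_mul]
    exact Finset.sum_congr rfl fun j _ => by ring
  rw [this]
  exact U.smul_mem _ hx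

theorem le_of_RI_le (h : RI U ≤ RI V) : U ≤ V := by
  intro x hx
  by_cases hn : Nonempty (Fin n)
  · obtain ⟨j⟩ := hn
    have h1 := h (vecMulVec_mem_RI (w := Pi.single j 1) hx) (Pi.single j 1)
    have h2 : Matrix.vecMulVec x (Pi.single j (1 : Ω)) *ᵥ (Pi.single j 1) = x := by
      ext i
      simp [Matrix.vecMulVec_apply]
    rwa [h2] at h1
  · have : x = 0 := by
      ext i; exact (hn ⟨i⟩).elim
    rw [this]; exact V.zero_mem

theorem RI_inj (h : RI U = RI V) : U = V :=
  le_antisymm (le_of_RI_le h.le) (le_of_RI_le h.ge)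

/-- A matrix is given by its columns. -/
theorem mem_RI_col : X ∈ RI U ↔ ∀ j, X.col j ∈ U := by
  constructor
  · intro h j
    have := h (Pi.single j 1)
    rwa [Matrix.mulVec_single_one] at this
  · intro h v
    rw [Matrix.mulVec_eq_sum]
    refine Submodule.sum_mem _ fun j _ => ?_
    rw [op_smul_eq_smul]
    exact U.smul_mem _ (h j)

/-- `RI U` as a power of `U`. -/
noncomputable def RIequiv (U : Submodule Ω (Fin n → Ω)) : RI U ≃ₗ[Ω] (Fin n → U) where
  toFun X j := ⟨X.1.col j, mem_RI_col.1 X.2 j⟩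
  map_add' X Y := by ext j i; rfl
  map_smul' c X := by ext j i; rfl
  invFun f := ⟨Matrix.of fun i j => (f j : Fin n → Ω) i, mem_RI_col.2 fun j => (f j).2⟩
  left_inv X := by ext i j; rfl
  right_inv f := by ext j i; rfl

theorem finrank_RI (U : Submodule Ω (Fin n → Ω)) : finrank Ω (RI U) = n * finrank Ω U := by
  rw [(RIequiv U).finrank_eq, Module.finrank_pi_fintype]
  simp

theorem RI_sup : RI (U ⊔ V) = RI U ⊔ RI V := by
  refine le_antisymm ?_ (sup_le (RI_mono le_sup_left) (RI_mono le_sup_right))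
  intro X hX
  have h1 : ∀ j, ∃ y ∈ U, ∃ z ∈ V, y + z = X.col j := fun j =>
    Submodule.mem_sup.1 (mem_RI_col.1 hX j)
  choose y hy z hz hyz using h1
  refine Submodule.mem_sup.2 ⟨Matrix.of fun i j => y j i, mem_RI_col.2 fun j => hy j,
    Matrix.of fun i j => z j i, mem_RI_col.2 fun j => hz j, ?_⟩
  ext i j
  exact congrFun (hyz j) i

theorem RatR.mono {K' : IntermediateField k Ω} (h : K ≤ K') (hU : RatR β K U) : RatR β K' U :=
  RatS.mono h hU

theorem ratR_top : RatR β K (⊤ : Submodule Ω (Fin n → Ω)) := by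
  unfold RatR; rw [RI_top]; exact ratS_top

theorem ratR_bot : RatR β K (⊥ : Submodule Ω (Fin n → Ω)) := by
  unfold RatR; rw [RI_bot]; exact ratS_bot

theorem RatR.sup (hU : RatR β K U) (hV : RatR β K V) : RatR β K (U ⊔ V) := by
  unfold RatR; rw [RI_sup]; exact RatS.sup hU hV

theorem RatR.inf (hU : RatR β K U) (hV : RatR β K V) : RatR β K (U ⊓ V) := by
  unfold RatR; rw [RI_inf]; exact RatS.inf hU hV

/-- The column space of `X` maps `U` to `X U`. -/
theorem RatR.map (hβ : IsForm k β) (hX : RatV β K X) (hU : RatR β K U) :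
    RatR β K (U.map X.mulVecLin) := by
  have h1 : RI (U.map X.mulVecLin) = (RI U).map (LinearMap.mulLeft Ω X) := by
    apply le_antisymm
    · intro Y hY
      have h2 : ∀ j, ∃ y ∈ U, X.mulVecLin y = Y.col j := fun j => mem_RI_col.1 hY j
      choose y hy hyY using h2
      refine ⟨Matrix.of fun i j => y j i, mem_RI_col.2 fun j => hy j, ?_⟩
      ext i j
      have := congrFun (hyY j) i
      simpa [Matrix.mul_apply, Matrix.mulVec, dotProduct] using this
    · rintro _ ⟨Y, hY, rfl⟩ v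
      refine ⟨Y *ᵥ v, hY v, ?_⟩
      simp [Matrix.mulVec_mulVec]
  unfold RatR
  rw [h1]
  exact RatS.map (fun i => by
    rw [LinearMap.mulLeft_apply]
    exact hX.mul hβ (ratV_basis i)) hU

theorem RatR.comap (hβ : IsForm k β) (hX : RatV β K X) (hU : RatR β K U) :
    RatR β K (U.comap X.mulVecLin) := by
  have h1 : RI (U.comap X.mulVecLin) = (RI U).comap (LinearMap.mulLeft Ω X) := by
    ext Y
    simp only [mem_RI, Submodule.mem_comap, LinearMap.mulLeft_apply, Matrix.mulVecLin_apply,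
      Matrix.mulVec_mulVec]
  unfold RatR
  rw [h1]
  exact RatS.comap (fun i => by
    rw [LinearMap.mulLeft_apply]
    exact hX.mul hβ (ratV_basis i)) hU

theorem ratR_colS (hβ : IsForm k β) (hX : RatV β K X) : RatR β K (colS X) := by
  have := RatR.map hβ hX (ratR_top (β := β) (K := K))
  rwa [Submodule.map_top] at this

theorem ratR_ker (hβ : IsForm k β) (hX : RatV β K X) :
    RatR β K (LinearMap.ker X.mulVecLin) :=
  RatR.comap hβ hX ratR_bot

theorem ratV_tr_tr : RatV (tr (tr β)) K X ↔ RatV β K X := by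
  rw [ratV_tr, ratV_tr, Matrix.transpose_transpose]

theorem ratR_tr_tr : RatR (tr (tr β)) K U ↔ RatR β K U := by
  unfold RatR RatS
  simp only [ratV_tr_tr]

/-- The field of definition of a subspace. -/
theorem exists_fodR (k : Type*) [Field k] [Algebra k Ω]
    (β : Basis ι Ω (Matrix (Fin n) (Fin n) Ω)) (U : Submodule Ω (Fin n → Ω)) :
    ∃ K₀ : IntermediateField k Ω, ∀ K, RatR β K U ↔ K₀ ≤ K := exists_fod k β _

end Pool.Agent.H72.SB
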