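import Pool.Agent.H72.SB.KS

/-!
# Properties which hold on a dense set

Proof plan. `exists_common`: with `P x` and `Q y` look at the line `x + t • (y - x)`: `P` holds at
`t = 0`, `Q` holds at `t = 1` (write `x + t • (y - x) = y + (1 - t) • (x - y)`), so both hold outside a
finite set of `t`, and `Ω` is infinite. `exists_rat`: show by induction on the finite set `s` of
indices that there is `x` with `P x` and `β.repr x i ∈ ⊥` for `i ∈ s`; for the step use the line
`x + t • β j`: the set of `t` with `β.repr x j + t` in the image of `k` is infinite.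
`lineOpen_injective`: if `T (x + t • y) = T x + t • L` and `T x` is injective with left inverse `S`
(`LinearMap.exists_leftInverse_of_injective`) then `S ∘ T (x + t • y) = 1 + t • (S ∘ L)`; if this is
not injective, then `- t⁻¹` is an eigenvalue of `S ∘ L`, and there are finitely many of them.
`lineOpen_linearIndependent`: with a left inverse at `t = 0` the determinant of a polynomial matrix
has the value `1` at `t = 0`, so it has finitely many zeros.
-/

open Module Matrix

namespace Pool.Agent.H72.SB

variable {k Ω : Type*} [Field k] [Field Ω] [Algebra k Ω]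
variable {E ι : Type*} [AddCommGroup E] [Module Ω E]
variable {P Q : E → Prop}

theorem LineOpen.and (hP : LineOpen Ω P) (hQ : LineOpen Ω Q) :
    LineOpen Ω fun x => P x ∧ Q x := by
  intro x y hxy
  refine ((hP x y hxy.1).union (hQ x y hxy.2)).subset ?_
  intro t ht
  simp only [Set.mem_ofPred_eq, Set.mem_union] at ht ⊢
  by_contra h
  push Not at h
  exact ht h

theorem LineOpen.exists_common [Infinite Ω] (hP : LineOpen Ω P) (hQ : LineOpen Ω Q)
    (h1 : ∃ x, P x) (h2 : ∃ x, Q x) : ∃ x, P x ∧ Q x := by
  obtain ⟨x, hx⟩ := h1
  obtain ⟨y, hy⟩ := h2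
  have e1 := hP x (y - x) hx
  have e2 := hQ y (x - y) hy
  have e3 : {t : Ω | ¬ Q (x + t • (y - x))}.Finite := by
    have hinj : Function.Injective (fun t : Ω => 1 - t) := by
      intro a b hab
      simpa using hab
    refine (e2.preimage (hinj.injOn (s := _))).subset ?_
    intro t ht
    simp only [Set.mem_ofPred_eq, Set.mem_preimage] at ht ⊢
    have : y + (1 - t) • (x - y) = x + t • (y - x) := by
      module
    rw [this]
    exact ht
  obtain ⟨t, ht⟩ := ((e1.union e3).infinite_compl).nonempty
  refine ⟨x + t • (y - x), ?_⟩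
  simp only [Set.mem_compl_iff, Set.mem_union, Set.mem_ofPred_eq, not_or, not_not] at ht
  exact ht

theorem LineOpen.exists_rat [Infinite k] [Fintype ι] (β : Basis ι Ω E) (hP : LineOpen Ω P)
    (h : ∃ x, P x) : ∃ x, RatV β (⊥ : IntermediateField k Ω) x ∧ P x := by
  classical
  have key : ∀ s : Finset ι, ∃ x, (∀ i ∈ s, β.repr x i ∈ (⊥ : IntermediateField k Ω)) ∧ P x := by
    intro s
    induction s using Finset.induction_on with
    | empty =>
      obtain ⟨x, hx⟩ := h
      exact ⟨x, fun i hi => absurd hi (Finset.notMem_empty i), hx⟩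
    | insert j s hj ih =>
      obtain ⟨x, hxs, hx⟩ := ih
      have e1 := hP x (β j) hx
      have hinj : Function.Injective (fun a : k => algebraMap k Ω a - β.repr x j) := by
        intro a b hab
        have : algebraMap k Ω a = algebraMap k Ω b := by
          have h1 : algebraMap k Ω a - β.repr x j = algebraMap k Ω b - β.repr x j := hab
          exact sub_left_injective h1
        exact (algebraMap k Ω).injective this
      have e2 := e1.preimage (hinj.injOn (s := _))
      obtain ⟨a, ha⟩ := (e2.infinite_compl).nonempty
      simp only [Set.mem_compl_iff, Set.mem_preimage, Set.mem_ofPred_eq, not_not] at ha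
      refine ⟨x + (algebraMap k Ω a - β.repr x j) • β j, ?_, ha⟩
      intro i hi
      rw [map_add, map_smul, Basis.repr_self, Finsupp.add_apply, Finsupp.smul_apply,
        Finsupp.single_apply]
      by_cases hij : j = i
      · subst hij
        rw [if_pos rfl, smul_eq_mul, mul_one, add_sub_cancel]
        exact (⊥ : IntermediateField k Ω).algebraMap_mem a
      · rw [if_neg hij, smul_zero, add_zero]
        rw [Finset.mem_insert] at hi
        rcases hi with hi | hi
        · exact absurd hi.symm hij
        · exact hxs i hi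
  obtain ⟨x, hx, hPx⟩ := key Finset.univ
  exact ⟨x, fun i => hx i (Finset.mem_univ i), hPx⟩

theorem lineOpen_injective {X Y : Type*} [AddCommGroup X] [Module Ω X] [FiniteDimensional Ω X]
    [AddCommGroup Y] [Module Ω Y] (T : E → (X →ₗ[Ω] Y))
    (hT : ∀ x y, ∃ L : X →ₗ[Ω] Y, ∀ t : Ω, T (x + t • y) = T x + t • L) :
    LineOpen Ω fun x => Function.Injective (T x) := by
  intro x y hx
  obtain ⟨L, hL⟩ := hT x y
  obtain ⟨S, hS⟩ := (T x).exists_leftInverse_of_injective (LinearMap.ker_eq_bot.2 hx)
  have hfin := Module.End.finite_hasEigenvalue (S ∘ₗ L)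
  have hinj : Function.Injective (fun t : Ω => - t⁻¹) := by
    intro a b hab
    have h1 : a⁻¹ = b⁻¹ := neg_injective hab
    exact inv_injective h1
  refine (hfin.preimage (hinj.injOn (s := _))).subset ?_
  intro t ht
  simp only [Set.mem_ofPred_eq, Set.mem_preimage] at ht ⊢
  rw [hL t, ← LinearMap.ker_eq_bot] at ht
  obtain ⟨v, hv, hv0⟩ := (Submodule.ne_bot_iff _).1 ht
  rw [LinearMap.mem_ker, LinearMap.add_apply, LinearMap.smul_apply] at hv
  have hSv : v + t • S (L v) = 0 := by
    have h1 := congrArg S hv
    rw [map_add, map_smul, map_zero] at h1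
    have h2 : S (T x v) = v := by
      have := LinearMap.congr_fun hS v
      simpa using this
    rw [h2] at h1
    exact h1
  have ht0 : t ≠ 0 := by
    rintro rfl
    rw [zero_smul, add_zero] at hSv
    exact hv0 hSv
  apply Module.End.hasEigenvalue_of_hasEigenvector (x := v)
  refine ⟨?_, hv0⟩
  rw [Module.End.mem_eigenspace_iff, LinearMap.comp_apply]
  have h3 : t • S (L v) = -v := by
    rw [eq_neg_iff_add_eq_zero, add_comm]
    exact hSv
  calc S (L v) = t⁻¹ • (t • S (L v)) := by rw [smul_smul, inv_mul_cancel₀ ht0, one_smul]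
    _ = - t⁻¹ • v := by rw [h3, smul_neg, neg_smul]

/-- The version for polynomial families: `v (x + t • y) i` is a polynomial in `t`. -/
theorem lineOpen_linearIndependent {m n : ℕ} (v : E → Fin m → (Fin n → Ω))
    (hv : ∀ x y i j, ∃ p : Polynomial Ω, ∀ t : Ω, v (x + t • y) i j = p.eval t) :
    LineOpen Ω fun x => LinearIndependent Ω (v x) := by
  classical
  intro x y hx
  choose p hp using hv x y
  -- a left inverse at `t = 0`
  let f : (Fin m → Ω) →ₗ[Ω] (Fin n → Ω) := Fintype.linearCombination Ω (v x)
  have hf : Function.Injective f := linearIndependent_iff_injective_fintypeLinearCombination.1 hx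
  obtain ⟨g, hg⟩ := f.exists_leftInverse_of_injective (LinearMap.ker_eq_bot.2 hf)
  let D : Matrix (Fin m) (Fin m) (Polynomial Ω) :=
    fun i l => ∑ j, p i j * Polynomial.C (g (Pi.single j 1) l)
  have hD : ∀ t : Ω, ∀ i l, (D i l).eval t = g (v (x + t • y) i) l := by
    intro t i l
    have h1 : v (x + t • y) i = ∑ j, v (x + t • y) i j • (Pi.single j (1 : Ω) : Fin n → Ω) := by
      funext a
      rw [Finset.sum_apply, Finset.sum_eq_single a]
      · simp
      · intro b _ hb
        simp [hb.symm]
      · intro h
        exact absurd (Finset.mem_univ a) h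
    show (∑ j, p i j * Polynomial.C (g (Pi.single j 1) l)).eval t = _
    rw [Polynomial.eval_finsetSum, h1, map_sum, Finset.sum_apply]
    refine Finset.sum_congr rfl fun j _ => ?_
    rw [Polynomial.eval_mul, Polynomial.eval_C, map_smul, Pi.smul_apply, smul_eq_mul, ← hp i j t]
  have hdet : ∀ t : Ω, (D.det).eval t = (Matrix.of fun i l => g (v (x + t • y) i) l).det := by
    intro t
    have h1 := (Polynomial.evalRingHom t).map_det D
    rw [Polynomial.coe_evalRingHom] at h1
    rw [h1]
    congr 1
    ext i l
    rw [RingHom.mapMatrix_apply, Matrix.map_apply, Polynomial.coe_evalRingHom, hD, Matrix.of_apply]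
  have hne : D.det ≠ 0 := by
    intro h0
    have h1 := hdet 0
    rw [h0, Polynomial.eval_zero, zero_smul, add_zero] at h1
    have h2 : (Matrix.of fun i l => g (v x i) l) = (1 : Matrix (Fin m) (Fin m) Ω) := by
      ext i l
      have h3 : f (Pi.single i 1) = v x i := by
        show Fintype.linearCombination Ω (v x) (Pi.single i 1) = v x i
        rw [Fintype.linearCombination_apply_single, one_smul]
      have h4 := LinearMap.congr_fun hg (Pi.single i 1)
      rw [LinearMap.comp_apply, h3, LinearMap.id_apply] at h4
      rw [Matrix.of_apply, h4, Matrix.one_apply, Pi.single_apply]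
      by_cases h : l = i
      · rw [if_pos h, if_pos h.symm]
      · rw [if_neg h, if_neg (fun h' => h h'.symm)]
    rw [h2, Matrix.det_one] at h1
    exact zero_ne_one h1
  refine (Polynomial.finite_setOfPred_isRoot hne).subset ?_
  intro t ht
  simp only [Set.mem_ofPred_eq] at ht ⊢
  by_contra hroot
  apply ht
  rw [Polynomial.IsRoot.def, hdet t] at hroot
  rw [Fintype.linearIndependent_iff]
  intro c hc
  have h1 : c ᵥ* (Matrix.of fun i l => g (v (x + t • y) i) l) = 0 := by
    funext l
    have h2 := congrFun (congrArg g hc) l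
    rw [map_sum, map_zero, Finset.sum_apply] at h2
    rw [Matrix.vecMul, dotProduct]
    simp only [Matrix.of_apply]
    rw [← h2]
    refine Finset.sum_congr rfl fun i _ => ?_
    rw [map_smul, Pi.smul_apply, smul_eq_mul]
  have h3 := Matrix.eq_zero_of_vecMul_eq_zero hroot h1
  intro i
  exact congrFun h3 i

end Pool.Agent.H72.SB
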