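import Mathlib

/-!
# Generalized Brauer-Severi varieties: function fields, the subgroup generated by a class
-/

open Module TensorProduct

universe u

namespace Pool.Agent.H72.SB

variable {k : Type u} [Field k]

/-- `F` is the function field of the generalized Brauer-Severi variety `SB_m(A)`: there is a right
ideal of `F ⊗ A` of dimension `m * n`, `n = deg A` (an `F`-point of `SB_m(A)`), whose field of
definition is `F`, and `F` has transcendence degree `m * (n - m) = dim SB_m(A)` over `k`. So the point
is the generic point of `SB_m(A)` and `F` is its residue field. -/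
def IsFunctionField (A : CSA.{u, u} k) (m : ℕ) (F : Type u) [Field F] [Algebra k F] : Prop :=
  ∃ n : ℕ, finrank k A = n ^ 2 ∧ ∃ I : Submodule F (F ⊗[k] A),
    (∀ x ∈ I, ∀ y, x * y ∈ I) ∧ finrank F I = m * n ∧
    Algebra.trdeg k F = (m * (n - m) : ℕ) ∧
    ∀ L : IntermediateField k F,
      I ≤ Submodule.span F {x | x ∈ I ∧
        x ∈ Set.range (Algebra.TensorProduct.map L.val (AlgHom.id k A))} → L = ⊤

/-- `InCyclic A B` means that the class of `B` is in the subgroup of the Brauer group which is
generated by the class of `A`: these algebras are obtained from `A` and `k` by tensor products,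
opposite algebras and Brauer equivalence. -/
inductive InCyclic (A : CSA.{u, u} k) : CSA.{u, u} k → Prop
  | self : InCyclic A A
  | one (C : CSA.{u, u} k) : Nonempty (C ≃ₐ[k] k) → InCyclic A C
  | mul (B C E : CSA.{u, u} k) : InCyclic A B → InCyclic A C →
      Nonempty (E ≃ₐ[k] B ⊗[k] C) → InCyclic A E
  | inv (B C : CSA.{u, u} k) : InCyclic A B → Nonempty (C ≃ₐ[k] (B : Type u)ᵐᵒᵖ) → InCyclic A C
  | equiv (B C : CSA.{u, u} k) : InCyclic A B → IsBrauerEquivalent B C → InCyclic A C

/-- `L` splits `A`. -/
def SplitBy (k A L : Type*) [Field k] [Ring A] [Algebra k A] [Field L] [Algebra k L] : Prop :=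
  ∃ a : ℕ, 0 < a ∧ a ^ 2 = finrank k A ∧ Nonempty (A →ₐ[k] Matrix (Fin a) (Fin a) L)

end Pool.Agent.H72.SB
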