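import Pool.Agent.H72.SB.Rho
import Pool.Agent.H72.SB.Csa

/-!
# From rational subspaces of `Ωⁿ` to function fields, and back

Proof plan. `isFunctionField_of`: let `I = {x : F ⊗ A | toMat F.val ρ x ∈ RI W}`, an `F`-subspace
(`toMat_smul`) and a right ideal. `toMat` is an isomorphism of `I` with the `F`-rational elements of
`RI W` (`toMat_injective`, `ratV_iff_toMat`). As `W` is `F`-rational (`hF F`), `RatS.exists_basis`
gives an `F`-basis with `finrank Ω (RI W) = n * m` elements (`finrank_RI`). If `L` is an intermediate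
field of `F / k` such that `I` is spanned by its elements in the image of `L ⊗ A`, let
`K = L.map F.val ≤ F`; then `RI W` is spanned by its `F`-rational elements, hence by its `K`-rational
elements, `RatR β K W`, so `F ≤ K` by `hF` and `L = ⊤`.
-/

open Module Matrix TensorProduct

universe u

namespace Pool.Agent.H72.SB

variable {k Ω : Type u} [Field k] [Field Ω] [Algebra k Ω]
variable {ι : Type*} [Fintype ι] {n : ℕ}
variable {β : Basis ι Ω (Matrix (Fin n) (Fin n) Ω)}
variable {A : CSA.{u, u} k} {ρ : A →ₐ[k] Matrix (Fin n) (Fin n) Ω} {b : Basis ι k A}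

/-- The elements of `F ⊗ A` whose matrix is in `RI W`. -/
private def absI (F : IntermediateField k Ω) (ρ : A →ₐ[k] Matrix (Fin n) (Fin n) Ω)
    (W : Submodule Ω (Fin n → Ω)) : Submodule F (F ⊗[k] (A : Type u)) where
  carrier := {x | toMat F.val ρ x ∈ RI W}
  add_mem' := fun {x y} hx hy => by
    show toMat F.val ρ (x + y) ∈ RI W
    rw [map_add]
    exact (RI W).add_mem hx hy
  zero_mem' := by
    show toMat F.val ρ 0 ∈ RI W
    rw [map_zero]
    exact (RI W).zero_mem
  smul_mem' := fun c x hx => by
    show toMat F.val ρ (c • x) ∈ RI W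
    rw [toMat_smul]
    exact (RI W).smul_mem _ hx

private theorem mem_absI {F : IntermediateField k Ω} {W : Submodule Ω (Fin n → Ω)}
    {x : F ⊗[k] (A : Type u)} : x ∈ absI F ρ W ↔ toMat F.val ρ x ∈ RI W := Iff.rfl

private theorem abs_finrank (hρ : ∀ i, β i = ρ (b i)) {W : Submodule Ω (Fin n → Ω)}
    {F : IntermediateField k Ω} (hW : RatR β F W) :
    finrank F (absI F ρ W) = n * finrank Ω W := by
  obtain ⟨γ, hγ, hγ'⟩ := RatS.exists_basis (show RatS β F (RI W) from hW)
  have hr : F.val.fieldRange = F := IntermediateField.fieldRange_val F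
  have hex : ∀ i, ∃ x, toMat F.val ρ x = (γ i : Matrix (Fin n) (Fin n) Ω) := by
    intro i
    rw [← ratV_iff_toMat hρ F.val, hr]
    exact hγ i
  choose g hg using hex
  let lc : (Fin (finrank Ω (RI W)) → F) →ₗ[F] F ⊗[k] (A : Type u) := Fintype.linearCombination F g
  have hlc : ∀ c, toMat F.val ρ (lc c) = ((∑ i, ((c i : F) : Ω) • γ i : RI W) : Matrix (Fin n) (Fin n) Ω) := by
    intro c
    show toMat F.val ρ (Fintype.linearCombination F g c) = _
    rw [Fintype.linearCombination_apply, map_sum, Submodule.coe_sum]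
    refine Finset.sum_congr rfl fun i _ => ?_
    rw [toMat_smul, hg, Submodule.coe_smul]
    rfl
  have hinj : Function.Injective lc := by
    rw [injective_iff_map_eq_zero]
    intro c hc
    have h1 := hlc c
    rw [hc, map_zero] at h1
    have h2 : (∑ i, ((c i : F) : Ω) • γ i : RI W) = 0 := Subtype.ext h1.symm
    have h3 := Fintype.linearIndependent_iff.1 γ.linearIndependent (fun i => ((c i : F) : Ω)) h2
    funext i
    exact Subtype.ext (h3 i)
  have hrange : LinearMap.range lc = absI F ρ W := by
    apply le_antisymm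
    · rintro _ ⟨c, rfl⟩
      rw [mem_absI, hlc]
      exact Subtype.mem _
    · intro x hx
      rw [mem_absI] at hx
      have h1 : RatV β F (toMat F.val ρ x) := by
        have := (ratV_iff_toMat hρ F.val (toMat F.val ρ x)).2 ⟨x, rfl⟩
        rwa [hr] at this
      have h2 := (hγ' F le_rfl ⟨_, hx⟩).1 h1
      refine ⟨fun i => ⟨γ.repr ⟨_, hx⟩ i, h2 i⟩, ?_⟩
      apply toMat_injective hρ F.val
      rw [hlc]
      exact congrArg (fun z : RI W => (z : Matrix (Fin n) (Fin n) Ω)) (γ.sum_repr ⟨_, hx⟩)
  rw [← hrange, LinearMap.finrank_range_of_inj hinj, Module.finrank_fin_fun, finrank_RI]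

private theorem abs_tmul {F : Type*} [Field F] [Algebra k F] (f : F →ₐ[k] Ω) (c : F) (a : A) :
    toMat f ρ (c ⊗ₜ[k] a) = algebraMap Ω (Matrix (Fin n) (Fin n) Ω) (f c) * ρ a :=
  Algebra.TensorProduct.lift_tmul _ _ _ _ _

private theorem toMat_map {F : IntermediateField k Ω} (L : IntermediateField k F)
    (w : L ⊗[k] (A : Type u)) :
    toMat F.val ρ (Algebra.TensorProduct.map L.val (AlgHom.id k A) w) =
      toMat (F.val.comp L.val) ρ w := by
  induction w using TensorProduct.induction_on with
  | zero => rw [map_zero, map_zero, map_zero]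
  | tmul c a =>
    rw [Algebra.TensorProduct.map_tmul, abs_tmul, abs_tmul]
    rfl
  | add x y hx hy => rw [map_add, map_add, map_add, hx, hy]

theorem isFunctionField_of (hn : finrank k A = n ^ 2) (hρ : ∀ i, β i = ρ (b i))
    {W : Submodule Ω (Fin n → Ω)} {m : ℕ} (hW : finrank Ω W = m) {F : IntermediateField k Ω}
    (hF : ∀ K, F ≤ K ↔ RatR β K W) (ht : Algebra.trdeg k F = (m * (n - m) : ℕ)) :
    IsFunctionField A m F := by
  have hFW : RatR β F W := (hF F).1 le_rfl
  have hr : F.val.fieldRange = F := IntermediateField.fieldRange_val F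
  refine ⟨n, hn, absI F ρ W, ?_, ?_, ht, ?_⟩
  · intro x hx y
    rw [mem_absI] at hx ⊢
    rw [map_mul]
    intro v
    rw [← Matrix.mulVec_mulVec]
    exact hx _
  · rw [abs_finrank hρ hFW, hW, mul_comm]
  · intro L hL
    have hK : RatR β (L.map F.val) W := by
      intro X hX
      refine (Submodule.span_le.2 ?_ : Submodule.span Ω {X | X ∈ RI W ∧ RatV β F X} ≤ _) (hFW hX)
      rintro X ⟨hXW, hXF⟩
      obtain ⟨x, rfl⟩ : ∃ x, toMat F.val ρ x = X := by
        rw [← ratV_iff_toMat hρ F.val, hr]
        exact hXF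
      have hx := hL (show x ∈ absI F ρ W from hXW)
      refine Submodule.span_induction (p := fun z _ => toMat F.val ρ z ∈ Submodule.span Ω
        {X | X ∈ RI W ∧ RatV β (L.map F.val) X}) ?_ ?_ ?_ ?_ hx
      · rintro z ⟨hz, w, rfl⟩
        apply Submodule.subset_span
        refine ⟨hz, ?_⟩
        have h1 := (ratV_iff_toMat hρ (F.val.comp L.val) (toMat (F.val.comp L.val) ρ w)).2 ⟨w, rfl⟩
        have h2 : (F.val.comp L.val).fieldRange = L.map F.val := by
          ext z
          constructor
          · rintro ⟨l, rfl⟩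
            exact ⟨l, l.2, rfl⟩
          · rintro ⟨l, hl, rfl⟩
            exact ⟨⟨l, hl⟩, rfl⟩
        rw [h2, ← toMat_map] at h1
        exact h1
      · show toMat F.val ρ 0 ∈ _
        rw [map_zero]
        exact Submodule.zero_mem _
      · intro y z _ _ hy hz
        show toMat F.val ρ (y + z) ∈ _
        rw [map_add]
        exact Submodule.add_mem _ hy hz
      · intro c z _ hz
        show toMat F.val ρ (c • z) ∈ _
        rw [toMat_smul]
        exact Submodule.smul_mem _ _ hz
    have hFK := (hF _).2 hK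
    rw [eq_top_iff]
    intro c _
    obtain ⟨l, hl, hlc⟩ := hFK c.2
    have : l = c := Subtype.ext hlc
    rw [← this]
    exact hl

end Pool.Agent.H72.SB
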