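import Pool.Agent.H72.SB.Rho
import Pool.Agent.H72.SB.Csa

/-!
# From function fields to rational subspaces of `Ωⁿ`

Proof plan. `exists_of_isFunctionField`: let `f : F →ₐ[k] Ω` be an embedding (`exists_embedding`) and
`F₁ = f.fieldRange`. The `Ω`-span `J` of `toMat f ρ '' I` is a right ideal of `Mₙ(Ω)` of dimension
`m * n` (`F`-independent elements of `F ⊗ A` have `Ω`-independent images: the coordinates of
`toMat f ρ x` in the basis `β` are the images of the coordinates of `x`), so `J = RI W`, where `W` is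
the sum of the column spaces of the elements of `J`, and `finrank W = m`. It is `F₁`-rational. If `W`
is `K`-rational then it is `K ⊓ F₁`-rational (`exists_fodR`), and for `L = (K ⊓ F₁).comap f` the ideal
`I` is spanned by its elements in the image of `L ⊗ A` (the `K ⊓ F₁`-rational elements of `RI W` are
images of elements of `I`: an `F₁`-rational element of the span `J` of `toMat '' I` is in
`toMat '' I`), so `L = ⊤` and `F₁ ≤ K`.
-/

open Module Matrix TensorProduct

universe u

namespace Pool.Agent.H72.SB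

variable {k Ω : Type u} [Field k] [Field Ω] [Algebra k Ω]
variable {ι : Type*} [Fintype ι] {n : ℕ}
variable {β : Basis ι Ω (Matrix (Fin n) (Fin n) Ω)}
variable {A : CSA.{u, u} k} {ρ : A →ₐ[k] Matrix (Fin n) (Fin n) Ω} {b : Basis ι k A}

private theorem toMat_tmul {F : Type u} [Field F] [Algebra k F] (f : F →ₐ[k] Ω) (c : F) (a : A) :
    toMat f ρ (c ⊗ₜ[k] a) = algebraMap Ω (Matrix (Fin n) (Fin n) Ω) (f c) * ρ a :=
  Algebra.TensorProduct.lift_tmul _ _ _ _ _

private theorem toMat_one_tmul {F : Type u} [Field F] [Algebra k F] (f : F →ₐ[k] Ω) (a : A) :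
    toMat f ρ ((1 : F) ⊗ₜ[k] a) = ρ a := by
  rw [toMat_tmul, map_one, map_one, one_mul]

private theorem toMat_map {F : Type u} [Field F] [Algebra k F] (f : F →ₐ[k] Ω)
    (L : IntermediateField k F) (x : L ⊗[k] A) :
    toMat f ρ (Algebra.TensorProduct.map L.val (AlgHom.id k A) x) = toMat (f.comp L.val) ρ x := by
  have h : (toMat f ρ).comp (Algebra.TensorProduct.map L.val (AlgHom.id k A)) =
      toMat (f.comp L.val) ρ := by
    apply Algebra.TensorProduct.ext'
    intro a c
    rw [AlgHom.comp_apply, Algebra.TensorProduct.map_tmul, toMat_tmul, toMat_tmul]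
    rfl
  exact DFunLike.congr_fun h x

/-- A right ideal of a matrix algebra is given by a subspace. -/
private theorem exists_RI (J : Submodule Ω (Matrix (Fin n) (Fin n) Ω))
    (hJ : ∀ X ∈ J, ∀ Y, X * Y ∈ J) : ∃ W : Submodule Ω (Fin n → Ω), J = RI W := by
  refine ⟨Submodule.span Ω {w | ∃ X ∈ J, ∃ v, w = X *ᵥ v}, le_antisymm ?_ ?_⟩
  · intro X hX v
    exact Submodule.subset_span ⟨X, hX, v, rfl⟩
  · have h1 : ∀ w ∈ Submodule.span Ω {w | ∃ X ∈ J, ∃ v, w = X *ᵥ v}, ∀ u : Fin n → Ω,
        Matrix.vecMulVec w u ∈ J := by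
      intro w hw u
      refine Submodule.span_induction (p := fun w _ => Matrix.vecMulVec w u ∈ J) ?_ ?_ ?_ ?_ hw
      · rintro _ ⟨X, hX, v, rfl⟩
        have h2 : Matrix.vecMulVec (X *ᵥ v) u = X * Matrix.vecMulVec v u := by
          rw [Matrix.mul_vecMulVec]
        rw [h2]
        exact hJ X hX _
      · rw [Matrix.zero_vecMulVec]; exact J.zero_mem
      · intro x y _ _ hx hy
        rw [Matrix.add_vecMulVec]; exact J.add_mem hx hy
      · intro c x _ hx
        rw [Matrix.smul_vecMulVec]; exact J.smul_mem c hx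
    intro Y hY
    have h2 : Y = ∑ j, Matrix.vecMulVec (Y *ᵥ Pi.single j 1) (Pi.single j 1) := by
      ext a c
      rw [Matrix.sum_apply, Finset.sum_eq_single c]
      · rw [Matrix.vecMulVec_apply, Pi.single_eq_same, mul_one, Matrix.mulVec_single_one]
        rfl
      · intro j _ hj
        rw [Matrix.vecMulVec_apply, Pi.single_eq_of_ne (Ne.symm hj), mul_zero]
      · intro hc
        exact absurd (Finset.mem_univ c) hc
    rw [h2]
    exact Submodule.sum_mem _ fun j _ => h1 _ (hY _) _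

section

variable {F : Type u} [Field F] [Algebra k F]

/-- The rational elements of the span of `toMat '' I` are in `toMat '' I`. -/
private theorem exists_of_ratV (f : F →ₐ[k] Ω) (hρ : ∀ i, β i = ρ (b i))
    (I : Submodule F (F ⊗[k] A)) {X : Matrix (Fin n) (Fin n) Ω}
    (hX : X ∈ Submodule.span Ω (toMat f ρ '' (I : Set (F ⊗[k] A))))
    (hr : RatV β f.fieldRange X) : ∃ x ∈ I, toMat f ρ x = X := by
  obtain ⟨lam, hl⟩ := exists_retraction f.fieldRange
  obtain ⟨m, c, g, hg⟩ := Submodule.mem_span_set'.1 hX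
  have hg2 : ∀ i : Fin m, ∃ x ∈ I, toMat f ρ x = (g i : Matrix (Fin n) (Fin n) Ω) :=
    fun i => (g i).2
  choose x hxI hx using hg2
  have hc : ∀ i : Fin m, ∃ d : F, f d = (lam (c i) : Ω) := fun i => (lam (c i)).2
  choose d hd using hc
  refine ⟨∑ i, d i • x i, Submodule.sum_mem _ fun i _ => I.smul_mem _ (hxI i), ?_⟩
  rw [map_sum, ← lamE_eq hl hr, ← hg, lamE_sum]
  refine Finset.sum_congr rfl fun i _ => ?_
  rw [toMat_smul, hd, hx, lamE_smul]
  exact (ratV_iff_toMat hρ f _).2 ⟨x i, hx i⟩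

/-- A basis of `I` which is defined over `K₀`. -/
private theorem exists_family (f : F →ₐ[k] Ω) (hρ : ∀ i, β i = ρ (b i))
    (I : Submodule F (F ⊗[k] A)) {K₀ : IntermediateField k Ω} (hK : K₀ ≤ f.fieldRange)
    (hJ : RatS β K₀ (Submodule.span Ω (toMat f ρ '' (I : Set (F ⊗[k] A))))) :
    ∃ y : Fin (finrank Ω (Submodule.span Ω (toMat f ρ '' (I : Set (F ⊗[k] A))))) → F ⊗[k] A,
      (∀ i, y i ∈ I) ∧ (∀ i, RatV β K₀ (toMat f ρ (y i))) ∧ LinearIndependent F y ∧
      ∀ x ∈ I, x ∈ Submodule.span F (Set.range y) := by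
  obtain ⟨γ, hγ, hγ2⟩ := hJ.exists_basis
  have h1 : ∀ i, ∃ y ∈ I, toMat f ρ y = (γ i : Matrix (Fin n) (Fin n) Ω) := fun i =>
    exists_of_ratV f hρ I (γ i).2 ((hγ i).mono hK)
  choose y hyI hy using h1
  refine ⟨y, hyI, fun i => by rw [hy]; exact hγ i, ?_, ?_⟩
  · rw [Fintype.linearIndependent_iff]
    intro c hc i
    have h2 := congrArg (toMat f ρ) hc
    rw [map_sum, map_zero] at h2
    simp only [toMat_smul, hy] at h2
    have h3 : ∑ i, f (c i) • γ i = 0 := by
      apply Subtype.ext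
      simpa using h2
    have h4 := Fintype.linearIndependent_iff.1 γ.linearIndependent _ h3 i
    exact (map_eq_zero f).1 h4
  · intro x hx
    have hxJ : toMat f ρ x ∈ Submodule.span Ω (toMat f ρ '' (I : Set (F ⊗[k] A))) :=
      Submodule.subset_span ⟨x, hx, rfl⟩
    have hr : RatV β f.fieldRange (toMat f ρ x) := (ratV_iff_toMat hρ f _).2 ⟨x, rfl⟩
    have h2 := (hγ2 _ hK ⟨toMat f ρ x, hxJ⟩).1 hr
    have h3 : ∀ i, ∃ d : F, f d = γ.repr ⟨toMat f ρ x, hxJ⟩ i := fun i => h2 i
    choose d hd using h3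
    have h4 : x = ∑ i, d i • y i := by
      apply toMat_injective hρ f
      rw [map_sum]
      have h5 := congrArg (fun z : Submodule.span Ω (toMat f ρ '' (I : Set (F ⊗[k] A))) =>
        (z : Matrix (Fin n) (Fin n) Ω)) (γ.sum_repr ⟨toMat f ρ x, hxJ⟩)
      simp only [Submodule.coe_sum, Submodule.coe_smul] at h5
      rw [← h5]
      refine Finset.sum_congr rfl fun i _ => ?_
      rw [toMat_smul, hd, hy]
    rw [h4]
    exact Submodule.sum_mem _ fun i _ => Submodule.smul_mem _ _ (Submodule.subset_span ⟨i, rfl⟩)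

end

theorem exists_of_isFunctionField (hn : finrank k A = n ^ 2) (hρ : ∀ i, β i = ρ (b i)) {m : ℕ}
    {F : Type u} [Field F] [Algebra k F] (h : IsFunctionField A m F) (f : F →ₐ[k] Ω) :
    ∃ W : Submodule Ω (Fin n → Ω), finrank Ω W = m ∧ ∀ K, f.fieldRange ≤ K ↔ RatR β K W := by
  obtain ⟨n', hn', I, hI, hId, -, hL⟩ := h
  have hnn : n' = n := Nat.pow_left_injective (n := 2) (by norm_num) (hn'.symm.trans hn)
  subst hnn
  have hpos : 0 < n' := by
    have h1 : 0 < finrank k A := finrank_pos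
    rw [hn] at h1
    exact Nat.pos_of_ne_zero (by rintro rfl; simp at h1)
  -- the right ideal
  have hJ : ∀ X ∈ Submodule.span Ω (toMat f ρ '' (I : Set (F ⊗[k] A))), ∀ Y,
      X * Y ∈ Submodule.span Ω (toMat f ρ '' (I : Set (F ⊗[k] A))) := by
    intro X hX Y
    refine Submodule.span_induction (p := fun X _ => X * Y ∈
      Submodule.span Ω (toMat f ρ '' (I : Set (F ⊗[k] A)))) ?_ ?_ ?_ ?_ hX
    · rintro _ ⟨x, hx, rfl⟩
      rw [← β.sum_repr Y, Finset.mul_sum]
      refine Submodule.sum_mem _ fun i _ => ?_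
      rw [Matrix.mul_smul]
      refine Submodule.smul_mem _ _ (Submodule.subset_span ⟨x * (1 ⊗ₜ[k] b i), hI x hx _, ?_⟩)
      rw [map_mul, toMat_one_tmul, hρ]
    · rw [zero_mul]; exact Submodule.zero_mem _
    · intro x y _ _ hx hy
      rw [add_mul]; exact Submodule.add_mem _ hx hy
    · intro c x _ hx
      rw [Matrix.smul_mul]; exact Submodule.smul_mem _ c hx
  obtain ⟨W, hW⟩ := exists_RI _ hJ
  have hrat : RatS β f.fieldRange (Submodule.span Ω (toMat f ρ '' (I : Set (F ⊗[k] A)))) := by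
    refine ratS_span ?_
    rintro _ ⟨x, -, rfl⟩
    exact (ratV_iff_toMat hρ f _).2 ⟨x, rfl⟩
  refine ⟨W, ?_, fun K => ⟨fun hK => ?_, fun hK => ?_⟩⟩
  · obtain ⟨y, hyI, -, hyi, hys⟩ := exists_family f hρ I le_rfl hrat
    have h1 : finrank F I = finrank Ω (Submodule.span Ω (toMat f ρ '' (I : Set (F ⊗[k] A)))) := by
      have h2 : I = Submodule.span F (Set.range y) := by
        refine le_antisymm hys (Submodule.span_le.2 ?_)
        rintro _ ⟨i, rfl⟩
        exact hyI i
      rw [h2, finrank_span_eq_card hyi, Fintype.card_fin, ← h2]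
    have h3 := finrank_RI W
    rw [← hW, ← h1, hId, mul_comm] at h3
    exact (Nat.eq_of_mul_eq_mul_left hpos h3).symm
  · unfold RatR
    rw [← hW]
    exact hrat.mono hK
  · obtain ⟨K₀, hK₀⟩ := exists_fodR k β W
    have h1 : K₀ ≤ K := (hK₀ K).1 hK
    have h2 : K₀ ≤ f.fieldRange := by
      refine (hK₀ _).1 ?_
      unfold RatR
      rw [← hW]
      exact hrat
    have h3 : RatS β K₀ (Submodule.span Ω (toMat f ρ '' (I : Set (F ⊗[k] A)))) := by
      have := (hK₀ K₀).2 le_rfl
      unfold RatR at this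
      rwa [← hW] at this
    obtain ⟨y, hyI, hyr, -, hys⟩ := exists_family f hρ I h2 h3
    have h4 : (f.comp (K₀.comap f).val).fieldRange = K₀ := by
      ext c
      constructor
      · rintro ⟨⟨x, hx⟩, rfl⟩
        exact hx
      · intro hc
        obtain ⟨x, hx⟩ := h2 hc
        have hx' : f x = c := hx
        refine ⟨⟨x, ?_⟩, hx'⟩
        show f x ∈ K₀
        rw [hx']
        exact hc
    have h5 : K₀.comap f = ⊤ := by
      refine hL _ fun x hx => ?_
      refine Submodule.span_mono ?_ (hys x hx)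
      rintro _ ⟨i, rfl⟩
      refine ⟨hyI i, ?_⟩
      obtain ⟨z, hz⟩ := (ratV_iff_toMat hρ (f.comp (K₀.comap f).val) _).1
        (by rw [h4]; exact hyr i)
      refine ⟨z, toMat_injective hρ f ?_⟩
      rw [toMat_map, hz]
    rintro _ ⟨x, rfl⟩
    have h6 : x ∈ K₀.comap f := by rw [h5]; trivial
    exact h1 h6

end Pool.Agent.H72.SB
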