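import Pool.Agent.H72.SB.Idem
import Pool.Agent.H72.SB.Dens

/-!
# Common rational complements

Proof plan. Let `l = finrank (colS e)`. Show by induction on `s` that for `s * l ≤ finrank V - finrank
U₁` there is a `K`-rational `W ≤ V` of dimension `s * l` with `U₁ ⊓ W = ⊥` and `U₂ ⊓ W = ⊥`. For the
step let `p` be a `K`-rational projection with image `V` (`exists_idem`). For a matrix `ψ` let `T₁ ψ`
be the linear map from `colS e` to `(Fin n → Ω) ⧸ (U₁ ⊔ W)` which maps `x` to the class of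
`p *ᵥ (ψ *ᵥ x)`, and `T₂` the same for `U₂`. As `l ≤ finrank V - finrank (U₁ ⊔ W)` there is `ψ` with
`T₁ ψ` injective (choose an injective linear map from `colS e` to a complement of `U₁ ⊔ W` in `V` and
extend it), and the same for `T₂`. By `lineOpen_injective`, `LineOpen.exists_common` and
`LineOpen.exists_rat` there is a `k`-rational `ψ` with both `T₁ ψ` and `T₂ ψ` injective. Then replace
`W` by `W ⊔ colS (p * ψ * e)` (`ratR_colS`, `RatR.sup`). At the end
`s * l = finrank V - finrank U₁`, so `U₁ ⊔ W = V` and `U₂ ⊔ W = V` by dimension.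
(`Infinite Ω` follows from `Infinite k` by `Infinite.of_injective (algebraMap k Ω)`.)
-/

open Module Matrix

namespace Pool.Agent.H72.SB

variable {k Ω : Type*} [Field k] [Field Ω] [Algebra k Ω]
variable {ι : Type*} [Fintype ι] {n : ℕ}
variable {β : Basis ι Ω (Matrix (Fin n) (Fin n) Ω)} {K : IntermediateField k Ω}

/-- The map `x ↦ p ψ x` from `A` to the quotient by `Z`. -/
private noncomputable def TT (p : Matrix (Fin n) (Fin n) Ω) (A Z : Submodule Ω (Fin n → Ω))
    (ψ : Matrix (Fin n) (Fin n) Ω) : A →ₗ[Ω] ((Fin n → Ω) ⧸ Z) :=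
  (Z.mkQ ∘ₗ p.mulVecLin) ∘ₗ (ψ.mulVecLin ∘ₗ A.subtype)

private theorem TT_apply (p : Matrix (Fin n) (Fin n) Ω) (A Z : Submodule Ω (Fin n → Ω))
    (ψ : Matrix (Fin n) (Fin n) Ω) (x : A) :
    TT p A Z ψ x = Z.mkQ (p *ᵥ (ψ *ᵥ (x : Fin n → Ω))) := rfl

private theorem TT_line (p : Matrix (Fin n) (Fin n) Ω) (A Z : Submodule Ω (Fin n → Ω)) :
    LineOpen Ω fun ψ => Function.Injective (TT p A Z ψ) := by
  refine lineOpen_injective _ fun x y => ⟨TT p A Z y, fun t => ?_⟩
  ext a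
  rw [LinearMap.add_apply, LinearMap.smul_apply, TT_apply, TT_apply, TT_apply,
    Matrix.add_mulVec, Matrix.smul_mulVec, Matrix.mulVec_add, Matrix.mulVec_smul, map_add,
    map_smul]

private theorem TT_exists {p : Matrix (Fin n) (Fin n) Ω} {A Z V : Submodule Ω (Fin n → Ω)}
    (hp : p * p = p) (hV : colS p = V) (hZ : Z ≤ V)
    (hdim : finrank Ω A + finrank Ω Z ≤ finrank Ω V) :
    ∃ ψ, Function.Injective (TT p A Z ψ) := by
  obtain ⟨C, hC⟩ := Submodule.exists_isCompl Z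
  have h1 : Z ⊓ (C ⊓ V) = ⊥ := by rw [← inf_assoc, hC.inf_eq_bot, bot_inf_eq]
  have h2 : Z ⊔ (C ⊓ V) = V := by
    rw [← sup_inf_assoc_of_le C hZ, hC.sup_eq_top, top_inf_eq]
  have h3 := Submodule.finrank_sup_add_finrank_inf_eq Z (C ⊓ V)
  rw [h1, h2, finrank_bot, add_zero] at h3
  have h4 : finrank Ω A ≤ finrank Ω (C ⊓ V : Submodule Ω (Fin n → Ω)) := by omega
  obtain ⟨f, hf⟩ : ∃ f : A →ₗ[Ω] (C ⊓ V : Submodule Ω (Fin n → Ω)), Function.Injective f := by
    refine rank_le_iff_exists_linearMap.1 ?_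
    rw [← finrank_eq_rank, ← finrank_eq_rank]
    exact_mod_cast h4
  obtain ⟨g, hg⟩ := LinearMap.exists_extend ((C ⊓ V).subtype ∘ₗ f)
  refine ⟨LinearMap.toMatrix' g, ?_⟩
  have hgx : ∀ x : A, (LinearMap.toMatrix' g) *ᵥ (x : Fin n → Ω) = (f x : Fin n → Ω) := by
    intro x
    rw [← Matrix.toLin'_apply, Matrix.toLin'_toMatrix']
    exact LinearMap.congr_fun hg x
  have hpx : ∀ v ∈ V, p *ᵥ v = v := by
    intro v hv
    rw [← hV] at hv
    obtain ⟨w, rfl⟩ := hv
    show p *ᵥ (p *ᵥ w) = p *ᵥ w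
    rw [Matrix.mulVec_mulVec, hp]
  rw [← LinearMap.ker_eq_bot, eq_bot_iff]
  intro x hx
  rw [LinearMap.mem_ker, TT_apply, hgx, hpx _ (f x).2.2, Submodule.mkQ_apply,
    Submodule.Quotient.mk_eq_zero] at hx
  have h5 : (f x : Fin n → Ω) ∈ Z ⊓ (C ⊓ V) := ⟨hx, (f x).2⟩
  rw [h1, Submodule.mem_bot] at h5
  have h6 : f x = 0 := Subtype.ext h5
  rw [Submodule.mem_bot]
  exact hf (by rw [h6, map_zero])

theorem exists_common_compl [Infinite k] (hβ : IsForm k β)
    {V U₁ U₂ : Submodule Ω (Fin n → Ω)} (h1 : U₁ ≤ V) (h2 : U₂ ≤ V)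
    (heq : finrank Ω U₁ = finrank Ω U₂) (hV : RatR β K V) {e : Matrix (Fin n) (Fin n) Ω}
    (he : RatV β K e) (hl : 0 < finrank Ω (colS e))
    (hdvd : finrank Ω (colS e) ∣ finrank Ω V - finrank Ω U₁) :
    ∃ W ≤ V, RatR β K W ∧ U₁ ⊓ W = ⊥ ∧ U₁ ⊔ W = V ∧ U₂ ⊓ W = ⊥ ∧ U₂ ⊔ W = V := by
  have : Infinite Ω := Infinite.of_injective (algebraMap k Ω) (algebraMap k Ω).injective
  obtain ⟨p, hpK, hpp, hpV⟩ := exists_idem hβ hV
  have hle : finrank Ω U₁ ≤ finrank Ω V := Submodule.finrank_mono h1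
  have key : ∀ s : ℕ, s * finrank Ω (colS e) ≤ finrank Ω V - finrank Ω U₁ →
      ∃ W ≤ V, RatR β K W ∧ finrank Ω W = s * finrank Ω (colS e) ∧ U₁ ⊓ W = ⊥ ∧ U₂ ⊓ W = ⊥ := by
    intro s
    induction s with
    | zero =>
      intro _
      exact ⟨⊥, bot_le, ratR_bot, by rw [finrank_bot, zero_mul], inf_bot_eq _, inf_bot_eq _⟩
    | succ s ih =>
      intro hs
      rw [add_mul, one_mul] at hs
      obtain ⟨W, hWV, hWK, hWd, hW1, hW2⟩ := ih (by omega)
      have hd : ∀ U : Submodule Ω (Fin n → Ω), U ⊓ W = ⊥ →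
          finrank Ω (U ⊔ W : Submodule Ω (Fin n → Ω)) = finrank Ω U + finrank Ω W := by
        intro U hU
        have := Submodule.finrank_sup_add_finrank_inf_eq U W
        rwa [hU, finrank_bot, add_zero] at this
      obtain ⟨ψ, hψK, hψ1, hψ2⟩ := LineOpen.exists_rat (k := k) β
        ((TT_line p (colS e) (U₁ ⊔ W)).and (TT_line p (colS e) (U₂ ⊔ W)))
        (LineOpen.exists_common (TT_line p (colS e) (U₁ ⊔ W)) (TT_line p (colS e) (U₂ ⊔ W))
          (TT_exists hpp hpV (sup_le h1 hWV) (by rw [hd U₁ hW1]; omega))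
          (TT_exists hpp hpV (sup_le h2 hWV) (by rw [hd U₂ hW2]; omega)))
      have hψK' : RatV β K ψ := hψK.mono bot_le
      have hB : ∀ b ∈ colS (p * ψ * e), ∃ a : colS e, p *ᵥ (ψ *ᵥ (a : Fin n → Ω)) = b := by
        rintro _ ⟨v, rfl⟩
        refine ⟨⟨e *ᵥ v, v, rfl⟩, ?_⟩
        show p *ᵥ (ψ *ᵥ (e *ᵥ v)) = (p * ψ * e) *ᵥ v
        rw [Matrix.mulVec_mulVec, Matrix.mulVec_mulVec, Matrix.mul_assoc]
      have hBV : colS (p * ψ * e) ≤ V := by
        intro b hb
        obtain ⟨a, rfl⟩ := hB b hb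
        rw [← hpV]
        exact ⟨_, rfl⟩
      have hint : ∀ U : Submodule Ω (Fin n → Ω),
          Function.Injective (TT p (colS e) (U ⊔ W) ψ) →
          ∀ b ∈ colS (p * ψ * e), b ∈ U ⊔ W → b = 0 := by
        intro U hinj b hb hbU
        obtain ⟨a, rfl⟩ := hB b hb
        have h3 : TT p (colS e) (U ⊔ W) ψ a = 0 := by
          rw [TT_apply, Submodule.mkQ_apply, Submodule.Quotient.mk_eq_zero]
          exact hbU
        have h4 : a = 0 := hinj (by rw [h3, map_zero])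
        rw [h4, ZeroMemClass.coe_zero, Matrix.mulVec_zero, Matrix.mulVec_zero]
      have hdisj : ∀ U : Submodule Ω (Fin n → Ω), U ⊓ W = ⊥ →
          Function.Injective (TT p (colS e) (U ⊔ W) ψ) → U ⊓ (W ⊔ colS (p * ψ * e)) = ⊥ := by
        intro U hU hinj
        rw [eq_bot_iff]
        rintro u ⟨huU, hu2⟩
        obtain ⟨w, hw, b, hb, hwb⟩ := Submodule.mem_sup.1 hu2
        have h3 : b = 0 := by
          refine hint U hinj b hb ?_
          have h4 : b = u - w := by rw [← hwb]; abel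
          rw [h4]
          exact Submodule.sub_mem _ (Submodule.mem_sup_left huU) (Submodule.mem_sup_right hw)
        rw [h3, add_zero] at hwb
        have h5 : u ∈ U ⊓ W := ⟨huU, hwb ▸ hw⟩
        rwa [hU] at h5
      have hBd : finrank Ω (colS (p * ψ * e)) = finrank Ω (colS e) := by
        have h3 : colS (p * ψ * e) = LinearMap.range
            ((p.mulVecLin ∘ₗ ψ.mulVecLin) ∘ₗ (colS e).subtype) := by
          ext b
          constructor
          · intro hb
            obtain ⟨a, rfl⟩ := hB b hb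
            exact ⟨a, rfl⟩
          · rintro ⟨⟨_, v, rfl⟩, rfl⟩
            refine ⟨v, ?_⟩
            show (p * ψ * e) *ᵥ v = p *ᵥ (ψ *ᵥ (e *ᵥ v))
            rw [Matrix.mulVec_mulVec, Matrix.mulVec_mulVec, Matrix.mul_assoc]
        rw [h3]
        refine LinearMap.finrank_range_of_inj ?_
        intro a b hab
        apply hψ1
        rw [TT_apply, TT_apply]
        exact congrArg _ hab
      refine ⟨W ⊔ colS (p * ψ * e), sup_le hWV hBV,
        hWK.sup (ratR_colS hβ ((hpK.mul hβ hψK').mul hβ he)), ?_, hdisj U₁ hW1 hψ1,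
        hdisj U₂ hW2 hψ2⟩
      have h3 : W ⊓ colS (p * ψ * e) = ⊥ := by
        rw [eq_bot_iff]
        rintro b ⟨hbW, hb⟩
        rw [Submodule.mem_bot]
        exact hint U₁ hψ1 b hb (Submodule.mem_sup_right hbW)
      have h4 := Submodule.finrank_sup_add_finrank_inf_eq W (colS (p * ψ * e))
      rw [h3, finrank_bot, add_zero] at h4
      rw [h4, hWd, hBd, add_mul, one_mul]
  obtain ⟨s, hs⟩ := hdvd
  obtain ⟨W, hWV, hWK, hWd, hW1, hW2⟩ := key s (by rw [hs, mul_comm])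
  have hfin : ∀ U : Submodule Ω (Fin n → Ω), U ≤ V → finrank Ω U = finrank Ω U₁ → U ⊓ W = ⊥ →
      U ⊔ W = V := by
    intro U hU hUd hUW
    refine Submodule.eq_of_le_of_finrank_eq (sup_le hU hWV) ?_
    have := Submodule.finrank_sup_add_finrank_inf_eq U W
    rw [hUW, finrank_bot, add_zero] at this
    rw [this, hUd, hWd, mul_comm, ← hs]
    omega
  exact ⟨W, hWV, hWK, hW1, hfin U₁ h1 rfl hW1, hW2, hfin U₂ h2 heq.symm hW2⟩

end Pool.Agent.H72.SB
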