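import Pool.Agent.H72.SB.Graph

/-!
# Automorphisms of `Ω` act on rational subspaces

Proof plan. Let `sig β σ x = ∑ i, σ (β.repr x i) • β i`. It is additive and bijective (with inverse
`sig β σ.symm`), `sig (c • x) = σ c • sig x`, `sig x` is `K.map σ`-rational iff `x` is `K`-rational,
and for a form `β` it is multiplicative, `sig (X * Y) = sig X * sig Y` (the structure constants are in
`⊥`, the image of `k`). If `π` is a projection then `RI (colS π) = {X | π * X = X}`, so `sig` maps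
`RI (colS π)` onto `RI (colS (sig π))`, and it maps the span of the `K`-rational elements onto the
span of the `K.map σ`-rational elements. So `RatR β (K.map σ) (colS (sig π)) ↔ RatR β K (colS π)`.
The rank of `sig π` is the rank of `π` (a semilinear bijection preserves dimensions, `finrank_RI`).
`transport`: `W = colS π` for some projection `π`. `transport_cell`: `sig` fixes the `L`-rational
matrices `e` and `γ i`, so `sig (gr e γ t) = gr e γ (σ ∘ t)`.
-/

open Module Matrix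

namespace Pool.Agent.H72.SB

variable {k Ω : Type*} [Field k] [Field Ω] [Algebra k Ω]
variable {ι : Type*} [Fintype ι] {n : ℕ}
variable {β : Basis ι Ω (Matrix (Fin n) (Fin n) Ω)}

/-- The action of an automorphism on the coordinates. -/
private noncomputable def sig (β : Basis ι Ω (Matrix (Fin n) (Fin n) Ω)) (σ : Ω ≃ₐ[k] Ω)
    (X : Matrix (Fin n) (Fin n) Ω) : Matrix (Fin n) (Fin n) Ω := ∑ i, σ (β.repr X i) • β i

private theorem repr_sig (σ : Ω ≃ₐ[k] Ω) (X : Matrix (Fin n) (Fin n) Ω) (i : ι) :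
    β.repr (sig β σ X) i = σ (β.repr X i) := by
  unfold sig
  rw [β.repr_sum_self]

private theorem sig_add (σ : Ω ≃ₐ[k] Ω) (X Y : Matrix (Fin n) (Fin n) Ω) :
    sig β σ (X + Y) = sig β σ X + sig β σ Y := by
  refine β.ext_elem fun i => ?_
  rw [map_add, Finsupp.add_apply, repr_sig, repr_sig, repr_sig, map_add, Finsupp.add_apply, map_add]

private theorem sig_smul (σ : Ω ≃ₐ[k] Ω) (c : Ω) (X : Matrix (Fin n) (Fin n) Ω) :
    sig β σ (c • X) = σ c • sig β σ X := by
  refine β.ext_elem fun i => ?_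
  rw [map_smul, Finsupp.smul_apply, repr_sig, repr_sig, map_smul, Finsupp.smul_apply, smul_eq_mul,
    smul_eq_mul, map_mul]

private theorem sig_zero (σ : Ω ≃ₐ[k] Ω) : sig β σ 0 = 0 := by
  have := sig_smul (β := β) σ 0 0
  rwa [smul_zero, map_zero, zero_smul] at this

private theorem sig_sum (σ : Ω ≃ₐ[k] Ω) {κ : Type*} (s : Finset κ)
    (f : κ → Matrix (Fin n) (Fin n) Ω) : sig β σ (∑ a ∈ s, f a) = ∑ a ∈ s, sig β σ (f a) := by
  classical
  induction s using Finset.induction_on with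
  | empty => rw [Finset.sum_empty, Finset.sum_empty, sig_zero]
  | insert a s ha ih => rw [Finset.sum_insert ha, Finset.sum_insert ha, sig_add, ih]

private theorem sig_symm_sig (σ : Ω ≃ₐ[k] Ω) (X : Matrix (Fin n) (Fin n) Ω) :
    sig β σ.symm (sig β σ X) = X := by
  refine β.ext_elem fun i => ?_
  rw [repr_sig, repr_sig, AlgEquiv.symm_apply_apply]

private theorem sig_sig_symm (σ : Ω ≃ₐ[k] Ω) (X : Matrix (Fin n) (Fin n) Ω) :
    sig β σ (sig β σ.symm X) = X := by
  refine β.ext_elem fun i => ?_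
  rw [repr_sig, repr_sig, AlgEquiv.apply_symm_apply]

private theorem mem_map_iff (K : IntermediateField k Ω) (σ : Ω ≃ₐ[k] Ω) (c : Ω) :
    σ c ∈ K.map (σ : Ω →ₐ[k] Ω) ↔ c ∈ K := by
  rw [IntermediateField.mem_map]
  constructor
  · rintro ⟨d, hd, h⟩
    have : d = c := σ.injective h
    rwa [← this]
  · intro h
    exact ⟨c, h, rfl⟩

private theorem ratV_sig {K : IntermediateField k Ω} (σ : Ω ≃ₐ[k] Ω)
    {X : Matrix (Fin n) (Fin n) Ω} :
    RatV β (K.map (σ : Ω →ₐ[k] Ω)) (sig β σ X) ↔ RatV β K X := by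
  unfold RatV
  refine forall_congr' fun i => ?_
  rw [repr_sig, mem_map_iff]

private theorem sig_fix {L : IntermediateField k Ω} {σ : Ω ≃ₐ[k] Ω} (hσ : ∀ x ∈ L, σ x = x)
    {X : Matrix (Fin n) (Fin n) Ω} (hX : RatV β L X) : sig β σ X = X := by
  refine β.ext_elem fun i => ?_
  rw [repr_sig, hσ _ (hX i)]

private theorem fix_bot (σ : Ω ≃ₐ[k] Ω) : ∀ x ∈ (⊥ : IntermediateField k Ω), σ x = x := by
  intro x hx
  obtain ⟨c, rfl⟩ := IntermediateField.mem_bot.1 hx
  exact σ.commutes c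

private theorem sig_mul (hβ : IsForm k β) (σ : Ω ≃ₐ[k] Ω) (X Y : Matrix (Fin n) (Fin n) Ω) :
    sig β σ (X * Y) = sig β σ X * sig β σ Y := by
  have h1 : X * Y = ∑ i, ∑ j, (β.repr X i * β.repr Y j) • (β i * β j) := by
    conv_lhs => rw [← β.sum_repr X, ← β.sum_repr Y]
    rw [Finset.sum_mul]
    refine Finset.sum_congr rfl fun i _ => ?_
    rw [Finset.mul_sum]
    exact Finset.sum_congr rfl fun j _ => smul_mul_smul_comm _ _ _ _
  have h2 : sig β σ X * sig β σ Y =
      ∑ i, ∑ j, (σ (β.repr X i) * σ (β.repr Y j)) • (β i * β j) := by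
    unfold sig
    rw [Finset.sum_mul]
    refine Finset.sum_congr rfl fun i _ => ?_
    rw [Finset.mul_sum]
    exact Finset.sum_congr rfl fun j _ => smul_mul_smul_comm _ _ _ _
  rw [h1, h2, sig_sum]
  refine Finset.sum_congr rfl fun i _ => ?_
  rw [sig_sum]
  refine Finset.sum_congr rfl fun j _ => ?_
  rw [sig_smul, sig_fix (fix_bot σ) (hβ.mul i j), map_mul]

omit [Fintype ι] in
private theorem mem_RI_colS {π X : Matrix (Fin n) (Fin n) Ω} (hπ : π * π = π) :
    X ∈ RI (colS π) ↔ π * X = X := by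
  constructor
  · intro h
    have h1 : ∀ v, (π * X) *ᵥ v = X *ᵥ v := by
      intro v
      obtain ⟨w, hw⟩ := mem_colS.1 (h v)
      rw [← Matrix.mulVec_mulVec, ← hw, Matrix.mulVec_mulVec, hπ]
    ext i j
    have := congrFun (h1 (Pi.single j 1)) i
    simpa using this
  · intro h v
    refine mem_colS.2 ⟨X *ᵥ v, ?_⟩
    rw [Matrix.mulVec_mulVec, h]

private theorem sig_mem_RI (hβ : IsForm k β) (σ : Ω ≃ₐ[k] Ω) {π X : Matrix (Fin n) (Fin n) Ω}
    (hπ : π * π = π) (hX : X ∈ RI (colS π)) : sig β σ X ∈ RI (colS (sig β σ π)) := by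
  rw [mem_RI_colS (by rw [← sig_mul hβ, hπ]), ← sig_mul hβ, (mem_RI_colS hπ).1 hX]

private theorem ratR_sig_aux (hβ : IsForm k β) (σ : Ω ≃ₐ[k] Ω) {π : Matrix (Fin n) (Fin n) Ω}
    (hπ : π * π = π) {K K' : IntermediateField k Ω}
    (hK : ∀ X, RatV β K X → RatV β K' (sig β σ X)) (h : RatR β K (colS π)) :
    RatR β K' (colS (sig β σ π)) := by
  intro Y hY
  have hσπ : sig β σ π * sig β σ π = sig β σ π := by rw [← sig_mul hβ, hπ]
  have h1 : sig β σ.symm Y ∈ RI (colS π) := by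
    have := sig_mem_RI hβ σ.symm hσπ hY
    rwa [sig_symm_sig] at this
  have h2 := h h1
  have h3 : ∀ X ∈ Submodule.span Ω {x | x ∈ RI (colS π) ∧ RatV β K x},
      sig β σ X ∈ Submodule.span Ω {x | x ∈ RI (colS (sig β σ π)) ∧ RatV β K' x} := by
    intro X hX
    induction hX using Submodule.span_induction with
    | mem x hx => exact Submodule.subset_span ⟨sig_mem_RI hβ σ hπ hx.1, hK _ hx.2⟩
    | zero => rw [sig_zero]; exact Submodule.zero_mem _
    | add x y _ _ hx hy => rw [sig_add]; exact Submodule.add_mem _ hx hy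
    | smul a x _ hx => rw [sig_smul]; exact Submodule.smul_mem _ _ hx
  have h4 := h3 _ h2
  rwa [sig_sig_symm] at h4

private theorem ratR_sig (hβ : IsForm k β) (σ : Ω ≃ₐ[k] Ω) {π : Matrix (Fin n) (Fin n) Ω}
    (hπ : π * π = π) (K : IntermediateField k Ω) :
    RatR β (K.map (σ : Ω →ₐ[k] Ω)) (colS (sig β σ π)) ↔ RatR β K (colS π) := by
  constructor
  · intro h
    have hσπ : sig β σ π * sig β σ π = sig β σ π := by rw [← sig_mul hβ, hπ]
    have h1 := ratR_sig_aux hβ σ.symm hσπ (K' := K) (fun X hX => ?_) h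
    · rwa [sig_symm_sig] at h1
    · have h2 : RatV β (K.map (σ : Ω →ₐ[k] Ω)) (sig β σ (sig β σ.symm X)) := by
        rwa [sig_sig_symm]
      exact (ratV_sig σ).1 h2
  · exact ratR_sig_aux hβ σ hπ fun X hX => (ratV_sig σ).2 hX

private theorem finrank_sig (hβ : IsForm k β) (σ : Ω ≃ₐ[k] Ω) {π : Matrix (Fin n) (Fin n) Ω}
    (hπ : π * π = π) : finrank Ω (colS (sig β σ π)) = finrank Ω (colS π) := by
  have hσπ : sig β σ π * sig β σ π = sig β σ π := by rw [← sig_mul hβ, hπ]
  let j : RI (colS π) ≃+ RI (colS (sig β σ π)) :=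
    { toFun := fun X => ⟨sig β σ X.1, sig_mem_RI hβ σ hπ X.2⟩
      invFun := fun Y => ⟨sig β σ.symm Y.1, by
        have := sig_mem_RI hβ σ.symm hσπ Y.2
        rwa [sig_symm_sig] at this⟩
      left_inv := fun X => Subtype.ext (sig_symm_sig σ X.1)
      right_inv := fun Y => Subtype.ext (sig_sig_symm σ Y.1)
      map_add' := fun X Y => Subtype.ext (sig_add σ X.1 Y.1) }
  have h1 : Module.rank Ω (RI (colS π)) = Module.rank Ω (RI (colS (sig β σ π))) :=
    rank_eq_of_equiv_equiv (σ : Ω → Ω) j σ.bijective fun r m => Subtype.ext (sig_smul σ r m.1)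
  have h2 : finrank Ω (RI (colS π)) = finrank Ω (RI (colS (sig β σ π))) := by
    unfold Module.finrank
    rw [h1]
  rw [finrank_RI, finrank_RI] at h2
  rcases Nat.eq_zero_or_pos n with hn | hn
  · subst hn
    have h3 : ∀ U : Submodule Ω (Fin 0 → Ω), finrank Ω U = 0 := fun U => by
      have := Submodule.finrank_le U
      rw [Module.finrank_fin_fun] at this
      omega
    rw [h3, h3]
  · exact (Nat.eq_of_mul_eq_mul_left hn h2).symm

theorem transport (hβ : IsForm k β) (σ : Ω ≃ₐ[k] Ω) (W : Submodule Ω (Fin n → Ω)) :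
    ∃ W' : Submodule Ω (Fin n → Ω), finrank Ω W' = finrank Ω W ∧
      ∀ K : IntermediateField k Ω, RatR β (K.map (σ : Ω →ₐ[k] Ω)) W' ↔ RatR β K W := by
  have hW : RatR β (⊤ : IntermediateField k Ω) W :=
    fun _ hx => Submodule.subset_span ⟨hx, fun _ => IntermediateField.mem_top⟩
  obtain ⟨π, _, hπ, hπW⟩ := exists_idem hβ hW
  refine ⟨colS (sig β σ π), ?_, fun K => ?_⟩
  · rw [finrank_sig hβ σ hπ, hπW]
  · rw [ratR_sig hβ σ hπ K, hπW]

theorem transport_cell (hβ : IsForm k β) {L : IntermediateField k Ω} {σ : Ω ≃ₐ[k] Ω}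
    (hσ : ∀ x ∈ L, σ x = x) {l r : ℕ} {e : Matrix (Fin n) (Fin n) Ω}
    {γ : Fin r → Matrix (Fin n) (Fin n) Ω} (h : IsCell β L l e γ) (t : Fin r → Ω)
    (K : IntermediateField k Ω) :
    RatR β (K.map (σ : Ω →ₐ[k] Ω)) (colS (gr e γ fun i => σ (t i))) ↔
      RatR β K (colS (gr e γ t)) := by
  have h1 : gr e γ (fun i => σ (t i)) = sig β σ (gr e γ t) := by
    unfold gr
    rw [sig_add, sig_fix hσ h.rat_e, sig_sum]
    congr 1
    refine Finset.sum_congr rfl fun i _ => ?_
    rw [sig_smul, sig_fix hσ (h.rat_γ i)]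
  rw [h1]
  exact ratR_sig hβ σ (h.idem t) K

end Pool.Agent.H72.SB
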