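import Pool.Agent.H72.SB.Param
import Pool.Agent.H72.SB.Sigma
import Pool.Agent.H72.SB.Aut

/-!
# Transcendence degrees

`L` is an intermediate field which is algebraic over `k`, all matrix units are `L`-rational, and
`D = trdeg Ω / k`.

Proof plan. `trd_alg`: a subfield `F` of transcendence degree `D` over `k`: `Ω` is algebraic over `F`
(`trdeg_add_eq`, `trdeg_eq_zero_iff`, cancel the finite cardinal `D`).
`isTranscendenceBasis_of_pres`: for `K ≥ L` one has `F ≤ K` iff all `y i` and all `t i` are in `K`
(`IsCell.iff`), so `F` is contained in the field `L(y, t)`; hence `Ω` is algebraic over `L(y, t)` and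
over the algebra `L[y, t]`, and `trdeg Ω / L = D` is the number of the `y i, t i`:
`isTranscendenceBasis_of_le_trdeg_of_finite`.
`exists_generic`: for `U = colS (∑ i < m, single i i 1)` (`ratR_colS`) take the cell of
`cell_of_ratR` over `L`, a transcendence basis `z` of `Ω / L` indexed by `Fin (m * (n - m))` and
`W = colS (gr e γ z)`, `F` from `exists_fodR`. `F ⊔ L` contains all `z i` (`IsCell.iff`), so `Ω` is
algebraic over `F ⊔ L`, hence over `F` (`L` is algebraic over `k`), so `trdeg F / k = D`.
-/

open Module Matrix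

namespace Pool.Agent.H72.SB

variable {k Ω : Type*} [Field k] [Field Ω] [Algebra k Ω]
variable {ι : Type*} [Fintype ι] {n : ℕ}
variable {β : Basis ι Ω (Matrix (Fin n) (Fin n) Ω)} {L : IntermediateField k Ω}

theorem trd_alg {D : ℕ} (hD : Algebra.trdeg k Ω = D) {F : IntermediateField k Ω}
    (hF : Algebra.trdeg k F = D) : Algebra.IsAlgebraic F Ω := by
  have h1 := _root_.trdeg_add_eq k F (A := Ω)
  rw [hD, hF] at h1
  have h2 : Algebra.trdeg F Ω = 0 := by
    apply Cardinal.eq_of_add_eq_add_left (a := (D : Cardinal))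
    · rw [h1, add_zero]
    · exact Cardinal.natCast_lt_aleph0
  exact _root_.trdeg_eq_zero_iff.1 h2

/-- the transcendence degree over an algebraic subextension -/
private lemma Trd_over (hL : Algebra.IsAlgebraic k L) : Algebra.trdeg L Ω = Algebra.trdeg k Ω := by
  have h1 := _root_.trdeg_add_eq k L (A := Ω)
  rw [_root_.trdeg_eq_zero_iff.2 hL, zero_add] at h1
  exact h1

/-- algebraicity passes to larger intermediate fields -/
private lemma Trd_mono {F K : IntermediateField k Ω} (h : F ≤ K) {x : Ω} (hx : IsAlgebraic F x) :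
    IsAlgebraic K x :=
  IsAlgebraic.tower_top_of_subalgebra_le (A := F.toSubalgebra) (B := K.toSubalgebra) h hx

theorem isTranscendenceBasis_of_pres (hL : Algebra.IsAlgebraic k L) {D l N : ℕ}
    (hD : Algebra.trdeg k Ω = D) (hlN : l * (n - l) + N = D)
    {e : Matrix (Fin n) (Fin n) Ω} {γ : Fin (l * (n - l)) → Matrix (Fin n) (Fin n) Ω}
    (hc : IsCell β L l e γ) {y : Fin (l * (n - l)) → Ω} {t : Fin N → Ω}
    {F : IntermediateField k Ω} (hF : Algebra.trdeg k F = D)
    (h : ∀ K : IntermediateField k Ω, F ≤ K ↔ (RatR β K (colS (gr e γ y)) ∧ ∀ i, t i ∈ K)) :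
    IsTranscendenceBasis L (Sum.elim y t) := by
  have hFalg := trd_alg hD hF
  let S : Set Ω := Set.range (Sum.elim y t)
  let E : IntermediateField L Ω := IntermediateField.adjoin L S
  let K : IntermediateField k Ω := E.restrictScalars k
  have hLK : L ≤ K := by
    intro x hx
    exact E.algebraMap_mem ⟨x, hx⟩
  have hFK : F ≤ K := by
    rw [h K, hc.iff K hLK y]
    refine ⟨fun i => ?_, fun i => ?_⟩
    · exact IntermediateField.subset_adjoin L S ⟨Sum.inl i, rfl⟩
    · exact IntermediateField.subset_adjoin L S ⟨Sum.inr i, rfl⟩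
  have hE : Algebra.IsAlgebraic E Ω := by
    refine ⟨fun x => ?_⟩
    have h1 : IsAlgebraic K x := Trd_mono hFK (hFalg.isAlgebraic x)
    exact h1
  have hA : Algebra.IsAlgebraic (Algebra.adjoin L (Set.range (Sum.elim y t))) Ω := by
    open scoped IntermediateField.algebraAdjoinAdjoin in
    exact Algebra.IsAlgebraic.trans (Algebra.adjoin L S) E Ω
  apply Algebra.IsAlgebraic.isTranscendenceBasis_of_lift_le_trdeg_of_finite
  rw [Trd_over hL, hD, ← hlN]
  simp

theorem exists_generic (hβ : IsForm k β) (hL : Algebra.IsAlgebraic k L)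
    (hs : ∀ i j, RatV β L (Matrix.single i j (1 : Ω))) {m : ℕ} (hm : m ≤ n)
    (hD : Algebra.trdeg k Ω = (m * (n - m) : ℕ)) :
    ∃ W : Submodule Ω (Fin n → Ω), finrank Ω W = m ∧ ∃ F : IntermediateField k Ω,
      (∀ K, F ≤ K ↔ RatR β K W) ∧ Algebra.trdeg k F = (m * (n - m) : ℕ) := by
  classical
  -- the standard subspace
  let P : Matrix (Fin n) (Fin n) Ω :=
    ∑ i ∈ Finset.univ.filter (fun i : Fin n => (i : ℕ) < m), Matrix.single i i (1 : Ω)
  have hPrat : RatV β L P := RatV.sum fun i _ => hs i i
  have hPd : P = Matrix.diagonal (fun i : Fin n => if (i : ℕ) < m then (1 : Ω) else 0) := by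
    ext i j
    show (∑ i ∈ Finset.univ.filter (fun i : Fin n => (i : ℕ) < m),
      Matrix.single i i (1 : Ω)) i j = _
    rw [Matrix.sum_apply, Matrix.diagonal_apply]
    rw [Finset.sum_filter]
    by_cases hij : i = j
    · subst hij
      rw [if_pos rfl, Finset.sum_eq_single i]
      · simp
      · intro b _ hb
        split_ifs
        · rw [Matrix.single_apply_of_ne]
          simp [hb]
        · rfl
      · intro h; exact absurd (Finset.mem_univ i) h
    · rw [if_neg hij]
      apply Finset.sum_eq_zero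
      intro b _
      split_ifs
      · rw [Matrix.single_apply_of_ne]
        rintro ⟨rfl, rfl⟩
        exact hij rfl
      · rfl
  have hrank : finrank Ω (colS P) = m := by
    have h1 : finrank Ω (colS P) = P.rank := rfl
    rw [h1, hPd, Matrix.rank_diagonal]
    have h2 : Fintype.card {i : Fin n // (if (i : ℕ) < m then (1 : Ω) else 0) ≠ 0}
        = Fintype.card (Fin m) := by
      refine Fintype.card_congr ⟨fun i => ⟨i.1.1, ?_⟩, fun j => ⟨⟨j.1, by omega⟩, ?_⟩, ?_, ?_⟩
      · by_contra hlt
        exact i.2 (if_neg hlt)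
      · show (if j.1 < m then (1 : Ω) else 0) ≠ 0
        rw [if_pos j.2]; exact one_ne_zero
      · intro i; rfl
      · intro j; rfl
    rw [h2, Fintype.card_fin]
  obtain ⟨e, γ, hc⟩ := cell_of_ratR hβ hrank (ratR_colS hβ hPrat)
  obtain ⟨κ, z', hz'⟩ := exists_isTranscendenceBasis' L Ω
  have hcard : Cardinal.mk κ = ((m * (n - m) : ℕ) : Cardinal) := by
    have h1 := hz'.cardinalMk_eq_trdeg
    rw [h1, Trd_over hL, hD]
  have hne : Nonempty (κ ≃ Fin (m * (n - m))) := by
    have hfin : Finite κ := by
      rw [← Cardinal.lt_aleph0_iff_finite, hcard]; exact Cardinal.natCast_lt_aleph0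
    have : Nat.card κ = m * (n - m) := by
      rw [Nat.card, hcard]; exact Cardinal.toNat_natCast _
    exact ⟨(Finite.equivFinOfCardEq this)⟩
  obtain ⟨ε⟩ := hne
  let z : Fin (m * (n - m)) → Ω := fun i => z' (ε.symm i)
  have hzr : Set.range z = Set.range z' := by
    ext x
    constructor
    · rintro ⟨i, rfl⟩; exact ⟨_, rfl⟩
    · rintro ⟨i, rfl⟩; exact ⟨ε i, by show z' (ε.symm (ε i)) = z' i; rw [ε.symm_apply_apply]⟩
  obtain ⟨F, hF⟩ := exists_fodR k β (colS (gr e γ z))
  refine ⟨colS (gr e γ z), hc.rank z, F, fun K => (hF K).symm, ?_⟩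
  -- `z i` is in `F ⊔ L`
  have hzF : ∀ i, z i ∈ F ⊔ L :=
    (hc.iff (F ⊔ L) le_sup_right z).1 ((hF (F ⊔ L)).2 le_sup_left)
  let A : IntermediateField F Ω := algebraicClosure F Ω
  let A' : IntermediateField k Ω := A.restrictScalars k
  have hFA : F ≤ A' := by
    intro x hx
    exact A.algebraMap_mem ⟨x, hx⟩
  have hLA : L ≤ A' := by
    intro x hx
    show x ∈ algebraicClosure F Ω
    rw [mem_algebraicClosure_iff]
    have h1 : IsAlgebraic k x := by
      have h2 := hL.isAlgebraic ⟨x, hx⟩
      exact (isAlgebraic_algebraMap_iff (algebraMap L Ω).injective).2 h2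
    exact h1.extendScalars (algebraMap k F).injective
  have hzA : ∀ i, z i ∈ A' := fun i => (sup_le hFA hLA) (hzF i)
  let E : IntermediateField L Ω := IntermediateField.adjoin L (Set.range z')
  have hEA : E.restrictScalars k ≤ A' := by
    intro x hx
    change x ∈ IntermediateField.adjoin L (Set.range z') at hx
    induction hx using IntermediateField.adjoin_induction with
    | mem x hx =>
      rw [← hzr] at hx
      obtain ⟨i, rfl⟩ := hx
      exact hzA i
    | algebraMap x => exact hLA x.2
    | add x y _ _ hx hy => exact A'.add_mem hx hy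
    | inv x _ hx => exact A'.inv_mem hx
    | mul x y _ _ hx hy => exact A'.mul_mem hx hy
  have hEalg : Algebra.IsAlgebraic E Ω := hz'.isAlgebraic_field
  have hFalg : Algebra.IsAlgebraic F Ω := by
    refine ⟨fun x => ?_⟩
    have h1 : IsAlgebraic (E.restrictScalars k) x := hEalg.isAlgebraic x
    have h2 : IsAlgebraic A' x := Trd_mono hEA h1
    have h3 : IsAlgebraic A x := h2
    exact h3.restrictScalars F
  have h5 := _root_.trdeg_add_eq k F (A := Ω)
  rw [_root_.trdeg_eq_zero_iff.2 hFalg, add_zero] at h5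
  rw [h5, hD]

end Pool.Agent.H72.SB
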