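import Pool.Agent.H72.SB.Euclid
import Pool.Agent.H72.SB.Trd

/-!
# Presentations of fields of definition and their uniqueness
-/

open Module Matrix

namespace Pool.Agent.H72.SB

variable {k Ω : Type*} [Field k] [Field Ω] [Algebra k Ω]
variable {ι : Type*} [Fintype ι] {n : ℕ}

/-- `F` is generated by the field of definition of a subspace of dimension `l` and `N` elements. -/
def Pres (β : Basis ι Ω (Matrix (Fin n) (Fin n) Ω)) (l N : ℕ) (F : IntermediateField k Ω) : Prop :=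
  ∃ U : Submodule Ω (Fin n → Ω), finrank Ω U = l ∧ ∃ t : Fin N → Ω,
    ∀ K : IntermediateField k Ω, F ≤ K ↔ (RatR β K U ∧ ∀ i, t i ∈ K)

theorem euclid_pres [Infinite k] {β : Basis ι Ω (Matrix (Fin n) (Fin n) Ω)} (hβ : IsForm k β)
    {W : Submodule Ω (Fin n → Ω)} {F : IntermediateField k Ω} (hF : ∀ K, F ≤ K ↔ RatR β K W)
    {m : ℕ} (hW : finrank Ω W = m) (hm : 0 < m) (hmn : m ≤ n) :
    ∃ N : ℕ, (N : ℤ) + (Nat.gcd m n : ℕ) * (n - (Nat.gcd m n : ℕ)) = m * (n - m) ∧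
      Pres β (Nat.gcd m n) N F := by
  have h1 : finrank Ω (perp W) = n - m := by
    have := finrank_perp W
    omega
  have hg : Nat.gcd (finrank Ω W) (finrank Ω (perp W)) = Nat.gcd m n := by
    rw [h1, hW]
    conv_rhs => rw [← Nat.sub_add_cancel hmn]
    exact (Nat.gcd_add_self_right m (n - m)).symm
  obtain ⟨Ul, M, t, hUl, hM, ht⟩ := euclid (finrank Ω W + finrank Ω (perp W)) hβ le_rfl
    (by rw [hW]; exact hm) le_rfl (State.init hβ W) _ hg (Nat.gcd_dvd_right m n)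
  refine ⟨M, ?_, Ul, hUl, t, fun K => ?_⟩
  · rw [h1, hW] at hM
    push_cast [Nat.cast_sub hmn] at hM ⊢
    linear_combination hM
  · rw [hF K, ← ht K]
    exact ⟨fun h => ⟨h, ratR_perp hβ h⟩, fun h => h.1⟩

theorem finrank_colS_single (i : Fin n) :
    finrank Ω (colS (Matrix.single i i (1 : Ω))) = 1 := by
  have h : colS (Matrix.single i i (1 : Ω)) = Submodule.span Ω {Pi.single i 1} := by
    ext x
    rw [mem_colS, Submodule.mem_span_singleton]
    constructor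
    · rintro ⟨v, rfl⟩
      refine ⟨v i, ?_⟩
      ext j
      rw [Matrix.single_mulVec]
      simp [Pi.single_apply, Function.update_apply]
    · rintro ⟨c, rfl⟩
      refine ⟨Pi.single i c, ?_⟩
      ext j
      rw [Matrix.single_mulVec]
      simp [Pi.single_apply, Function.update_apply]
  rw [h]
  exact finrank_span_singleton (by
    intro h0
    have := congrFun h0 i
    simp at this)

theorem pres_unique [Infinite k] [IsAlgClosed Ω] {β : Basis ι Ω (Matrix (Fin n) (Fin n) Ω)}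
    (hβ : IsForm k β) {L : IntermediateField k Ω} (hL : Algebra.IsAlgebraic k L)
    (hs : ∀ i j, RatV β L (Matrix.single i j (1 : Ω))) (hn : 0 < n) {D l N : ℕ}
    (hD : Algebra.trdeg k Ω = D) (hlN : l * (n - l) + N = D) {F₁ F₂ : IntermediateField k Ω}
    (h₁ : Pres β l N F₁) (h₂ : Pres β l N F₂) (ht₁ : Algebra.trdeg k F₁ = D)
    (ht₂ : Algebra.trdeg k F₂ = D) :
    ∃ σ : Ω ≃ₐ[k] Ω, F₁.map (σ : Ω →ₐ[k] Ω) = F₂ := by
  obtain ⟨U₁, hU₁, t₁, h₁⟩ := h₁
  obtain ⟨U₂, hU₂, t₂, h₂⟩ := h₂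
  obtain ⟨e', γ, y₁, y₂, hc, rfl, rfl⟩ := two_cell (K := L) hβ hU₁ hU₂ (hs ⟨0, hn⟩ ⟨0, hn⟩)
    (finrank_colS_single _)
  have hb₁ := isTranscendenceBasis_of_pres hL hD hlN hc ht₁ h₁
  have hb₂ := isTranscendenceBasis_of_pres hL hD hlN hc ht₂ h₂
  obtain ⟨σ, hσ⟩ := exists_aut hb₁ hb₂
  have hσL : ∀ x ∈ L, (σ.restrictScalars k) x = x := fun x hx => σ.commutes ⟨x, hx⟩
  have hy : (fun i => (σ.restrictScalars k) (y₁ i)) = y₂ := funext fun i => hσ (Sum.inl i)
  have ht : ∀ i, (σ.restrictScalars k) (t₁ i) = t₂ i := fun i => hσ (Sum.inr i)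
  refine ⟨σ.restrictScalars k, ?_⟩
  have key : ∀ K' : IntermediateField k Ω,
      F₁.map ((σ.restrictScalars k : Ω ≃ₐ[k] Ω) : Ω →ₐ[k] Ω) ≤ K' ↔ F₂ ≤ K' := by
    intro K'
    rw [IntermediateField.map_le_iff_le_comap, h₁, h₂]
    have hK : (K'.comap ((σ.restrictScalars k : Ω ≃ₐ[k] Ω) : Ω →ₐ[k] Ω)).map
        ((σ.restrictScalars k : Ω ≃ₐ[k] Ω) : Ω →ₐ[k] Ω) = K' := by
      ext x
      rw [IntermediateField.mem_map]
      constructor
      · rintro ⟨y, hy, rfl⟩; exact hy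
      · intro hx
        refine ⟨(σ.restrictScalars k).symm x, ?_, by simp⟩
        show (σ.restrictScalars k) ((σ.restrictScalars k).symm x) ∈ K'
        simpa using hx
    have h3 := transport_cell hβ hσL hc y₁
      (K'.comap ((σ.restrictScalars k : Ω ≃ₐ[k] Ω) : Ω →ₐ[k] Ω))
    rw [hK, hy] at h3
    rw [← h3]
    refine and_congr Iff.rfl (forall_congr' fun i => ?_)
    show (σ.restrictScalars k) (t₁ i) ∈ K' ↔ _
    rw [ht i]
  exact le_antisymm ((key _).2 le_rfl) ((key _).1 le_rfl)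

/-- The rational parts of a presentation can be moved to another algebra with the same index. -/
theorem pres_swap [Infinite k] {β β' : Basis ι Ω (Matrix (Fin n) (Fin n) Ω)} (hβ : IsForm k β)
    (hβ' : IsForm k β') {l N : ℕ} (hl : 0 < l) (hln : l ∣ n)
    (h1 : ∀ K : IntermediateField k Ω,
      (∃ U : Submodule Ω (Fin n → Ω), finrank Ω U = l ∧ RatR β K U) →
      ∃ U : Submodule Ω (Fin n → Ω), finrank Ω U = l ∧ RatR β' K U)
    (h2 : ∀ K : IntermediateField k Ω,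
      (∃ U : Submodule Ω (Fin n → Ω), finrank Ω U = l ∧ RatR β' K U) →
      ∃ U : Submodule Ω (Fin n → Ω), finrank Ω U = l ∧ RatR β K U)
    {F : IntermediateField k Ω} (h : Pres β l N F) (hN : l * (n - l) ≤ N) : Pres β' l N F := by
  obtain ⟨U, hU, t, ht⟩ := h
  obtain ⟨N', rfl⟩ := Nat.exists_eq_add_of_le hN
  obtain ⟨KA, hKA⟩ := exists_fodR k β U
  obtain ⟨V, hV, hVr⟩ := h1 KA ⟨U, hU, (hKA KA).2 le_rfl⟩
  obtain ⟨e, γ, hc⟩ := cell_of_ratR hβ' hV hVr
  set t1 : Fin (l * (n - l)) → Ω := fun i => t (Fin.castAdd N' i) with ht1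
  set t2 : Fin N' → Ω := fun i => t (Fin.natAdd (l * (n - l)) i) with ht2
  have htt : t = Fin.append t1 t2 := by
    ext i
    induction i using Fin.addCases with
    | left i => simp [ht1]
    | right i => simp [ht2]
  have hU' : finrank Ω (colS (gr e γ t1)) = l := hc.rank t1
  obtain ⟨KB, hKB⟩ := exists_fodR k β' (colS (gr e γ t1))
  obtain ⟨V', hV', hVr'⟩ := h2 KB ⟨_, hU', (hKB KB).2 le_rfl⟩
  obtain ⟨e', he', hee', heV'⟩ := exists_idem hβ hVr'
  have hparam := param (K := KB) hβ (bot_le : ⊥ ≤ U) (le_top : U ≤ ⊤) ratR_bot ratR_top he'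
    (by rw [heV', hV']; exact hl) (by
      rw [heV', hV', finrank_top, hU]
      simpa using Nat.dvd_sub hln (dvd_refl l))
  have h5 : (finrank Ω U - finrank Ω (⊥ : Submodule Ω (Fin n → Ω))) *
      (finrank Ω (⊤ : Submodule Ω (Fin n → Ω)) - finrank Ω U) = l * (n - l) := by
    rw [hU, finrank_bot, finrank_top]; simp
  rw [h5] at hparam
  obtain ⟨s, hs⟩ := hparam
  refine ⟨colS (gr e γ t1), hU', Fin.append s t2, fun K => ?_⟩
  rw [ht K, htt, forall_append, forall_append]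
  constructor
  · rintro ⟨hUK, ht1K, ht2K⟩
    have h3 : RatR β' K (colS (gr e γ t1)) := (hc.iff K ((hKA K).1 hUK) t1).2 ht1K
    exact ⟨h3, (hs K ((hKB K).1 h3)).1 hUK, ht2K⟩
  · rintro ⟨h3, hsK, ht2K⟩
    have hUK : RatR β K U := (hs K ((hKB K).1 h3)).2 hsK
    exact ⟨hUK, (hc.iff K ((hKA K).1 hUK) t1).1 h3, ht2K⟩

end Pool.Agent.H72.SB
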