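import Pool.Agent.H72.SB.Csa

/-!
# A field which splits `A` splits all algebras in the subgroup generated by `A`

Proof plan: induction on `InCyclic A B`.
`one`: `C ≃ k → L = M₁(L)`.
`mul`: for `f : B → M_a(L)`, `g : C → M_b(L)` take `B ⊗ C → M_a(L) ⊗ M_b(L) → M_{a b}(L)`, the
Kronecker product (`Algebra.TensorProduct.lift` with commuting images), and reindex `Fin a × Fin b`.
`inv`: transpose (`Matrix.transposeAlgEquiv`): `Bᵐᵒᵖ → M_a(L)ᵐᵒᵖ ≃ M_a(L)`.
`equiv`: `M_s(B) ≃ M_t(C)` and `f : B → M_a(L)`. Then `M_t(C) ≃ M_s(B) → M_{s a}(L)`; let `V = L ^ (s a)`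
with this action of `M_t(C)`, `e = single 0 0 1` and `W = e V`. `C` acts on `W` by
`c ↦ single 0 0 c`, which gives an algebra map `C → End_L W ≃ M_b(L)`, `b = finrank L W`. The
idempotents `single i i 1` have sum `1`, are orthogonal and their images are isomorphic
(`single i j 1`), so `t * b = s * a`, hence `t ^ 2 * b ^ 2 = s ^ 2 * a ^ 2 = finrank M_s(B) =
finrank M_t(C) = t ^ 2 * finrank C`, and `b ^ 2 = finrank C`.
-/

open Module TensorProduct

universe u

namespace Pool.Agent.H72.SB

variable {k : Type u} [Field k]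

open Kronecker in
private noncomputable def krL (k : Type*) {L : Type*} [Field k] [Field L] [Algebra k L] (a b : ℕ) :
    Matrix (Fin a) (Fin a) L →ₐ[k] Matrix (Fin a × Fin b) (Fin a × Fin b) L where
  toFun M := M ⊗ₖ (1 : Matrix (Fin b) (Fin b) L)
  map_one' := Matrix.one_kronecker_one
  map_mul' M N := by rw [← Matrix.mul_kronecker_mul, one_mul]
  map_zero' := Matrix.zero_kronecker _
  map_add' M N := Matrix.add_kronecker _ _ _
  commutes' r := by
    rw [Algebra.algebraMap_eq_smul_one, Algebra.algebraMap_eq_smul_one, Matrix.smul_kronecker,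
      Matrix.one_kronecker_one]

open Kronecker in
private noncomputable def krR (k : Type*) {L : Type*} [Field k] [Field L] [Algebra k L] (a b : ℕ) :
    Matrix (Fin b) (Fin b) L →ₐ[k] Matrix (Fin a × Fin b) (Fin a × Fin b) L where
  toFun M := (1 : Matrix (Fin a) (Fin a) L) ⊗ₖ M
  map_one' := Matrix.one_kronecker_one
  map_mul' M N := by rw [← Matrix.mul_kronecker_mul, one_mul]
  map_zero' := Matrix.kronecker_zero _
  map_add' M N := Matrix.kronecker_add _ _ _
  commutes' r := by
    rw [Algebra.algebraMap_eq_smul_one, Algebra.algebraMap_eq_smul_one, Matrix.kronecker_smul,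
      Matrix.one_kronecker_one]

open Kronecker in
private theorem kr_comm {k L : Type*} [Field k] [Field L] [Algebra k L] {a b : ℕ}
    (M : Matrix (Fin a) (Fin a) L) (N : Matrix (Fin b) (Fin b) L) :
    Commute (krL k a b M) (krR k a b N) := by
  change (M ⊗ₖ (1 : Matrix (Fin b) (Fin b) L)) * ((1 : Matrix (Fin a) (Fin a) L) ⊗ₖ N) =
    ((1 : Matrix (Fin a) (Fin a) L) ⊗ₖ N) * (M ⊗ₖ (1 : Matrix (Fin b) (Fin b) L))
  rw [← Matrix.mul_kronecker_mul, ← Matrix.mul_kronecker_mul, one_mul, one_mul, mul_one, mul_one]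

theorem SplitBy.of_tensor {B C E L : Type*} [Ring B] [Algebra k B] [Ring C] [Algebra k C] [Ring E]
    [Algebra k E] [Field L] [Algebra k L] (hB : SplitBy k B L) (hC : SplitBy k C L)
    (e : E ≃ₐ[k] B ⊗[k] C) : SplitBy k E L := by
  obtain ⟨a, ha, ha2, ⟨f⟩⟩ := hB
  obtain ⟨b, hb, hb2, ⟨g⟩⟩ := hC
  refine ⟨a * b, Nat.mul_pos ha hb, ?_, ⟨?_⟩⟩
  · rw [e.toLinearEquiv.finrank_eq, Module.finrank_tensorProduct, ← ha2, ← hb2, mul_pow]
  · exact ((Matrix.reindexAlgEquiv k L (finProdFinEquiv (m := a) (n := b))).toAlgHom.comp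
      (Algebra.TensorProduct.lift ((krL k a b).comp f) ((krR k a b).comp g)
        (fun x y => kr_comm (k := k) (f x) (g y)))).comp e.toAlgHom

theorem SplitBy.of_op {B C L : Type*} [Ring B] [Algebra k B] [Ring C] [Algebra k C] [Field L]
    [Algebra k L] (hB : SplitBy k B L) (e : C ≃ₐ[k] Bᵐᵒᵖ) : SplitBy k C L := by
  obtain ⟨a, ha, ha2, ⟨f⟩⟩ := hB
  refine ⟨a, ha, ?_, ⟨?_⟩⟩
  · rw [e.toLinearEquiv.finrank_eq, ← (MulOpposite.opLinearEquiv k (M := B)).finrank_eq, ha2]
  · exact ((Matrix.transposeAlgEquiv (Fin a) k L).symm.toAlgHom.comp (AlgHom.op f)).comp e.toAlgHom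

private theorem of_matrix_aux {C L N : Type*} [Ring C] [Algebra k C] [Field L]
    [Algebra k L] [Fintype N] [DecidableEq N] {t : ℕ} (ht : 0 < t)
    (F : Matrix (Fin t) (Fin t) C →ₐ[k] Matrix N N L) :
    ∃ b : ℕ, t * b = Fintype.card N ∧ Nonempty (C →ₐ[k] Matrix (Fin b) (Fin b) L) := by
  classical
  have : NeZero t := ⟨ht.ne'⟩
  let D : Matrix (Fin t) (Fin t) C → ((N → L) →ₗ[L] (N → L)) := fun x => (F x).mulVecLin
  have hDmul : ∀ x y v, D (x * y) v = D x (D y v) := by
    intro x y v
    simp only [D, map_mul, Matrix.mulVecLin_apply, Matrix.mulVec_mulVec]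
  have hDadd : ∀ x y v, D (x + y) v = D x v + D y v := by
    intro x y v
    change (F (x + y)).mulVec v = (F x).mulVec v + (F y).mulVec v
    rw [map_add, Matrix.add_mulVec]
  have hDone : ∀ v, D 1 v = v := by
    intro v
    change (F 1).mulVec v = v
    rw [map_one, Matrix.one_mulVec]
  have hDzero : ∀ v, D 0 v = 0 := by
    intro v
    change (F 0).mulVec v = 0
    rw [map_zero, Matrix.zero_mulVec]
  let W : Submodule L (N → L) := LinearMap.range (D (Matrix.single 0 0 1))
  have hWfix : ∀ w ∈ W, D (Matrix.single 0 0 1) w = w := by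
    rintro w ⟨v, rfl⟩
    rw [← hDmul]
    congr 2
    simp
  have hmem : ∀ (j : Fin t) (c : C) (v : N → L), D (Matrix.single 0 j c) v ∈ W := by
    intro j c v
    refine ⟨D (Matrix.single 0 j c) v, ?_⟩
    rw [← hDmul]
    congr 2
    simp
  -- the dimension
  let up : (N → L) →ₗ[L] (Fin t → W) :=
    LinearMap.pi fun i => (D (Matrix.single 0 i 1)).codRestrict W (fun v => hmem i 1 v)
  let down : (Fin t → W) →ₗ[L] (N → L) :=
    ∑ i, (D (Matrix.single i 0 1)).comp (W.subtype.comp (LinearMap.proj i))
  have hdu : ∀ v, down (up v) = v := by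
    intro v
    have h1 : down (up v) = ∑ i, D (Matrix.single i 0 1) (D (Matrix.single 0 i 1) v) := by
      simp only [down, up, LinearMap.sum_apply]
      rfl
    have h2 : ∀ i : Fin t, D (Matrix.single i 0 1) (D (Matrix.single 0 i 1) v) =
        D (Matrix.single i i 1) v := by
      intro i
      rw [← hDmul]
      congr 2
      simp
    have h3 : ∀ s : Finset (Fin t), ∑ i ∈ s, D (Matrix.single i i 1) v =
        D (∑ i ∈ s, Matrix.single i i 1) v := by
      intro s
      induction s using Finset.induction_on with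
      | empty => rw [Finset.sum_empty, Finset.sum_empty, hDzero]
      | insert i s his ih => rw [Finset.sum_insert his, Finset.sum_insert his, hDadd, ih]
    rw [h1, Finset.sum_congr rfl (fun i _ => h2 i), h3]
    have h4 : ∑ i : Fin t, Matrix.single i i (1 : C) = 1 := by
      ext p q
      rw [Matrix.sum_apply]
      by_cases hpq : p = q
      · subst hpq
        rw [Matrix.one_apply_eq, Finset.sum_eq_single p]
        · simp
        · intro i _ hi
          simp [Matrix.single_apply, hi]
        · simp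
      · rw [Matrix.one_apply_ne hpq]
        apply Finset.sum_eq_zero
        intro i _
        rw [Matrix.single_apply, if_neg]
        rintro ⟨rfl, rfl⟩
        exact hpq rfl
    rw [h4, hDone]
  have hud : ∀ w, up (down w) = w := by
    intro w
    funext j
    apply Subtype.ext
    have h1 : (up (down w) j : N → L) =
        ∑ i, D (Matrix.single 0 j 1) (D (Matrix.single i 0 1) (w i)) := by
      have : (up (down w) j : N → L) = D (Matrix.single 0 j 1) (down w) := rfl
      rw [this]
      simp only [down, LinearMap.sum_apply, map_sum]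
      rfl
    rw [h1, Finset.sum_eq_single j]
    · rw [← hDmul]
      have h2 : (Matrix.single 0 j 1 * Matrix.single j 0 1 : Matrix (Fin t) (Fin t) C) =
          Matrix.single 0 0 1 := by simp
      rw [h2]
      exact hWfix _ (w j).2
    · intro i _ hi
      rw [← hDmul]
      have h2 : (Matrix.single 0 j 1 * Matrix.single i 0 1 : Matrix (Fin t) (Fin t) C) = 0 :=
        Matrix.single_mul_single_of_ne _ _ _ _ hi.symm _
      rw [h2, hDzero]
    · simp
  let eq : (N → L) ≃ₗ[L] (Fin t → W) :=
    LinearEquiv.ofLinearMap up down (LinearMap.ext hud) (LinearMap.ext hdu)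
  have hdim : t * finrank L W = Fintype.card N := by
    have h1 := eq.finrank_eq
    rw [Module.finrank_fintype_fun_eq_card, Module.finrank_pi_fintype] at h1
    rw [h1, Finset.sum_const, Finset.card_univ, Fintype.card_fin, smul_eq_mul]
  -- the representation
  let G : C →ₐ[k] Module.End L W :=
    { toFun := fun c => ((D (Matrix.single 0 0 c)).comp W.subtype).codRestrict W
        (fun w => hmem 0 c w)
      map_one' := by
        ext1 w
        apply Subtype.ext
        exact hWfix _ w.2
      map_mul' := fun c d => by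
        ext1 w
        apply Subtype.ext
        change D (Matrix.single 0 0 (c * d)) w = D (Matrix.single 0 0 c) (D (Matrix.single 0 0 d) w)
        rw [← hDmul]
        congr 2
        simp
      map_zero' := by
        ext1 w
        apply Subtype.ext
        change D (Matrix.single 0 0 0) w = 0
        rw [Matrix.single_zero, hDzero]
      map_add' := fun c d => by
        ext1 w
        apply Subtype.ext
        change D (Matrix.single 0 0 (c + d)) w = D (Matrix.single 0 0 c) w + D (Matrix.single 0 0 d) w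
        rw [Matrix.single_add, hDadd]
      commutes' := fun r => by
        ext1 w
        apply Subtype.ext
        change D (Matrix.single 0 0 (algebraMap k C r)) w = ((r • w : W) : N → L)
        have h1 : (Matrix.single 0 0 (algebraMap k C r) : Matrix (Fin t) (Fin t) C) =
            r • Matrix.single 0 0 1 := by
          rw [Matrix.smul_single, Algebra.algebraMap_eq_smul_one]
        have h2 : D (r • Matrix.single 0 0 1) w = r • D (Matrix.single 0 0 1) w := by
          change (F (r • Matrix.single 0 0 1)).mulVec (w : N → L) =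
            r • (F (Matrix.single 0 0 1)).mulVec (w : N → L)
          rw [map_smul, Matrix.smul_mulVec]
        rw [h1, h2, hWfix _ w.2]
        rfl }
  let β := Module.finBasis L W
  refine ⟨finrank L W, hdim, ⟨?_⟩⟩
  exact ((LinearMap.toMatrixAlgEquiv β).toAlgHom.restrictScalars k).comp G

theorem SplitBy.of_matrix {B C L : Type*} [Ring B] [Algebra k B] [Ring C] [Algebra k C] [Field L]
    [Algebra k L] [FiniteDimensional k B] [FiniteDimensional k C] [Nontrivial C]
    (hB : SplitBy k B L) {s t : ℕ} (hs : s ≠ 0) (ht : t ≠ 0)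
    (e : Matrix (Fin s) (Fin s) B ≃ₐ[k] Matrix (Fin t) (Fin t) C) : SplitBy k C L := by
  obtain ⟨a, ha, ha2, ⟨f⟩⟩ := hB
  have F : Matrix (Fin t) (Fin t) C →ₐ[k] Matrix (Fin s × Fin a) (Fin s × Fin a) L :=
    ((Matrix.compAlgEquiv (Fin s) (Fin a) L k).toAlgHom.comp
      (f.mapMatrix (m := Fin s))).comp e.symm.toAlgHom
  obtain ⟨b, hb, g⟩ := of_matrix_aux (Nat.pos_of_ne_zero ht) F
  rw [Fintype.card_prod, Fintype.card_fin, Fintype.card_fin] at hb
  refine ⟨b, ?_, ?_, g⟩
  · rcases Nat.eq_zero_or_pos b with h | h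
    · rw [h, mul_zero] at hb
      exact absurd hb.symm (Nat.mul_ne_zero hs ha.ne')
    · exact h
  · have h1 := e.toLinearEquiv.finrank_eq
    rw [Module.finrank_matrix, Module.finrank_matrix, Fintype.card_fin, Fintype.card_fin,
      ← ha2] at h1
    have h2 : t * t * b ^ 2 = t * t * finrank k C := by
      rw [← h1]
      calc t * t * b ^ 2 = (t * b) ^ 2 := by ring
        _ = (s * a) ^ 2 := by rw [hb]
        _ = s * s * a ^ 2 := by ring
    exact Nat.eq_of_mul_eq_mul_left (Nat.mul_pos (Nat.pos_of_ne_zero ht) (Nat.pos_of_ne_zero ht)) h2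

theorem SplitBy.of_inCyclic {A B : CSA.{u, u} k} (h : InCyclic A B) {L : Type*} [Field L]
    [Algebra k L] (hA : SplitBy k A L) : SplitBy k B L := by
  induction h with
  | self => exact hA
  | one C e =>
    obtain ⟨e⟩ := e
    refine ⟨1, one_pos, ?_, ⟨(Algebra.ofId k _).comp e.toAlgHom⟩⟩
    rw [e.toLinearEquiv.finrank_eq, Module.finrank_self, one_pow]
  | mul B C E _ _ e ihB ihC =>
    obtain ⟨e⟩ := e
    exact ihB.of_tensor ihC e
  | inv B C _ e ih =>
    obtain ⟨e⟩ := e
    exact ih.of_op e
  | equiv B C _ e ih =>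
    obtain ⟨s, t, hs, ht, ⟨e⟩⟩ := e
    have : Nontrivial (C : Type u) := inferInstance
    exact ih.of_matrix hs ht e

end Pool.Agent.H72.SB
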