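import Pool.Agent.H72.SB.Idem
import Pool.Agent.H72.SB.Dens

/-!
# Fields of total degree `l` over which there is a rational line

Proof plan. Let `e` be a `K`-rational projection with image `U` (`exists_idem`), fix `v ≠ 0` in `U`.
Consider for a matrix `x` the property that `v, a v, ..., a ^ (l - 1) v` are linearly independent,
where `a = e * x * e`. It is line open (`lineOpen_linearIndependent`) and it holds for some `x` (take
a basis `v = v 0, ..., v (l - 1)` of `U` and `x` with `x v i = v (i + 1)`), so it holds for a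
`k`-rational `x` (`LineOpen.exists_rat`). So there is a `K`-rational `a` with `a = e * a = a * e` and a
cyclic vector `v` in `U`.
-/

open Module Matrix

namespace Pool.Agent.H72.SB

variable {k Ω : Type*} [Field k] [Field Ω] [Algebra k Ω]
variable {ι : Type*} [Fintype ι] {n : ℕ}
variable {β : Basis ι Ω (Matrix (Fin n) (Fin n) Ω)}

private theorem cyclA_poly (e x y : Matrix (Fin n) (Fin n) Ω) (v : Fin n → Ω) (i : ℕ) :
    ∀ j : Fin n, ∃ p : Polynomial Ω, ∀ t : Ω, (((e * (x + t • y) * e) ^ i) *ᵥ v) j = p.eval t := by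
  induction i with
  | zero =>
    intro j
    exact ⟨Polynomial.C (v j), fun t => by rw [pow_zero, Matrix.one_mulVec, Polynomial.eval_C]⟩
  | succ i ih =>
    intro j
    choose p hp using ih
    refine ⟨∑ l, (Polynomial.C ((e * x * e) j l) + Polynomial.X * Polynomial.C ((e * y * e) j l)) * p l,
      fun t => ?_⟩
    have h1 : e * (x + t • y) * e = e * x * e + t • (e * y * e) := by
      rw [Matrix.mul_add, Matrix.add_mul, Matrix.mul_smul, Matrix.smul_mul]
    rw [pow_succ', ← Matrix.mulVec_mulVec, Polynomial.eval_finsetSum, Matrix.mulVec, dotProduct]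
    refine Finset.sum_congr rfl fun l _ => ?_
    rw [hp l t, Polynomial.eval_mul, Polynomial.eval_add, Polynomial.eval_mul, Polynomial.eval_C,
      Polynomial.eval_X, Polynomial.eval_C, h1, Matrix.add_apply, Matrix.smul_apply, smul_eq_mul]

private theorem cyclA_exists {U : Submodule Ω (Fin n → Ω)} {l : ℕ} (hl : finrank Ω U = l) (hl0 : 0 < l)
    {e : Matrix (Fin n) (Fin n) Ω} (hee : e * e = e) (heU : colS e = U) :
    ∃ v ∈ U, ∃ x : Matrix (Fin n) (Fin n) Ω,
      LinearIndependent Ω fun i : Fin l => ((e * x * e) ^ (i : ℕ)) *ᵥ v := by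
  have hfix : ∀ u ∈ U, e *ᵥ u = u := by
    intro u hu
    rw [← heU] at hu
    obtain ⟨w, rfl⟩ := hu
    show e *ᵥ (e *ᵥ w) = e *ᵥ w
    rw [Matrix.mulVec_mulVec, hee]
  let bU : Basis (Fin l) Ω U := finBasisOfFinrankEq Ω U hl
  let g : U →ₗ[Ω] (Fin n → Ω) :=
    bU.constr Ω fun i => if h : (i : ℕ) + 1 < l then (bU ⟨(i : ℕ) + 1, h⟩ : Fin n → Ω) else 0
  obtain ⟨L, hL⟩ := g.exists_extend
  refine ⟨bU ⟨0, hl0⟩, (bU ⟨0, hl0⟩).2, LinearMap.toMatrix' L, ?_⟩
  have hstep : ∀ (i : ℕ) (h : i < l),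
      ((e * LinearMap.toMatrix' L * e) ^ i) *ᵥ (bU ⟨0, hl0⟩ : Fin n → Ω) = bU ⟨i, h⟩ := by
    intro i
    induction i with
    | zero =>
      intro h
      rw [pow_zero, Matrix.one_mulVec]
    | succ i ih =>
      intro h
      have h1 : L (bU ⟨i, by omega⟩ : Fin n → Ω) = bU ⟨i + 1, h⟩ := by
        have h2 := LinearMap.congr_fun hL (bU ⟨i, by omega⟩)
        rw [LinearMap.comp_apply, Submodule.subtype_apply] at h2
        rw [h2, Basis.constr_basis, dif_pos h]
      rw [pow_succ', ← Matrix.mulVec_mulVec, ih (by omega), ← Matrix.mulVec_mulVec,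
        ← Matrix.mulVec_mulVec, hfix _ (bU ⟨i, by omega⟩).2, LinearMap.toMatrix'_mulVec, h1,
        hfix _ (bU ⟨i + 1, h⟩).2]
  have h3 : (fun i : Fin l => ((e * LinearMap.toMatrix' L * e) ^ (i : ℕ)) *ᵥ (bU ⟨0, hl0⟩ : Fin n → Ω)) =
      fun i : Fin l => U.subtype (bU i) := by
    funext i
    exact hstep i i.2
  rw [h3]
  exact bU.linearIndependent.map' U.subtype U.ker_subtype

/-- A rational matrix on `U` with a cyclic vector. -/
theorem exists_cyclic [Infinite k] (hβ : IsForm k β) {K : IntermediateField k Ω}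
    {U : Submodule Ω (Fin n → Ω)} {l : ℕ} (hl : finrank Ω U = l) (hl0 : 0 < l)
    (hU : RatR β K U) :
    ∃ e a : Matrix (Fin n) (Fin n) Ω, RatV β K e ∧ RatV β K a ∧ e * e = e ∧ colS e = U ∧
      e * a = a ∧ a * e = a ∧
      ∃ v ∈ U, LinearIndependent Ω fun i : Fin l => (a ^ (i : ℕ)) *ᵥ v := by
  obtain ⟨e, heK, hee, heU⟩ := exists_idem hβ hU
  obtain ⟨v, hv, hx⟩ := cyclA_exists hl hl0 hee heU
  have hopen : LineOpen Ω fun x : Matrix (Fin n) (Fin n) Ω =>
      LinearIndependent Ω fun i : Fin l => ((e * x * e) ^ (i : ℕ)) *ᵥ v :=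
    lineOpen_linearIndependent (fun x (i : Fin l) => ((e * x * e) ^ (i : ℕ)) *ᵥ v)
      fun x y i j => cyclA_poly e x y v i j
  obtain ⟨x, hxk, hxv⟩ := LineOpen.exists_rat (k := k) β hopen hx
  refine ⟨e, e * x * e, heK, RatV.mul hβ (RatV.mul hβ heK (hxk.mono bot_le)) heK, hee, heU, ?_, ?_, v, hv,
    hxv⟩
  · rw [← Matrix.mul_assoc, ← Matrix.mul_assoc, hee]
  · rw [Matrix.mul_assoc, hee]

end Pool.Agent.H72.SB
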