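import Pool.Agent.H72.SB.CyclA

/-!
# Fields of total degree `l` over which there is a rational line

Proof plan. Let `e, a, v` be as in `exists_cyclic`. The annihilator of `v` in `K[X]`: the `K`-rational matrices are a finite-dimensional `K`-space, so
there is a monic `χ` in `K[X]` of least degree with `χ(a) v = 0` -- more precisely let `χ` in `Ω[X]` be
the monic polynomial of degree `l` with `χ(a) v = 0` (`a ^ l v` is a combination of the `a ^ i v`);
its coefficients are in `K`: use that `e` has rank `l`, the minimal polynomial over `K` of the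
`K`-rational matrix `a` in the algebra of all matrices `e * y * e` has degree `l`: the matrices
`e, a, ..., a ^ (l - 1)` are linearly independent over `Ω`, and `a ^ l` is a combination of them over
`Ω` (Cayley-Hamilton on `U`), hence over `K`, since all are `K`-rational (e.g. by `lamE` and
`exists_retraction`, compare coefficients).

Let `χ = ∏ p j` be the factorization into monic irreducible polynomials over `K` (with repetitions),
`a j` a root of `p j` in `Ω` and `L j = K(a j)`, of degree `deg (p j)` over `K`. The eigenspace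
`U j = U ⊓ ker (a - a j)` is `L j`-rational (`ratR_ker`, `RatR.inf`, `ratR_colS`), and it is a line:
every vector of `U` is `g(a) v` with a unique `g` of degree `< l`, and `(X - a j) g` is a multiple of
`χ` of degree `≤ l` iff `g` is a multiple of `χ / (X - a j)`.
-/

open Module Matrix

namespace Pool.Agent.H72.SB

variable {k Ω : Type*} [Field k] [Field Ω] [Algebra k Ω]
variable {ι : Type*} [Fintype ι] {n : ℕ}
variable {β : Basis ι Ω (Matrix (Fin n) (Fin n) Ω)}

/-- a monic polynomial of degree `l` has roots whose minimal polynomials have total degree `l` -/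
private theorem cyclB_roots {F : Type*} [Field F] [Algebra F Ω] [IsAlgClosed Ω] (l : ℕ) :
    ∀ χ : Polynomial F, χ.Monic → χ.natDegree = l → ∃ (r : ℕ) (α : Fin r → Ω),
      (∀ j, IsIntegral F (α j)) ∧ (∀ j, Polynomial.aeval (α j) χ = 0) ∧
        ∑ j, (minpoly F (α j)).natDegree = l := by
  induction l using Nat.strong_induction_on with
  | _ l ih =>
    intro χ hm hd
    rcases Nat.eq_zero_or_pos l with h0 | h0
    · subst h0
      exact ⟨0, fun j => j.elim0, fun j => j.elim0, fun j => j.elim0, by simp⟩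
    · have hdeg : χ.degree ≠ 0 := by
        rw [Polynomial.degree_eq_natDegree hm.ne_zero, hd]
        intro h
        have : l = 0 := by exact_mod_cast h
        omega
      obtain ⟨x, hx⟩ := IsAlgClosed.exists_aeval_eq_zero Ω χ hdeg
      have hint : IsIntegral F x := ⟨χ, hm, by rwa [← Polynomial.aeval_def]⟩
      obtain ⟨q, hq⟩ := minpoly.dvd F x hx
      have hqm : q.Monic := by
        refine Polynomial.Monic.of_mul_monic_left (minpoly.monic hint) ?_
        rw [← hq]
        exact hm
      have hpos := minpoly.natDegree_pos hint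
      have hsum : (minpoly F x).natDegree + q.natDegree = l := by
        rw [← (minpoly.monic hint).natDegree_mul hqm, ← hq, hd]
      obtain ⟨r, α, h1, h2, h3⟩ := ih q.natDegree (by omega) q hqm rfl
      refine ⟨r + 1, Fin.cons x α, ?_, ?_, ?_⟩
      · intro j
        refine Fin.cases ?_ (fun j => ?_) j
        · exact hint
        · exact h1 j
      · intro j
        refine Fin.cases ?_ (fun j => ?_) j
        · exact hx
        · rw [Fin.cons_succ, hq, map_mul, h2 j, mul_zero]
      · rw [Fin.sum_univ_succ, Fin.cons_zero]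
        simp only [Fin.cons_succ]
        rw [h3, hsum]

section

variable {U : Submodule Ω (Fin n → Ω)} {l : ℕ} {a : Matrix (Fin n) (Fin n) Ω} {v : Fin n → Ω}

/-- the vector `g(a) v` -/
private noncomputable def phi (a : Matrix (Fin n) (Fin n) Ω) (v : Fin n → Ω) (g : Polynomial Ω) :
    Fin n → Ω := (Polynomial.aeval a g) *ᵥ v

private theorem phi_add (g h : Polynomial Ω) : phi a v (g + h) = phi a v g + phi a v h := by
  unfold phi
  rw [map_add, Matrix.add_mulVec]

private theorem phi_sub (g h : Polynomial Ω) : phi a v (g - h) = phi a v g - phi a v h := by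
  unfold phi
  rw [map_sub, Matrix.sub_mulVec]

private theorem phi_C_mul (c : Ω) (g : Polynomial Ω) : phi a v (Polynomial.C c * g) = c • phi a v g := by
  unfold phi
  rw [← Polynomial.smul_eq_C_mul, map_smul, Matrix.smul_mulVec]

private theorem phi_mul (g h : Polynomial Ω) : phi a v (g * h) = (Polynomial.aeval a g) *ᵥ (phi a v h) := by
  unfold phi
  rw [map_mul, Matrix.mulVec_mulVec]

private theorem phi_sum (c : Fin l → Ω) :
    phi a v (∑ i : Fin l, Polynomial.C (c i) * Polynomial.X ^ (i : ℕ)) = ∑ i, c i • ((a ^ (i : ℕ)) *ᵥ v) := by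
  unfold phi
  rw [map_sum, Matrix.sum_mulVec]
  refine Finset.sum_congr rfl fun i _ => ?_
  rw [← Polynomial.smul_eq_C_mul, map_smul, Matrix.smul_mulVec, map_pow, Polynomial.aeval_X]

private theorem cyclB_fin {g : Polynomial Ω} (hg : g.degree < l) :
    g = ∑ i : Fin l, Polynomial.C (g.coeff i) * Polynomial.X ^ (i : ℕ) := by
  ext m
  rw [Polynomial.finsetSum_coeff]
  simp only [Polynomial.coeff_C_mul, Polynomial.coeff_X_pow, mul_ite, mul_one, mul_zero]
  rcases Nat.lt_or_ge m l with h | h
  · rw [Finset.sum_eq_single ⟨m, h⟩]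
    · simp
    · intro b _ hb
      rw [if_neg]
      intro hm
      exact hb (Fin.ext hm.symm)
    · intro h'
      exact absurd (Finset.mem_univ _) h'
  · rw [Polynomial.coeff_eq_zero_of_degree_lt (hg.trans_le (by exact_mod_cast h))]
    symm
    refine Finset.sum_eq_zero fun i _ => ?_
    rw [if_neg]
    have := i.2
    omega

private theorem phi_inj (hv : LinearIndependent Ω fun i : Fin l => (a ^ (i : ℕ)) *ᵥ v) {g : Polynomial Ω}
    (hg : g.degree < l) (h0 : phi a v g = 0) : g = 0 := by
  rw [cyclB_fin hg, phi_sum] at h0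
  have h1 := Fintype.linearIndependent_iff.1 hv _ h0
  rw [cyclB_fin hg]
  refine Finset.sum_eq_zero fun i _ => ?_
  rw [h1 i, Polynomial.C_0, zero_mul]

private theorem pow_mem (haU : ∀ u ∈ U, a *ᵥ u ∈ U) {u : Fin n → Ω} (hu : u ∈ U) (i : ℕ) :
    (a ^ i) *ᵥ u ∈ U := by
  induction i with
  | zero => rwa [pow_zero, Matrix.one_mulVec]
  | succ i ih =>
    rw [pow_succ', ← Matrix.mulVec_mulVec]
    exact haU _ ih

private theorem phi_surj (hl : finrank Ω U = l) (haU : ∀ u ∈ U, a *ᵥ u ∈ U) (hvU : v ∈ U)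
    (hv : LinearIndependent Ω fun i : Fin l => (a ^ (i : ℕ)) *ᵥ v) {u : Fin n → Ω} (hu : u ∈ U) :
    ∃ c : Fin l → Ω, u = ∑ i, c i • ((a ^ (i : ℕ)) *ᵥ v) := by
  let b : Fin l → U := fun i => ⟨(a ^ (i : ℕ)) *ᵥ v, pow_mem haU hvU i⟩
  have hb : LinearIndependent Ω b := LinearIndependent.of_comp U.subtype hv
  have hspan : Submodule.span Ω (Set.range b) = ⊤ :=
    hb.span_eq_top_of_card_eq_finrank' (by rw [Fintype.card_fin, hl])
  have h1 : (⟨u, hu⟩ : U) ∈ Submodule.span Ω (Set.range b) := by
    rw [hspan]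
    trivial
  obtain ⟨c, hc⟩ := (Submodule.mem_span_range_iff_exists_fun Ω).1 h1
  refine ⟨c, ?_⟩
  have h2 := congrArg U.subtype hc
  rw [map_sum] at h2
  simp only [map_smul, Submodule.subtype_apply] at h2
  exact h2.symm

/-- the eigenspaces are lines -/
private theorem cyclB_line (hl : finrank Ω U = l) (hl0 : 0 < l) (haU : ∀ u ∈ U, a *ᵥ u ∈ U) (hvU : v ∈ U)
    (hv : LinearIndependent Ω fun i : Fin l => (a ^ (i : ℕ)) *ᵥ v) {P : Polynomial Ω} (hP : P.Monic)
    (hPl : P.natDegree = l) (hPv : phi a v P = 0) {α : Ω} (hα : P.IsRoot α) :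
    finrank Ω ↥(U ⊓ LinearMap.ker (a - α • (1 : Matrix (Fin n) (Fin n) Ω)).mulVecLin) = 1 := by
  obtain ⟨q, hq⟩ := Polynomial.dvd_iff_isRoot.2 hα
  have hqm : q.Monic := by
    refine Polynomial.Monic.of_mul_monic_left (Polynomial.monic_X_sub_C α) ?_
    rw [← hq]
    exact hP
  have hqd : q.natDegree + 1 = l := by
    rw [← hPl, hq, (Polynomial.monic_X_sub_C α).natDegree_mul hqm, Polynomial.natDegree_X_sub_C]
    ring
  have hqdeg : q.degree < l := by
    rw [Polynomial.degree_eq_natDegree hqm.ne_zero]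
    have : q.natDegree < l := by omega
    exact_mod_cast this
  have hu0 : phi a v q ≠ 0 := fun h => hqm.ne_zero (phi_inj hv hqdeg h)
  have hmulVec : ∀ u, (a - α • (1 : Matrix (Fin n) (Fin n) Ω)) *ᵥ u =
      (Polynomial.aeval a (Polynomial.X - Polynomial.C α)) *ᵥ u := by
    intro u
    rw [map_sub, Polynomial.aeval_X, Polynomial.aeval_C, Algebra.algebraMap_eq_smul_one]
  have hUmem : ∀ g : Polynomial Ω, phi a v g ∈ U := by
    intro g
    unfold phi
    rw [Polynomial.aeval_eq_sum_range, Matrix.sum_mulVec]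
    refine U.sum_mem fun i _ => ?_
    rw [Matrix.smul_mulVec]
    exact U.smul_mem _ (pow_mem haU hvU i)
  have hspan : U ⊓ LinearMap.ker (a - α • (1 : Matrix (Fin n) (Fin n) Ω)).mulVecLin =
      Submodule.span Ω {phi a v q} := by
    refine le_antisymm ?_ ?_
    · rintro u ⟨hu, hker⟩
      obtain ⟨c, hc⟩ := phi_surj hl haU hvU hv hu
      rw [← phi_sum] at hc
      set g : Polynomial Ω := ∑ i : Fin l, Polynomial.C (c i) * Polynomial.X ^ (i : ℕ) with hg
      have hgdeg : g.degree < l := Polynomial.degree_sum_fin_lt c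
      have hk : phi a v ((Polynomial.X - Polynomial.C α) * g) = 0 := by
        rw [phi_mul, ← hmulVec, ← hc]
        exact hker
      have hd : ((Polynomial.X - Polynomial.C α) * g - Polynomial.C (g.coeff (l - 1)) * P).degree <
          (l : WithBot ℕ) := by
        rw [Polynomial.degree_lt_iff_coeff_zero]
        intro m hm
        obtain ⟨m', rfl⟩ : ∃ m', m = m' + 1 := ⟨m - 1, by omega⟩
        have h1 : g.coeff (m' + 1) = 0 :=
          Polynomial.coeff_eq_zero_of_degree_lt (hgdeg.trans_le (by exact_mod_cast hm))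
        rw [Polynomial.coeff_sub, sub_mul, Polynomial.coeff_sub, Polynomial.coeff_X_mul,
          Polynomial.coeff_C_mul, Polynomial.coeff_C_mul, h1, mul_zero, sub_zero]
        rcases Nat.lt_or_ge l (m' + 1) with h | h
        · have h2 : g.coeff m' = 0 := by
            refine Polynomial.coeff_eq_zero_of_degree_lt (hgdeg.trans_le ?_)
            have : l ≤ m' := by omega
            exact_mod_cast this
          have h3 : P.coeff (m' + 1) = 0 := Polynomial.coeff_eq_zero_of_natDegree_lt (by omega)
          rw [h2, h3, mul_zero, sub_zero]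
        · have h4 : m' + 1 = l := by omega
          have h5 : P.coeff (m' + 1) = 1 := by
            rw [h4, ← hPl]
            exact hP
          have h6 : l - 1 = m' := by omega
          rw [h5, h6, mul_one, sub_self]
      have hz := phi_inj hv hd (by rw [phi_sub, hk, phi_C_mul, hPv, smul_zero, sub_zero])
      have h7 : (Polynomial.X - Polynomial.C α) * g =
          (Polynomial.X - Polynomial.C α) * (Polynomial.C (g.coeff (l - 1)) * q) := by
        rw [sub_eq_zero.1 hz, hq]
        ring
      have h8 : g = Polynomial.C (g.coeff (l - 1)) * q :=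
        mul_left_cancel₀ (Polynomial.X_sub_C_ne_zero α) h7
      rw [Submodule.mem_span_singleton]
      refine ⟨g.coeff (l - 1), ?_⟩
      rw [← phi_C_mul, ← h8]
      exact hc.symm
    · rw [Submodule.span_singleton_le_iff_mem]
      refine ⟨hUmem q, ?_⟩
      show (a - α • (1 : Matrix (Fin n) (Fin n) Ω)) *ᵥ phi a v q = 0
      rw [hmulVec, ← phi_mul, ← hq]
      exact hPv
  rw [hspan]
  exact finrank_span_singleton hu0

end

theorem exists_fields [Infinite k] [IsAlgClosed Ω] (hβ : IsForm k β) {K : IntermediateField k Ω}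
    {U : Submodule Ω (Fin n → Ω)} {l : ℕ} (hl : finrank Ω U = l) (hl0 : 0 < l)
    (hU : RatR β K U) :
    ∃ (r : ℕ) (L : Fin r → IntermediateField k Ω) (h : ∀ j, K ≤ L j),
      (∀ j, FiniteDimensional K (IntermediateField.extendScalars (h j))) ∧
      ∑ j, finrank K (IntermediateField.extendScalars (h j)) = l ∧
      ∀ j, ∃ U' : Submodule Ω (Fin n → Ω), finrank Ω U' = 1 ∧ RatR β (L j) U' := by
  obtain ⟨e, a, heK, haK, hee, heU, hea, hae, v, hvU, hv⟩ := exists_cyclic hβ hl hl0 hU
  have hfix : ∀ u ∈ U, e *ᵥ u = u := by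
    intro u hu
    rw [← heU] at hu
    obtain ⟨w, rfl⟩ := hu
    show e *ᵥ (e *ᵥ w) = e *ᵥ w
    rw [Matrix.mulVec_mulVec, hee]
  have haU : ∀ u ∈ U, a *ᵥ u ∈ U := by
    intro u _
    rw [← hea, ← Matrix.mulVec_mulVec, ← heU]
    exact ⟨a *ᵥ u, rfl⟩
  obtain ⟨c, hc⟩ := phi_surj hl haU hvU hv (pow_mem haU hvU l)
  -- the relation on `U`
  have hrel : ∀ u ∈ U, (a ^ l) *ᵥ u = ∑ i : Fin l, c i • ((a ^ (i : ℕ)) *ᵥ u) := by
    intro u hu
    obtain ⟨d, hd⟩ := phi_surj hl haU hvU hv hu
    have hcomm : ∀ i j : ℕ, (a ^ i) *ᵥ ((a ^ j) *ᵥ v) = (a ^ j) *ᵥ ((a ^ i) *ᵥ v) := by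
      intro i j
      rw [Matrix.mulVec_mulVec, Matrix.mulVec_mulVec, ← pow_add, ← pow_add, add_comm]
    rw [hd, Matrix.mulVec_sum]
    calc ∑ j, (a ^ l) *ᵥ (d j • ((a ^ (j : ℕ)) *ᵥ v))
        = ∑ j, ∑ i, (d j * c i) • ((a ^ (j : ℕ)) *ᵥ ((a ^ (i : ℕ)) *ᵥ v)) := by
          refine Finset.sum_congr rfl fun j _ => ?_
          rw [Matrix.mulVec_smul, hcomm, hc, Matrix.mulVec_sum, Finset.smul_sum]
          refine Finset.sum_congr rfl fun i _ => ?_
          rw [Matrix.mulVec_smul, smul_smul]
      _ = ∑ i, ∑ j, (d j * c i) • ((a ^ (j : ℕ)) *ᵥ ((a ^ (i : ℕ)) *ᵥ v)) := Finset.sum_comm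
      _ = _ := by
          refine Finset.sum_congr rfl fun i _ => ?_
          rw [Matrix.mulVec_sum, Finset.smul_sum]
          refine Finset.sum_congr rfl fun j _ => ?_
          rw [Matrix.mulVec_smul, smul_smul, hcomm, mul_comm (d j)]
  have hpow : ∀ i : ℕ, RatV β K (a ^ i * e) := by
    intro i
    induction i with
    | zero => rwa [pow_zero, one_mul]
    | succ i ih =>
      rw [pow_succ', Matrix.mul_assoc]
      exact RatV.mul hβ haK ih
  have hmat : a ^ l * e = ∑ i : Fin l, c i • (a ^ (i : ℕ) * e) := by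
    have h1 : ∀ w, (a ^ l * e) *ᵥ w = (∑ i : Fin l, c i • (a ^ (i : ℕ) * e)) *ᵥ w := by
      intro w
      have hw : e *ᵥ w ∈ U := by
        rw [← heU]
        exact ⟨w, rfl⟩
      rw [← Matrix.mulVec_mulVec, hrel _ hw, Matrix.sum_mulVec]
      refine Finset.sum_congr rfl fun i _ => ?_
      rw [Matrix.smul_mulVec, Matrix.mulVec_mulVec]
    exact Matrix.toLin'.injective (LinearMap.ext fun w => by
      rw [Matrix.toLin'_apply, Matrix.toLin'_apply, h1 w])
  obtain ⟨lam, hlam⟩ := exists_retraction K
  have hcK : ∀ i, c i = (lam (c i) : Ω) := by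
    have h1 := lamE_eq (β := β) hlam (hpow l)
    rw [hmat, lamE_sum] at h1
    have h2 : ∑ i : Fin l, (c i - (lam (c i) : Ω)) • ((a ^ (i : ℕ)) *ᵥ v) = 0 := by
      have h3 := congrArg (fun X : Matrix (Fin n) (Fin n) Ω => X *ᵥ v) h1
      simp only [Matrix.sum_mulVec] at h3
      have h4 : ∀ i : Fin l, (c i • (a ^ (i : ℕ) * e)) *ᵥ v = c i • ((a ^ (i : ℕ)) *ᵥ v) := by
        intro i
        rw [Matrix.smul_mulVec, ← Matrix.mulVec_mulVec, hfix v hvU]
      have h5 : ∀ i : Fin l, (lamE β lam (c i • (a ^ (i : ℕ) * e))) *ᵥ v =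
          (lam (c i) : Ω) • ((a ^ (i : ℕ)) *ᵥ v) := by
        intro i
        rw [lamE_smul lam (c i) (hpow i), Matrix.smul_mulVec, ← Matrix.mulVec_mulVec, hfix v hvU]
      simp only [h4, h5] at h3
      simp only [sub_smul, Finset.sum_sub_distrib, h3, sub_self]
    intro i
    exact sub_eq_zero.1 (Fintype.linearIndependent_iff.1 hv _ h2 i)
  -- the polynomial over `K`
  set R : Polynomial K := ∑ i : Fin l, Polynomial.C (lam (c i)) * Polynomial.X ^ (i : ℕ) with hR
  have hRdeg : R.degree < l := Polynomial.degree_sum_fin_lt fun i => lam (c i)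
  set χ : Polynomial K := Polynomial.X ^ l - R with hχ
  have hRdeg' : R.degree < (Polynomial.X ^ l : Polynomial K).degree := by
    rw [Polynomial.degree_X_pow]
    exact hRdeg
  have hχm : χ.Monic := (Polynomial.monic_X_pow l).sub_of_left hRdeg'
  have hχd : χ.natDegree = l := by
    rw [hχ, Polynomial.natDegree_eq_of_degree_eq (Polynomial.degree_sub_eq_left_of_degree_lt hRdeg'),
      Polynomial.natDegree_X_pow]
  set P : Polynomial Ω := χ.map (algebraMap K Ω) with hP
  have hPm : P.Monic := hχm.map _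
  have hPd : P.natDegree = l := by
    rw [hP, hχm.natDegree_map, hχd]
  have hPv : phi a v P = 0 := by
    have h1 : P = Polynomial.X ^ l - ∑ i : Fin l, Polynomial.C (c i) * Polynomial.X ^ (i : ℕ) := by
      rw [hP, hχ, Polynomial.map_sub, Polynomial.map_pow, Polynomial.map_X, hR, Polynomial.map_sum]
      congr 1
      refine Finset.sum_congr rfl fun i _ => ?_
      rw [Polynomial.map_mul, Polynomial.map_C, Polynomial.map_pow, Polynomial.map_X]
      congr 2
      exact (hcK i).symm
    rw [h1, phi_sub, phi_sum, ← hc]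
    unfold phi
    rw [map_pow, Polynomial.aeval_X, sub_self]
  obtain ⟨r, α, hint, hroot, hsum⟩ := cyclB_roots (F := K) (Ω := Ω) l χ hχm hχd
  have hle : ∀ j, K ≤ (IntermediateField.adjoin K {α j}).restrictScalars k := by
    intro j x hx
    exact (IntermediateField.adjoin K {α j}).algebraMap_mem ⟨x, hx⟩
  have hext : ∀ j, IntermediateField.extendScalars (hle j) = IntermediateField.adjoin K {α j} :=
    fun j => IntermediateField.ext fun x => Iff.rfl
  refine ⟨r, fun j => (IntermediateField.adjoin K {α j}).restrictScalars k, hle, fun j => ?_, ?_, fun j => ?_⟩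
  · rw [hext j]
    exact IntermediateField.adjoin.finiteDimensional (hint j)
  · rw [← hsum]
    refine Finset.sum_congr rfl fun j _ => ?_
    rw [hext j, IntermediateField.adjoin.finrank (hint j)]
  · have hαL : α j ∈ (IntermediateField.adjoin K {α j}).restrictScalars k :=
      IntermediateField.mem_adjoin_simple_self K (α j)
    have hrt : P.IsRoot (α j) := by
      rw [Polynomial.IsRoot.def, hP, Polynomial.eval_map_algebraMap]
      exact hroot j
    refine ⟨U ⊓ LinearMap.ker (a - α j • (1 : Matrix (Fin n) (Fin n) Ω)).mulVecLin,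
      cyclB_line hl hl0 haU hvU hv hPm hPd hPv hrt, ?_⟩
    refine RatR.inf (hU.mono (hle j)) (ratR_ker hβ ?_)
    exact RatV.sub (haK.mono (hle j)) (RatV.smul hαL (hβ.ratV_one _))

end Pool.Agent.H72.SB
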