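import Mathlib

/-!
# Rational points of subspaces, right ideals of matrix algebras

`Ω / k` is a field extension, `E` an `Ω`-space with a basis `β`; the `k`-span of `β` is a `k`-form of
`E`. For an intermediate field `K` a vector is `K`-rational if its coordinates are in `K`, and a
subspace is `K`-rational if it is spanned by `K`-rational vectors. For `E = Mₙ(Ω)` and a basis `β`
whose `k`-span is a `k`-algebra (`IsForm β`) a subspace `U` of `Ωⁿ` is `K`-rational (`RatR β K U`) if
the right ideal of all matrices with image in `U` is `K`-rational.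
-/

open Module Matrix

namespace Pool.Agent.H72.SB

section

variable {k Ω : Type*} [Field k] [Field Ω] [Algebra k Ω]
variable {E ι : Type*} [AddCommGroup E] [Module Ω E]

/-- The coordinates of `x` are in `K`. -/
def RatV (β : Basis ι Ω E) (K : IntermediateField k Ω) (x : E) : Prop := ∀ i, β.repr x i ∈ K

/-- The subspace `S` is spanned by vectors with coordinates in `K`. -/
def RatS (β : Basis ι Ω E) (K : IntermediateField k Ω) (S : Submodule Ω E) : Prop :=
  S ≤ Submodule.span Ω {x | x ∈ S ∧ RatV β K x}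

/-- A property of vectors which on every line through a good vector holds outside a finite set. -/
def LineOpen (Ω : Type*) {E : Type*} [Field Ω] [AddCommGroup E] [Module Ω E] (P : E → Prop) : Prop :=
  ∀ x y, P x → {t : Ω | ¬ P (x + t • y)}.Finite

end

section

variable {k Ω : Type*} [Field k] [Field Ω] [Algebra k Ω]
variable {ι : Type*} {n : ℕ}

/-- The `k`-span of `β` is a `k`-algebra. -/
structure IsForm (k : Type*) {Ω ι : Type*} {n : ℕ} [Field k] [Field Ω] [Algebra k Ω]
    (β : Basis ι Ω (Matrix (Fin n) (Fin n) Ω)) : Prop where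
  one : RatV β (⊥ : IntermediateField k Ω) 1
  mul : ∀ i j, RatV β (⊥ : IntermediateField k Ω) (β i * β j)

/-- The transposed basis. -/
noncomputable def tr (β : Basis ι Ω (Matrix (Fin n) (Fin n) Ω)) :
    Basis ι Ω (Matrix (Fin n) (Fin n) Ω) :=
  β.map (Matrix.transposeLinearEquiv (Fin n) (Fin n) Ω Ω)

/-- The column space of a matrix. -/
noncomputable def colS (X : Matrix (Fin n) (Fin n) Ω) : Submodule Ω (Fin n → Ω) :=
  LinearMap.range X.mulVecLin

/-- The right ideal of all matrices with column space in `U`. -/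
def RI (U : Submodule Ω (Fin n → Ω)) : Submodule Ω (Matrix (Fin n) (Fin n) Ω) where
  carrier := {X | ∀ v, X *ᵥ v ∈ U}
  add_mem' := fun {X Y} hX hY v => by
    rw [Matrix.add_mulVec]; exact U.add_mem (hX v) (hY v)
  zero_mem' := fun v => by rw [Matrix.zero_mulVec]; exact U.zero_mem
  smul_mem' := fun c X hX v => by
    rw [Matrix.smul_mulVec]; exact U.smul_mem c (hX v)

/-- The right ideal of `U` is defined over `K`. -/
def RatR (β : Basis ι Ω (Matrix (Fin n) (Fin n) Ω)) (K : IntermediateField k Ω)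
    (U : Submodule Ω (Fin n → Ω)) : Prop := RatS β K (RI U)

/-- The orthogonal space. -/
def perp (U : Submodule Ω (Fin n → Ω)) : Submodule Ω (Fin n → Ω) where
  carrier := {y | ∀ x ∈ U, y ⬝ᵥ x = 0}
  add_mem' := fun {a b} ha hb x hx => by rw [add_dotProduct, ha x hx, hb x hx, add_zero]
  zero_mem' := fun x _ => zero_dotProduct x
  smul_mem' := fun c a ha x hx => by rw [smul_dotProduct, ha x hx, smul_zero]

/-- The vectors `x` in `U` with `y ⬝ φ j x = 0` for all `j` and all `y` in `N`. -/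
def cut (U N : Submodule Ω (Fin n → Ω)) {q : ℕ} (φ : Fin q → Matrix (Fin n) (Fin n) Ω) :
    Submodule Ω (Fin n → Ω) where
  carrier := {x | x ∈ U ∧ ∀ j, ∀ y ∈ N, y ⬝ᵥ (φ j *ᵥ x) = 0}
  add_mem' := fun {a b} ha hb => ⟨U.add_mem ha.1 hb.1, fun j y hy => by
    rw [Matrix.mulVec_add, dotProduct_add, ha.2 j y hy, hb.2 j y hy, add_zero]⟩
  zero_mem' := ⟨U.zero_mem, fun j y _ => by rw [Matrix.mulVec_zero, dotProduct_zero]⟩
  smul_mem' := fun c a ha => ⟨U.smul_mem c ha.1, fun j y hy => by
    rw [Matrix.mulVec_smul, dotProduct_smul, ha.2 j y hy, smul_zero]⟩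

/-- The configurations of the Euclidean algorithm: `ψ j` maps `U` into the space orthogonal to `N`,
the spaces `ψ j U` are independent, and so are the spaces `(ψ j)ᵀ N`. -/
structure State (k : Type*) {Ω ι : Type*} {n : ℕ} [Field k] [Field Ω] [Algebra k Ω]
    (β : Basis ι Ω (Matrix (Fin n) (Fin n) Ω)) (U N : Submodule Ω (Fin n → Ω)) {c : ℕ}
    (ψ : Fin c → Matrix (Fin n) (Fin n) Ω) : Prop where
  rat : ∀ j, RatV β (⊥ : IntermediateField k Ω) (ψ j)
  orth : ∀ j, ∀ y ∈ N, ∀ x ∈ U, y ⬝ᵥ (ψ j *ᵥ x) = 0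
  ds : ∀ x : Fin c → (Fin n → Ω), (∀ j, x j ∈ U) → ∑ j, ψ j *ᵥ x j = 0 → ∀ j, x j = 0
  dk : ∀ y : Fin c → (Fin n → Ω), (∀ j, y j ∈ N) → ∑ j, (ψ j)ᵀ *ᵥ y j = 0 → ∀ j, y j = 0

end

end Pool.Agent.H72.SB
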