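import Pool.Agent.H72.SB.StepEx
import Pool.Agent.H72.SB.Dens

/-!
# One step of the Euclidean algorithm

Notation: `u = finrank U`, `h = finrank N`, `H = perp N` of dimension `n - h`. From `ds` and `dk`:
`U ≤ cut ⊤ N ψ`, so `u + c * h ≤ n` (`finrank_cut_top`).

`step`: the conditions (a) and (b) for `φ` in the space `Fin q → Mₙ(Ω)` are of the form a linear map
which depends affinely on `φ` is injective: (a) is the injectivity of `(Fin q → N) → Dual U`, (b) is
the injectivity of `(Fin (c + q) → U) → Ωⁿ × (Fin (c + q) → Fin q → Dual N)`,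
`x ↦ (∑ j, Fin.append ψ φ j *ᵥ x j, fun i j y => y ⬝ φ j (x i))`. So `lineOpen_injective`,
`LineOpen.and`, `LineOpen.exists_rat` (with the basis `Pi.basis fun _ => β`) and `step_example` give
`k`-rational `φ j` with (a) and (b). (a) gives `finrank (cut U N φ) = u - q * h = u'` and, together
with `orth` and `dk` for `ψ`, the property `dk` for `Fin.append ψ φ`; (b) is `ds`.
-/

open Module Matrix

namespace Pool.Agent.H72.SB

variable {k Ω : Type*} [Field k] [Field Ω] [Algebra k Ω]
variable {ι : Type*} [Fintype ι] {n : ℕ}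
variable {β : Basis ι Ω (Matrix (Fin n) (Fin n) Ω)}
variable {U N : Submodule Ω (Fin n → Ω)} {c q u' : ℕ}
variable {ψ : Fin c → Matrix (Fin n) (Fin n) Ω}

/-- The map of condition (a). -/
private noncomputable def mapA (U N : Submodule Ω (Fin n → Ω))
    (φ : Fin q → Matrix (Fin n) (Fin n) Ω) : (Fin q → N) →ₗ[Ω] Dual Ω U where
  toFun y :=
    { toFun := fun x => ∑ j, (y j : Fin n → Ω) ⬝ᵥ (φ j *ᵥ (x : Fin n → Ω))
      map_add' := fun a b => by
        simp only [Submodule.coe_add, Matrix.mulVec_add, dotProduct_add, Finset.sum_add_distrib]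
      map_smul' := fun s a => by
        simp only [Submodule.coe_smul, Matrix.mulVec_smul, dotProduct_smul, Finset.smul_sum,
          RingHom.id_apply] }
  map_add' a b := by
    ext x
    simp only [Pi.add_apply, Submodule.coe_add, add_dotProduct, Finset.sum_add_distrib,
      LinearMap.coe_mk, AddHom.coe_mk, LinearMap.add_apply]
  map_smul' s a := by
    ext x
    simp only [Pi.smul_apply, Submodule.coe_smul, smul_dotProduct, Finset.smul_sum,
      LinearMap.coe_mk, AddHom.coe_mk, LinearMap.smul_apply, RingHom.id_apply]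

private theorem mapA_apply (φ : Fin q → Matrix (Fin n) (Fin n) Ω) (y : Fin q → N) (x : U) :
    mapA U N φ y x = ∑ j, (y j : Fin n → Ω) ⬝ᵥ (φ j *ᵥ (x : Fin n → Ω)) := rfl

/-- The map of condition (b). -/
private noncomputable def mapB (U N : Submodule Ω (Fin n → Ω)) {m : ℕ}
    (A : Fin m → Matrix (Fin n) (Fin n) Ω) (φ : Fin q → Matrix (Fin n) (Fin n) Ω) :
    (Fin m → U) →ₗ[Ω] (Fin n → Ω) × (Fin m → Fin q → N → Ω) where
  toFun x := (∑ j, A j *ᵥ (x j : Fin n → Ω),
    fun i j y => (y : Fin n → Ω) ⬝ᵥ (φ j *ᵥ (x i : Fin n → Ω)))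
  map_add' a b := by
    refine Prod.ext ?_ ?_
    · simp only [Pi.add_apply, Submodule.coe_add, Matrix.mulVec_add, Finset.sum_add_distrib,
        Prod.mk_add_mk]
    · funext i j y
      simp only [Pi.add_apply, Submodule.coe_add, Matrix.mulVec_add, dotProduct_add,
        Prod.mk_add_mk]
  map_smul' s a := by
    refine Prod.ext ?_ ?_
    · simp only [Pi.smul_apply, Submodule.coe_smul, Matrix.mulVec_smul, Finset.smul_sum,
        Prod.smul_mk, RingHom.id_apply]
    · funext i j y
      simp only [Pi.smul_apply, Submodule.coe_smul, Matrix.mulVec_smul, dotProduct_smul,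
        Prod.smul_mk, RingHom.id_apply]

private theorem mapB_apply {m : ℕ} (A : Fin m → Matrix (Fin n) (Fin n) Ω)
    (φ : Fin q → Matrix (Fin n) (Fin n) Ω) (x : Fin m → U) :
    mapB U N A φ x = (∑ j, A j *ᵥ (x j : Fin n → Ω),
      fun i j (y : N) => (y : Fin n → Ω) ⬝ᵥ (φ j *ᵥ (x i : Fin n → Ω))) := rfl

private theorem append_add_smul (φ φ' : Fin q → Matrix (Fin n) (Fin n) Ω) (t : Ω)
    (j : Fin (c + q)) :
    Fin.append ψ (φ + t • φ') j = Fin.append ψ φ j + t • Fin.append 0 φ' j := by
  refine Fin.addCases (fun i => ?_) (fun i => ?_) j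
  · simp only [Fin.append_left, Pi.zero_apply, smul_zero, add_zero]
  · simp only [Fin.append_right, Pi.add_apply, Pi.smul_apply]

private theorem lineOpen_A (U N : Submodule Ω (Fin n → Ω)) (q : ℕ) :
    LineOpen Ω fun φ : Fin q → Matrix (Fin n) (Fin n) Ω => Function.Injective (mapA U N φ) := by
  refine lineOpen_injective (fun φ => mapA U N φ) fun φ φ' => ⟨mapA U N φ', fun t => ?_⟩
  ext y x
  simp only [LinearMap.add_apply, LinearMap.smul_apply, mapA_apply, Pi.add_apply, Pi.smul_apply,
    Matrix.add_mulVec, Matrix.smul_mulVec, dotProduct_add, dotProduct_smul,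
    Finset.sum_add_distrib, Finset.smul_sum, LinearMap.coe_comp, Function.comp_apply]

private theorem lineOpen_B (U N : Submodule Ω (Fin n → Ω)) (q : ℕ)
    (ψ : Fin c → Matrix (Fin n) (Fin n) Ω) :
    LineOpen Ω fun φ : Fin q → Matrix (Fin n) (Fin n) Ω =>
      Function.Injective (mapB U N (Fin.append ψ φ) φ) := by
  refine lineOpen_injective (fun φ => mapB U N (Fin.append ψ φ) φ)
    fun φ φ' => ⟨mapB U N (Fin.append 0 φ') φ', fun t => ?_⟩
  refine LinearMap.ext fun x => ?_
  rw [LinearMap.add_apply, LinearMap.smul_apply, mapB_apply, mapB_apply, mapB_apply]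
  refine Prod.ext ?_ ?_
  · simp only [append_add_smul, Matrix.add_mulVec, Matrix.smul_mulVec, Finset.sum_add_distrib,
      Finset.smul_sum, Prod.mk_add_mk, Prod.smul_mk]
  · funext i j y
    simp only [Pi.add_apply, Pi.smul_apply, Matrix.add_mulVec, Matrix.smul_mulVec,
      dotProduct_add, dotProduct_smul, Prod.mk_add_mk, Prod.smul_mk]

private theorem inj_A_iff (φ : Fin q → Matrix (Fin n) (Fin n) Ω) :
    Function.Injective (mapA U N φ) ↔
      ∀ y : Fin q → (Fin n → Ω), (∀ j, y j ∈ N) →
        (∀ x ∈ U, ∑ j, y j ⬝ᵥ (φ j *ᵥ x) = 0) → ∀ j, y j = 0 := by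
  rw [injective_iff_map_eq_zero]
  constructor
  · intro h y hy hx j
    have := h (fun j => ⟨y j, hy j⟩) (LinearMap.ext fun x => by
      rw [mapA_apply]; exact hx x x.2)
    exact congrArg Subtype.val (congrFun this j)
  · intro h y hy
    funext j
    apply Subtype.ext
    refine h (fun j => (y j : Fin n → Ω)) (fun j => (y j).2) (fun x hx => ?_) j
    have := LinearMap.congr_fun hy ⟨x, hx⟩
    rw [mapA_apply] at this
    exact this

private theorem inj_B_iff {m : ℕ} (A : Fin m → Matrix (Fin n) (Fin n) Ω)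
    (φ : Fin q → Matrix (Fin n) (Fin n) Ω) :
    Function.Injective (mapB U N A φ) ↔
      ∀ x : Fin m → (Fin n → Ω), (∀ j, x j ∈ cut U N φ) →
        ∑ j, A j *ᵥ x j = 0 → ∀ j, x j = 0 := by
  rw [injective_iff_map_eq_zero]
  constructor
  · intro h x hx hs j
    have := h (fun j => ⟨x j, (hx j).1⟩) (by
      rw [mapB_apply]
      refine Prod.ext hs ?_
      funext i j y
      exact (hx i).2 j y y.2)
    exact congrArg Subtype.val (congrFun this j)
  · intro h x hx
    rw [mapB_apply] at hx
    have h1 := congrArg Prod.fst hx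
    have h2 := congrArg Prod.snd hx
    funext j
    apply Subtype.ext
    refine h (fun j => (x j : Fin n → Ω)) (fun i => ⟨(x i).2, fun j y hy => ?_⟩) h1 j
    exact congrFun (congrFun (congrFun h2 i) j) ⟨y, hy⟩

private theorem finrank_cut_of_inj (φ : Fin q → Matrix (Fin n) (Fin n) Ω)
    (h : Function.Injective (mapA U N φ)) :
    finrank Ω (cut U N φ) + q * finrank Ω N = finrank Ω U := by
  have h1 : finrank Ω (LinearMap.range (mapA U N φ)) = q * finrank Ω N := by
    rw [LinearMap.finrank_range_of_inj h, Module.finrank_pi_fintype]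
    simp
  have h2 : (LinearMap.range (mapA U N φ)).dualCoannihilator.map U.subtype = cut U N φ := by
    ext x
    constructor
    · rintro ⟨x, hx, rfl⟩
      refine ⟨x.2, fun j y hy => ?_⟩
      have := (Submodule.mem_dualCoannihilator x).1 hx (mapA U N φ (Pi.single j ⟨y, hy⟩))
        (LinearMap.mem_range_self _ _)
      rw [mapA_apply, Finset.sum_eq_single j] at this
      · simpa using this
      · intro i _ hij
        rw [Pi.single_eq_of_ne hij]
        simp
      · intro hj
        exact absurd (Finset.mem_univ _) hj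
    · rintro ⟨hxU, hx⟩
      refine ⟨⟨x, hxU⟩, (Submodule.mem_dualCoannihilator _).2 ?_, rfl⟩
      rintro _ ⟨y, rfl⟩
      rw [mapA_apply]
      exact Finset.sum_eq_zero fun j _ => hx j _ (y j).2
  have h3 := Subspace.finrank_add_finrank_dualCoannihilator_eq (LinearMap.range (mapA U N φ))
  rw [← h2, Submodule.finrank_map_subtype_eq]
  omega

theorem step [Infinite k] (hβ : IsForm k β) (hst : State k β U N ψ) (hc : 1 ≤ c)
    (hu : finrank Ω U = q * finrank Ω N + u') (hu' : u' ≤ finrank Ω N) :
    ∃ φ : Fin q → Matrix (Fin n) (Fin n) Ω, finrank Ω (cut U N φ) = u' ∧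
      State k β (cut U N φ) N (Fin.append ψ φ) := by
  have hn : finrank Ω U + c * finrank Ω N ≤ n := by
    have h1 := finrank_cut_top hst.dk
    have h2 : U ≤ cut ⊤ N ψ := fun x hx => ⟨trivial, fun j y hy => hst.orth j y hy x hx⟩
    have h3 := Submodule.finrank_mono h2
    omega
  obtain ⟨φ₀, ha₀, hb₀⟩ := step_example hst.orth hst.ds hn hc hu hu'
  obtain ⟨φ, hrat, ha, hb⟩ := ((lineOpen_A U N q).and (lineOpen_B U N q ψ)).exists_rat
    (k := k) (Pi.basis fun _ => β) ⟨φ₀, (inj_A_iff φ₀).2 ha₀, (inj_B_iff _ φ₀).2 hb₀⟩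
  have hcut := finrank_cut_of_inj φ ha
  rw [inj_A_iff] at ha
  rw [inj_B_iff] at hb
  refine ⟨φ, by omega, ?_, ?_, hb, ?_⟩
  · intro j
    refine Fin.addCases (fun i => ?_) (fun i => ?_) j
    · rw [Fin.append_left]
      exact hst.rat i
    · rw [Fin.append_right]
      intro a
      have := hrat ⟨i, a⟩
      rwa [Pi.basis_repr] at this
  · intro j y hy x hx
    revert j
    refine Fin.addCases (fun i => ?_) (fun i => ?_)
    · rw [Fin.append_left]
      exact hst.orth i y hy x hx.1
    · rw [Fin.append_right]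
      exact hx.2 i y hy
  · intro y hy hs
    rw [Fin.sum_univ_add] at hs
    simp only [Fin.append_left, Fin.append_right] at hs
    have h2 : ∀ j, y (Fin.natAdd c j) = 0 := by
      refine ha (fun j => y (Fin.natAdd c j)) (fun j => hy _) fun x hx => ?_
      have h3 := congrArg (fun v => v ⬝ᵥ x) hs
      simp only [add_dotProduct, zero_dotProduct, sum_dotProduct] at h3
      have h4 : ∀ (M : Matrix (Fin n) (Fin n) Ω) (v : Fin n → Ω),
          (Mᵀ *ᵥ v) ⬝ᵥ x = v ⬝ᵥ (M *ᵥ x) := by
        intro M v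
        rw [Matrix.mulVec_transpose, Matrix.dotProduct_mulVec]
      simp only [h4] at h3
      rw [Finset.sum_eq_zero (fun i _ => hst.orth i _ (hy _) x hx), zero_add] at h3
      exact h3
    have h1 : ∀ i, y (Fin.castAdd q i) = 0 := by
      refine hst.dk (fun i => y (Fin.castAdd q i)) (fun i => hy _) ?_
      rw [Finset.sum_eq_zero (s := Finset.univ) (f := fun i : Fin q => (φ i)ᵀ *ᵥ y (Fin.natAdd c i))
        (fun i _ => by rw [h2 i, Matrix.mulVec_zero]), add_zero] at hs
      exact hs
    intro j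
    exact Fin.addCases h1 h2 j

end Pool.Agent.H72.SB
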