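import Pool.Agent.H72.SB.Param
import Pool.Agent.H72.SB.Step

/-!
# The Euclidean algorithm
-/

open Module Matrix

namespace Pool.Agent.H72.SB

variable {k Ω : Type*} [Field k] [Field Ω] [Algebra k Ω]
variable {ι : Type*} [Fintype ι] {n : ℕ}

theorem State.le_cut {β : Basis ι Ω (Matrix (Fin n) (Fin n) Ω)} {U N : Submodule Ω (Fin n → Ω)}
    {c : ℕ} {ψ : Fin c → Matrix (Fin n) (Fin n) Ω} (h : State k β U N ψ) : U ≤ cut ⊤ N ψ :=
  fun x hx => ⟨trivial, fun j y hy => h.orth j y hy x hx⟩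

theorem cut_le {U N : Submodule Ω (Fin n → Ω)} {q : ℕ}
    {φ : Fin q → Matrix (Fin n) (Fin n) Ω} : cut U N φ ≤ U := fun _ hx => hx.1

/-- One step for the fields of definition. -/
theorem euclid_step [Infinite k] {β : Basis ι Ω (Matrix (Fin n) (Fin n) Ω)} (hβ : IsForm k β)
    {U N : Submodule Ω (Fin n → Ω)} {c q l M : ℕ} {ψ : Fin c → Matrix (Fin n) (Fin n) Ω}
    {φ : Fin q → Matrix (Fin n) (Fin n) Ω} (hst : State k β U N ψ)
    (hφ : ∀ j, RatV β (⊥ : IntermediateField k Ω) (φ j)) (hl : 0 < l)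
    (hlU : l ∣ finrank Ω U) (hlN : l ∣ finrank Ω N) (hln : l ∣ n)
    {e : Matrix (Fin n) (Fin n) Ω} (hle : finrank Ω (colS e) = l)
    {P : IntermediateField k Ω → Prop} {t : Fin M → Ω}
    (he : ∀ K, P K → (∀ i, t i ∈ K) → RatV β K e)
    (hP : ∀ K : IntermediateField k Ω, (RatR β K (cut U N φ) ∧ RatR (tr β) K N) ↔
      (P K ∧ ∀ i, t i ∈ K)) :
    ∃ s : Fin ((finrank Ω U - finrank Ω (cut U N φ)) * (n - c * finrank Ω N - finrank Ω U)) → Ω,
      ∀ K : IntermediateField k Ω, (RatR β K U ∧ RatR (tr β) K N) ↔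
        (P K ∧ (∀ i, t i ∈ K) ∧ ∀ i, s i ∈ K) := by
  obtain ⟨K₁, hK₁⟩ := exists_fodR k β (cut U N φ)
  obtain ⟨K₂, hK₂⟩ := exists_fodR k (tr β) N
  have hfin : FiniteDimensional Ω (Fin n → Ω) := inferInstance
  have h1 : RatR β (K₁ ⊔ K₂) (cut U N φ) := (hK₁ _).2 le_sup_left
  have h2 : RatR (tr β) (K₁ ⊔ K₂) N := (hK₂ _).2 le_sup_right
  have h3 : RatR β (K₁ ⊔ K₂) (cut ⊤ N ψ) :=
    ratR_cut hβ ratR_top h2 fun j => (hst.rat j).mono bot_le
  have h4 := (hP (K₁ ⊔ K₂)).1 ⟨h1, h2⟩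
  have h5 : finrank Ω (cut ⊤ N ψ) + c * finrank Ω N = n := finrank_cut_top hst.dk
  have h6 : finrank Ω (cut ⊤ N ψ) = n - c * finrank Ω N := by omega
  have h7 : finrank Ω U ≤ finrank Ω (cut ⊤ N ψ) := Submodule.finrank_mono hst.le_cut
  have h11 := param (K := K₁ ⊔ K₂) hβ (cut_le (U := U) (N := N) (φ := φ)) hst.le_cut h1 h3
    (he _ h4.1 h4.2) (by rw [hle]; exact hl) (by
      rw [hle, h6]
      exact Nat.dvd_sub (Nat.dvd_sub hln (hlN.mul_left c)) hlU)
  rw [h6] at h11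
  obtain ⟨s, hs⟩ := h11
  refine ⟨s, fun K => ?_⟩
  constructor
  · rintro ⟨hU, hN⟩
    have h8 : RatR β K (cut U N φ) := ratR_cut hβ hU hN fun j => (hφ j).mono bot_le
    have h9 := (hP K).1 ⟨h8, hN⟩
    have h10 : K₁ ⊔ K₂ ≤ K := sup_le ((hK₁ K).1 h8) ((hK₂ K).1 hN)
    exact ⟨h9.1, h9.2, (hs K h10).1 hU⟩
  · rintro ⟨hPK, htK, hsK⟩
    have h8 := (hP K).2 ⟨hPK, htK⟩
    have h10 : K₁ ⊔ K₂ ≤ K := sup_le ((hK₁ K).1 h8.1) ((hK₂ K).1 h8.2)
    exact ⟨(hs K h10).2 hsK, h8.2⟩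

theorem State.of_tr_tr {β : Basis ι Ω (Matrix (Fin n) (Fin n) Ω)} {U N : Submodule Ω (Fin n → Ω)}
    {c : ℕ} {ψ : Fin c → Matrix (Fin n) (Fin n) Ω} (h : State k (tr (tr β)) U N ψ) :
    State k β U N ψ :=
  ⟨fun j => ratV_tr_tr.1 (h.rat j), h.orth, h.ds, h.dk⟩

theorem State.finrank_le {β : Basis ι Ω (Matrix (Fin n) (Fin n) Ω)}
    {U N : Submodule Ω (Fin n → Ω)} {c : ℕ} {ψ : Fin c → Matrix (Fin n) (Fin n) Ω}
    (h : State k β U N ψ) : finrank Ω U + c * finrank Ω N ≤ n := by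
  have h5 : finrank Ω (cut ⊤ N ψ) + c * finrank Ω N = n := finrank_cut_top h.dk
  have h7 : finrank Ω U ≤ finrank Ω (cut ⊤ N ψ) := Submodule.finrank_mono h.le_cut
  omega

theorem finrank_colS_transpose (e : Matrix (Fin n) (Fin n) Ω) :
    finrank Ω (colS eᵀ) = finrank Ω (colS e) := Matrix.rank_transpose e

theorem exists_quot {u h : ℕ} (hh : 0 < h) (huh : h < u) :
    ∃ q u', u = q * h + u' ∧ u' ≤ h ∧ 0 < u' ∧ u' < u := by
  refine ⟨(u - 1) / h, (u - 1) % h + 1, ?_, ?_, Nat.succ_pos _, ?_⟩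
  · have h1 := Nat.div_add_mod' (u - 1) h
    rw [← Nat.add_assoc, h1]
    omega
  · exact Nat.mod_lt (u - 1) hh
  · have := Nat.mod_lt (u - 1) hh
    omega

theorem exists_quot' {u h : ℕ} (hu : 0 < u) : ∃ q h', h = q * u + h' ∧ h' < u :=
  ⟨h / u, h % u, (Nat.div_add_mod' h u).symm, Nat.mod_lt h hu⟩

theorem arith_step {n u h q u' c l M : ℕ} (h1 : u = q * h + u') (hle : u + c * h ≤ n)
    (hM : (M : ℤ) + l * (n - l) + ((c + q : ℕ) : ℤ) * u' * h = u' * (n - u') + h * (n - h)) :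
    ((M + (u - u') * (n - c * h - u) : ℕ) : ℤ) + l * (n - l) + c * u * h =
      u * (n - u) + h * (n - h) := by
  have h2 : u' ≤ u := by omega
  have h3 : c * h ≤ n := by omega
  have h4 : u ≤ n - c * h := by omega
  push_cast [Nat.cast_sub h2, Nat.cast_sub h3, Nat.cast_sub h4]
  push_cast at hM
  have h5 : (u : ℤ) = q * h + u' := by exact_mod_cast h1
  rw [h5]
  linear_combination hM

theorem forall_append {M₁ M₂ : ℕ} {t : Fin M₁ → Ω} {s : Fin M₂ → Ω}
    {K : IntermediateField k Ω} :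
    (∀ i, Fin.append t s i ∈ K) ↔ (∀ i, t i ∈ K) ∧ ∀ i, s i ∈ K := by
  constructor
  · intro h
    exact ⟨fun i => by simpa using h (Fin.castAdd M₂ i), fun i => by simpa using h (Fin.natAdd M₁ i)⟩
  · rintro ⟨h1, h2⟩ i
    induction i using Fin.addCases with
    | left i => simpa using h1 i
    | right i => simpa using h2 i

theorem euclid [Infinite k] (s : ℕ) : ∀ {β : Basis ι Ω (Matrix (Fin n) (Fin n) Ω)},
    IsForm k β → ∀ {U N : Submodule Ω (Fin n → Ω)} {c : ℕ}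
      {ψ : Fin c → Matrix (Fin n) (Fin n) Ω}, finrank Ω U + finrank Ω N ≤ s → 0 < finrank Ω U →
    1 ≤ c → State k β U N ψ → ∀ l, Nat.gcd (finrank Ω U) (finrank Ω N) = l → l ∣ n →
    ∃ (Ul : Submodule Ω (Fin n → Ω)) (M : ℕ) (t : Fin M → Ω), finrank Ω Ul = l ∧
      (M : ℤ) + l * (n - l) + c * finrank Ω U * finrank Ω N =
        finrank Ω U * (n - finrank Ω U) + finrank Ω N * (n - finrank Ω N) ∧
      ∀ K : IntermediateField k Ω, (RatR β K U ∧ RatR (tr β) K N) ↔
        (RatR β K Ul ∧ ∀ i, t i ∈ K) := by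
  induction s with
  | zero =>
    intro β hβ U N c ψ hs hU
    omega
  | succ s ih =>
    intro β hβ U N c ψ hs hU hc hst l hl hln
    by_cases hN : finrank Ω N = 0
    · have hNb : N = ⊥ := Submodule.finrank_eq_zero.1 hN
      refine ⟨U, 0, Fin.elim0, ?_, ?_, fun K => ?_⟩
      · rw [← hl, hN, Nat.gcd_zero_right]
      · rw [hN] at hl ⊢
        rw [Nat.gcd_zero_right] at hl
        rw [hl]
        push_cast
        ring
      · constructor
        · rintro ⟨h1, _⟩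
          exact ⟨h1, fun i => i.elim0⟩
        · rintro ⟨h1, _⟩
          refine ⟨h1, ?_⟩
          rw [hNb]
          exact ratR_bot
    have hl0 : 0 < l := by
      rw [← hl]; exact Nat.gcd_pos_of_pos_left _ hU
    have hlU : l ∣ finrank Ω U := hl ▸ Nat.gcd_dvd_left _ _
    have hlN : l ∣ finrank Ω N := hl ▸ Nat.gcd_dvd_right _ _
    have hle1 := hst.finrank_le
    have hle2 : finrank Ω N + c * finrank Ω U ≤ n := hst.dual.finrank_le
    by_cases hcase : finrank Ω N < finrank Ω U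
    · obtain ⟨q, u', h1, h2, h3, h4⟩ := exists_quot (Nat.pos_of_ne_zero hN) hcase
      obtain ⟨φ, hφu, hφs⟩ := step hβ hst hc h1 h2
      have hgcd : Nat.gcd u' (finrank Ω N) = l := by
        rw [← hl, h1, Nat.gcd_mul_right_add_left]
      obtain ⟨Ul, M, t, hUl, hM, ht⟩ := ih hβ (U := cut U N φ) (N := N) (ψ := Fin.append ψ φ)
        (by omega) (by omega) (by omega) hφs l (by rw [hφu]; exact hgcd) hln
      obtain ⟨Kl, hKl⟩ := exists_fodR k β Ul
      obtain ⟨e, he, hee, heU⟩ := exists_idem hβ ((hKl Kl).2 le_rfl)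
      have h5 := euclid_step hβ hst
        (fun j => by simpa using hφs.rat (Fin.natAdd c j)) hl0 hlU hlN hln
        (e := e) (by rw [heU]; exact hUl) (P := fun K => RatR β K Ul) (t := t)
        (fun K hK _ => he.mono ((hKl K).1 hK)) ht
      rw [hφu] at h5
      obtain ⟨s', hs'⟩ := h5
      refine ⟨Ul, M + (finrank Ω U - u') * (n - c * finrank Ω N - finrank Ω U),
        Fin.append t s', hUl, ?_, fun K => ?_⟩
      · rw [hφu] at hM
        exact arith_step h1 hle1 hM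
      · rw [hs' K, forall_append]
    · obtain ⟨q, h', h1, h2⟩ := exists_quot' (u := finrank Ω U) (h := finrank Ω N) hU
      obtain ⟨φ, hφu, hφs⟩ := step hβ.tr hst.dual hc h1 h2.le
      have hgcd : Nat.gcd (finrank Ω U) h' = l := by
        rw [← hl, h1, add_comm, Nat.gcd_add_mul_right_right]
      obtain ⟨Ul, M, t, hUl, hM, ht⟩ := ih hβ (U := U) (N := cut N U φ)
        (by omega) (by omega) (by omega) hφs.dual.of_tr_tr l (by rw [hφu]; exact hgcd) hln
      obtain ⟨Kl, hKl⟩ := exists_fodR k β Ul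
      obtain ⟨e, he, hee, heU⟩ := exists_idem hβ ((hKl Kl).2 le_rfl)
      have h5 := euclid_step hβ.tr hst.dual
        (fun j => by simpa using hφs.rat (Fin.natAdd c j)) hl0 hlN hlU hln
        (e := eᵀ) (by rw [finrank_colS_transpose, heU]; exact hUl) (P := fun K => RatR β K Ul)
        (t := t) (fun K hK _ => by
          rw [ratV_tr, Matrix.transpose_transpose]; exact he.mono ((hKl K).1 hK))
        (fun K => by rw [ratR_tr_tr, and_comm]; exact ht K)
      rw [hφu] at h5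
      obtain ⟨s', hs'⟩ := h5
      refine ⟨Ul, M + (finrank Ω N - h') * (n - c * finrank Ω U - finrank Ω N),
        Fin.append t s', hUl, ?_, fun K => ?_⟩
      · rw [hφu] at hM
        have h6 := arith_step (n := n) (l := l) (M := M) (c := c) h1 hle2 (by
          linear_combination hM)
        linear_combination h6
      · have := hs' K
        rw [ratR_tr_tr] at this
        rw [and_comm, this, forall_append]

end Pool.Agent.H72.SB
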