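import Pool.Agent.H72.SB.Csa

/-!
# Finite base fields, transport of function fields along isomorphisms

Proof plan. `nonempty_algEquiv_of_finite`: `A ≃ Mᵣ(D)`
(`IsSimpleRing.exists_algEquiv_matrix_divisionRing_finite`), the finite division ring `D` is
commutative (`littleWedderburn`), its elements are scalar matrices in the centre of `Mᵣ(D)`, and the
centre of `A` is `k` (`Algebra.IsCentral`), so `D = k`; hence `A ≃ Mᵣ(k)` with `r ^ 2 = finrank k A`.
`IsFunctionField.congr`: map the right ideal with `Algebra.TensorProduct.congr AlgEquiv.refl e`;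
`IsFunctionField.congr_field`: with `Algebra.TensorProduct.congr e AlgEquiv.refl`.
-/

open Module TensorProduct

universe u

namespace Pool.Agent.H72.SB

variable {k : Type u} [Field k]

private theorem exists_matrix_of_finite [Finite k] (A : CSA.{u, u} k) :
    ∃ r : ℕ, r ^ 2 = finrank k A ∧ Nonempty (A ≃ₐ[k] Matrix (Fin r) (Fin r) k) := by
  have : IsArtinianRing (A : Type u) := IsArtinianRing.of_finite k A
  obtain ⟨n, hn, D, _, _, _, ⟨e⟩⟩ :=
    IsSimpleRing.exists_algEquiv_matrix_divisionRing_finite k (R := (A : Type u))
  have : Finite D := Module.finite_of_finite k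
  have hcomm : ∀ x y : D, x * y = y * x := fun x y => (littleWedderburn D).mul_comm x y
  have hsurj : Function.Surjective (algebraMap k D) := by
    intro d
    have hc : e.symm (Matrix.scalar (Fin n) d) ∈ Subalgebra.center k (A : Type u) := by
      rw [Subalgebra.mem_center_iff]
      intro b
      apply e.injective
      rw [map_mul, map_mul, e.apply_symm_apply]
      ext i j
      simp [Matrix.scalar_apply, Matrix.mul_diagonal, Matrix.diagonal_mul, hcomm]
    have hc' := Algebra.IsCentral.out hc
    obtain ⟨c, hc''⟩ := Algebra.mem_bot.1 hc'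
    refine ⟨c, ?_⟩
    have h1 : Matrix.scalar (Fin n) d = algebraMap k (Matrix (Fin n) (Fin n) D) c := by
      have := congrArg e hc''
      rw [e.apply_symm_apply, AlgEquiv.commutes] at this
      exact this.symm
    have h2 := congrFun (congrFun h1 (0 : Fin n)) (0 : Fin n)
    simpa [Matrix.scalar_apply, Matrix.algebraMap_matrix_apply] using h2.symm
  have hbij : Function.Bijective (Algebra.ofId k D) :=
    ⟨(algebraMap k D).injective, hsurj⟩
  have f : k ≃ₐ[k] D := AlgEquiv.ofBijective (Algebra.ofId k D) hbij
  have g : A ≃ₐ[k] Matrix (Fin n) (Fin n) k := e.trans f.symm.mapMatrix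
  refine ⟨n, ?_, ⟨g⟩⟩
  rw [g.toLinearEquiv.finrank_eq, Module.finrank_matrix]
  simp [sq]

theorem nonempty_algEquiv_of_finite [Finite k] (A B : CSA.{u, u} k)
    (h : finrank k A = finrank k B) : Nonempty (A ≃ₐ[k] B) := by
  obtain ⟨r, hr, ⟨f⟩⟩ := exists_matrix_of_finite A
  obtain ⟨s, hs, ⟨g⟩⟩ := exists_matrix_of_finite B
  have hrs : r = s := by
    have : r ^ 2 = s ^ 2 := by rw [hr, hs, h]
    exact Nat.pow_left_injective (n := 2) (by norm_num) this
  subst hrs
  exact ⟨f.trans g.symm⟩

theorem IsFunctionField.congr {A B : CSA.{u, u} k} (e : A ≃ₐ[k] B) {m : ℕ} {F : Type u} [Field F]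
    [Algebra k F] (h : IsFunctionField A m F) : IsFunctionField B m F := by
  obtain ⟨n, hn, I, hI, hdim, htr, hmin⟩ := h
  set φ : F ⊗[k] A ≃ₐ[F] F ⊗[k] B := Algebra.TensorProduct.congr AlgEquiv.refl e with hφ
  refine ⟨n, by rw [← e.toLinearEquiv.finrank_eq, hn], I.map φ.toLinearEquiv.toLinearMap, ?_, ?_,
    htr, ?_⟩
  · rintro _ ⟨i, hi, rfl⟩ y
    refine ⟨i * φ.symm y, hI i hi _, ?_⟩
    change φ (i * φ.symm y) = φ i * y
    rw [map_mul, φ.apply_symm_apply]
  · rw [← hdim]
    exact LinearEquiv.finrank_map_eq φ.toLinearEquiv I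
  · intro L hL
    apply hmin L
    intro x hx
    have h1 : φ x ∈ I.map φ.toLinearEquiv.toLinearMap := ⟨x, hx, rfl⟩
    have h2 := hL h1
    have key : ∀ z ∈ Submodule.span F {x | x ∈ I.map φ.toLinearEquiv.toLinearMap ∧
        x ∈ Set.range (Algebra.TensorProduct.map L.val (AlgHom.id k B))},
        φ.symm z ∈ Submodule.span F {x | x ∈ I ∧
        x ∈ Set.range (Algebra.TensorProduct.map L.val (AlgHom.id k A))} := by
      intro z hz
      induction hz using Submodule.span_induction with
      | mem z hz =>
        apply Submodule.subset_span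
        obtain ⟨⟨i, hi, hiz⟩, t, ht⟩ := hz
        have hiz' : φ i = z := hiz
        refine ⟨by rw [← hiz', φ.symm_apply_apply]; exact hi,
          Algebra.TensorProduct.map (AlgHom.id k L) (e.symm : B →ₐ[k] A) t, ?_⟩
        rw [← ht]
        apply φ.injective
        rw [φ.apply_symm_apply]
        clear ht
        induction t using TensorProduct.induction_on with
        | zero => simp
        | tmul a b =>
          simp [hφ]
        | add a b ha hb =>
          rw [map_add, map_add, map_add, map_add, ha, hb]
      | zero => simp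
      | add a b _ _ ha hb => rw [map_add]; exact Submodule.add_mem _ ha hb
      | smul c a _ ha => rw [map_smul]; exact Submodule.smul_mem _ _ ha
    have h3 := key _ h2
    rwa [φ.symm_apply_apply] at h3

theorem IsFunctionField.congr_field {A : CSA.{u, u} k} {m : ℕ} {F F' : Type u} [Field F]
    [Algebra k F] [Field F'] [Algebra k F'] (e : F ≃ₐ[k] F') (h : IsFunctionField A m F) :
    IsFunctionField A m F' := by
  obtain ⟨n, hn, I, hI, hdim, htr, hmin⟩ := h
  set φ : F ⊗[k] A ≃ₐ[k] F' ⊗[k] A := Algebra.TensorProduct.congr e AlgEquiv.refl with hφ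
  have hsmul : ∀ (c : F) (x : F ⊗[k] A), φ (c • x) = e c • φ x := by
    intro c x
    induction x using TensorProduct.induction_on with
    | zero => simp
    | tmul a b => simp [hφ, TensorProduct.smul_tmul']
    | add a b ha hb => rw [smul_add, map_add, map_add, smul_add, ha, hb]
  have hsmul' : ∀ (c : F') (x : F' ⊗[k] A), φ.symm (c • x) = e.symm c • φ.symm x := by
    intro c x
    apply φ.injective
    rw [hsmul, φ.apply_symm_apply, φ.apply_symm_apply, e.apply_symm_apply]
  let I' : Submodule F' (F' ⊗[k] A) :=
    { carrier := {y | φ.symm y ∈ I}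
      add_mem' := by
        intro a b ha hb
        change φ.symm (a + b) ∈ I
        rw [map_add]
        exact I.add_mem ha hb
      zero_mem' := by
        change φ.symm 0 ∈ I
        rw [map_zero]
        exact I.zero_mem
      smul_mem' := by
        intro c x hx
        change φ.symm (c • x) ∈ I
        rw [hsmul']
        exact I.smul_mem _ hx }
  have hI' : ∀ y, y ∈ I' ↔ φ.symm y ∈ I := fun y => Iff.rfl
  refine ⟨n, hn, I', ?_, ?_, ?_, ?_⟩
  · intro x hx y
    rw [hI'] at *
    rw [map_mul]
    exact hI _ hx _
  · rw [← hdim]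
    let j : I ≃+ I' :=
      { toFun := fun x => ⟨φ x, by rw [hI', φ.symm_apply_apply]; exact x.2⟩
        invFun := fun x => ⟨φ.symm x, x.2⟩
        left_inv := fun x => by ext; simp
        right_inv := fun x => by ext; simp
        map_add' := fun x y => by ext; simp }
    have := rank_eq_of_equiv_equiv (e : F → F') j e.bijective (by
      intro r x
      apply Subtype.ext
      exact hsmul r x)
    unfold Module.finrank
    rw [this]
  · rw [← e.trdeg_eq, htr]
  · intro L hL
    have key : ∀ z ∈ Submodule.span F' {x | x ∈ I' ∧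
        x ∈ Set.range (Algebra.TensorProduct.map L.val (AlgHom.id k A))},
        φ.symm z ∈ Submodule.span F {x | x ∈ I ∧
        x ∈ Set.range (Algebra.TensorProduct.map (L.comap (e : F →ₐ[k] F')).val
          (AlgHom.id k A))} := by
      intro z hz
      induction hz using Submodule.span_induction with
      | mem z hz =>
        apply Submodule.subset_span
        obtain ⟨hz1, t, ht⟩ := hz
        let ι : L →ₐ[k] (L.comap (e : F →ₐ[k] F')) :=
          AlgHom.codRestrict ((e.symm : F' →ₐ[k] F).comp L.val)
            (L.comap (e : F →ₐ[k] F')).toSubalgebra (fun x => by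
              change e (e.symm (x : F')) ∈ L
              rw [e.apply_symm_apply]
              exact x.2)
        refine ⟨(hI' z).1 hz1, Algebra.TensorProduct.map ι (AlgHom.id k A) t, ?_⟩
        rw [← ht]
        apply φ.injective
        rw [φ.apply_symm_apply]
        clear ht
        induction t using TensorProduct.induction_on with
        | zero => simp
        | tmul a b =>
          have : ((ι a : L.comap (e : F →ₐ[k] F')) : F) = e.symm (a : F') := rfl
          simp [hφ, this]
        | add a b ha hb =>
          rw [map_add, map_add, map_add, map_add, ha, hb]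
      | zero => simp
      | add a b _ _ ha hb => rw [map_add]; exact Submodule.add_mem _ ha hb
      | smul c a _ ha => rw [hsmul']; exact Submodule.smul_mem _ _ ha
    have htop := hmin (L.comap (e : F →ₐ[k] F')) (by
      intro x hx
      have h1 : φ x ∈ I' := by rw [hI', φ.symm_apply_apply]; exact hx
      have h3 := key _ (hL h1)
      rwa [φ.symm_apply_apply] at h3)
    rw [eq_top_iff]
    intro y _
    have h4 : e.symm y ∈ L.comap (e : F →ₐ[k] F') := by rw [htop]; trivial
    have h5 : e (e.symm y) ∈ L := h4
    rwa [e.apply_symm_apply] at h5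

end Pool.Agent.H72.SB
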