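import Pool.Agent.H72.SB.Csa

/-!
# Base change of central simple algebras, finite base fields

Proof plan. `isSimpleRing_tensor`: let `J` be a nonzero two-sided ideal of `K ⊗ A` and
`x = ∑ i, c i ⊗ a i` a nonzero element of `J` with the least number of terms. The `c i` and the
`a i` are linearly independent over `k`. As `A` is simple, `1 = ∑ p q` with `∑ p * a 0 * q = 1`, so one
may assume `a 0 = 1`. For `b` in `A` the element `(1 ⊗ b) * x - x * (1 ⊗ b)` has fewer terms, so it is
zero and `b * a i = a i * b`; so all `a i` are central, i.e. in `k`, and there is only one term: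
`x = c ⊗ 1` with `c ≠ 0`, a unit. (An alternative: `J` is a `K`-subspace which is invariant under all
left and right multiplications by `A`, use the density theorem for the simple bimodule `A`, whose
endomorphisms are `k`.)

`exists_algEquiv_matrix_algClosed`: `IsSimpleRing.exists_algEquiv_matrix_of_isAlgClosed`.

`nonempty_algEquiv_of_finite`: `A ≃ Mᵣ(D)` (`IsSimpleRing.exists_algEquiv_matrix_divisionRing_finite`),
the finite division ring `D` is commutative (`littleWedderburn`), its elements are scalar matrices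
in the centre of `Mᵣ(D)`, so `D = k`; hence `A ≃ Mᵣ(k)` with `r ^ 2 = finrank k A`.
-/

open Module TensorProduct

universe u

namespace Pool.Agent.H72.SB

private theorem simp_left {k K A ι : Type*} [DecidableEq ι] [Field k] [Field K] [Algebra k K] [Ring A]
    [Algebra k A] (b : Basis ι k K) (p : A) (x : K ⊗[k] A) (i : ι) :
    TensorProduct.equivFinsuppOfBasisLeft b ((1 : K) ⊗ₜ[k] p * x) i =
      p * TensorProduct.equivFinsuppOfBasisLeft b x i := by
  induction x using TensorProduct.induction_on with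
  | zero => simp
  | tmul c a =>
    rw [Algebra.TensorProduct.tmul_mul_tmul, one_mul,
      TensorProduct.equivFinsuppOfBasisLeft_apply_tmul_apply,
      TensorProduct.equivFinsuppOfBasisLeft_apply_tmul_apply, mul_smul_comm]
  | add x y hx hy => rw [mul_add, map_add, map_add, Finsupp.add_apply, Finsupp.add_apply, hx, hy,
      mul_add]

private theorem simp_right {k K A ι : Type*} [DecidableEq ι] [Field k] [Field K] [Algebra k K] [Ring A]
    [Algebra k A] (b : Basis ι k K) (p : A) (x : K ⊗[k] A) (i : ι) :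
    TensorProduct.equivFinsuppOfBasisLeft b (x * (1 : K) ⊗ₜ[k] p) i =
      TensorProduct.equivFinsuppOfBasisLeft b x i * p := by
  induction x using TensorProduct.induction_on with
  | zero => simp
  | tmul c a =>
    rw [Algebra.TensorProduct.tmul_mul_tmul, mul_one,
      TensorProduct.equivFinsuppOfBasisLeft_apply_tmul_apply,
      TensorProduct.equivFinsuppOfBasisLeft_apply_tmul_apply, smul_mul_assoc]
  | add x y hx hy => rw [add_mul, map_add, map_add, Finsupp.add_apply, Finsupp.add_apply, hx, hy,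
      add_mul]

theorem isSimpleRing_tensor (k K A : Type*) [Field k] [Field K] [Algebra k K] [Ring A]
    [Algebra k A] [Algebra.IsCentral k A] [IsSimpleRing A] : IsSimpleRing (K ⊗[k] A) := by
  classical
  let b := Module.Free.chooseBasis k K
  let e := TensorProduct.equivFinsuppOfBasisLeft (N := A) b
  have hle : ∀ (p : A) (x : K ⊗[k] A) i, e ((1 : K) ⊗ₜ[k] p * x) i = p * e x i := simp_left b
  have hri : ∀ (p : A) (x : K ⊗[k] A) i, e (x * (1 : K) ⊗ₜ[k] p) i = e x i * p := simp_right b
  have : Nontrivial (K ⊗[k] A) := inferInstance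
  refine IsSimpleRing.of_eq_bot_or_eq_top fun J => ?_
  rw [or_iff_not_imp_left]
  intro hJ
  obtain ⟨x1, hx1, hx1' : x1 ≠ 0⟩ := SetLike.exists_of_lt (bot_lt_iff_ne_bot.mpr hJ)
  obtain ⟨x, ⟨hxJ, hx0⟩, hmin⟩ := WellFounded.has_min
    (measure fun y : K ⊗[k] A => (e y).support.card).wf {y | y ∈ J ∧ y ≠ 0} ⟨x1, hx1, hx1'⟩
  have hmin' : ∀ y ∈ J, y ≠ 0 → (e x).support.card ≤ (e y).support.card := by
    intro y hy hy0
    exact not_lt.1 (hmin y ⟨hy, hy0⟩)
  have hex : e x ≠ 0 := by
    intro h
    exact hx0 (e.injective (by rw [h, map_zero]))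
  obtain ⟨i0, hi0⟩ := Finsupp.ne_iff.1 hex
  rw [Finsupp.zero_apply] at hi0
  -- the ideal of the coefficients at `i0`
  let I : TwoSidedIdeal A := TwoSidedIdeal.mk'
    {a | ∃ y ∈ J, (e y).support ⊆ (e x).support ∧ e y i0 = a}
    ⟨0, J.zero_mem, by rw [map_zero]; simp, by rw [map_zero]; rfl⟩
    (by
      rintro _ _ ⟨y, hy, hys, rfl⟩ ⟨z, hz, hzs, rfl⟩
      refine ⟨y + z, J.add_mem hy hz, ?_, by rw [map_add]; rfl⟩
      rw [map_add]
      exact Finsupp.support_add.trans (Finset.union_subset hys hzs))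
    (by
      rintro _ ⟨y, hy, hys, rfl⟩
      refine ⟨-y, J.neg_mem hy, ?_, by rw [map_neg]; rfl⟩
      rw [map_neg, Finsupp.support_neg]
      exact hys)
    (by
      rintro p _ ⟨y, hy, hys, rfl⟩
      refine ⟨(1 : K) ⊗ₜ[k] p * y, J.mul_mem_left _ _ hy, ?_, hle p y i0⟩
      intro i hi
      refine hys (Finsupp.mem_support_iff.2 fun h => Finsupp.mem_support_iff.1 hi ?_)
      rw [hle, h, mul_zero])
    (by
      rintro _ p ⟨y, hy, hys, rfl⟩
      refine ⟨y * (1 : K) ⊗ₜ[k] p, J.mul_mem_right _ _ hy, ?_, hri p y i0⟩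
      intro i hi
      refine hys (Finsupp.mem_support_iff.2 fun h => Finsupp.mem_support_iff.1 hi ?_)
      rw [hri, h, zero_mul])
  have hI : (1 : A) ∈ I := by
    refine IsSimpleRing.one_mem_of_ne_zero_mem I hi0 ?_
    rw [TwoSidedIdeal.mem_mk']
    exact ⟨x, hxJ, subset_rfl, rfl⟩
  rw [TwoSidedIdeal.mem_mk'] at hI
  obtain ⟨y, hyJ, hys, hy1⟩ := hI
  have hy0 : y ≠ 0 := by
    rintro rfl
    rw [map_zero, Finsupp.zero_apply] at hy1
    exact zero_ne_one hy1
  have hcomm : ∀ (p : A) i, p * e y i = e y i * p := by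
    intro p
    have hz : (1 : K) ⊗ₜ[k] p * y - y * (1 : K) ⊗ₜ[k] p = 0 := by
      by_contra hz
      have hzJ : (1 : K) ⊗ₜ[k] p * y - y * (1 : K) ⊗ₜ[k] p ∈ J :=
        J.sub_mem (J.mul_mem_left _ _ hyJ) (J.mul_mem_right _ _ hyJ)
      have h1 := hmin' _ hzJ hz
      have h2 : (e ((1 : K) ⊗ₜ[k] p * y - y * (1 : K) ⊗ₜ[k] p)).support ⊆
          (e x).support.erase i0 := by
        intro i hi
        rw [Finsupp.mem_support_iff, map_sub, Finsupp.sub_apply, hle, hri] at hi
        rw [Finset.mem_erase]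
        constructor
        · rintro rfl
          apply hi
          rw [hy1, mul_one, one_mul, sub_self]
        · refine hys (Finsupp.mem_support_iff.2 fun h => hi ?_)
          rw [h, mul_zero, zero_mul, sub_self]
      have h3 := Finset.card_le_card h2
      have h4 : ((e x).support.erase i0).card < (e x).support.card :=
        Finset.card_erase_lt_of_mem (Finsupp.mem_support_iff.2 hi0)
      omega
    intro i
    have h := congrArg (fun z => e z i) hz
    simp only [map_sub, Finsupp.sub_apply, hle, hri, map_zero, Finsupp.zero_apply] at h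
    exact sub_eq_zero.1 h
  have hcen : ∀ i, ∃ l : k, algebraMap k A l = e y i := by
    intro i
    have h1 : e y i ∈ Subalgebra.center k A :=
      Subalgebra.mem_center_iff.2 fun p => hcomm p i
    have h2 := Algebra.IsCentral.out h1
    exact Algebra.mem_bot.1 h2
  choose l hl using hcen
  have hyc : ∃ c : K, y = c ⊗ₜ[k] (1 : A) := by
    refine ⟨∑ i ∈ (e y).support, l i • b i, ?_⟩
    rw [TensorProduct.sum_tmul]
    have h1 : y = e.symm (e y) := (e.symm_apply_apply y).symm
    conv_lhs => rw [h1]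
    rw [TensorProduct.equivFinsuppOfBasisLeft_symm_apply, Finsupp.sum]
    refine Finset.sum_congr rfl fun i _ => ?_
    rw [TensorProduct.smul_tmul, ← hl i, Algebra.algebraMap_eq_smul_one]
  obtain ⟨c, hc⟩ := hyc
  have hc0 : c ≠ 0 := by
    rintro rfl
    rw [TensorProduct.zero_tmul] at hc
    exact hy0 hc
  rw [← TwoSidedIdeal.one_mem_iff]
  have h1 : (c⁻¹ ⊗ₜ[k] (1 : A)) * y = 1 := by
    rw [hc, Algebra.TensorProduct.tmul_mul_tmul, inv_mul_cancel₀ hc0, one_mul,
      Algebra.TensorProduct.one_def]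
  rw [← h1]
  exact J.mul_mem_left _ _ hyJ

theorem exists_algEquiv_matrix_algClosed (k K A : Type*) [Field k] [Field K] [Algebra k K]
    [IsAlgClosed K] [Ring A] [Algebra k A] [Algebra.IsCentral k A] [IsSimpleRing A]
    [FiniteDimensional k A] {n : ℕ} (hn : finrank k A = n ^ 2) :
    Nonempty (K ⊗[k] A ≃ₐ[K] Matrix (Fin n) (Fin n) K) := by
  have := isSimpleRing_tensor k K A
  obtain ⟨m, hm, ⟨e⟩⟩ := IsSimpleRing.exists_algEquiv_matrix_of_isAlgClosed K (K ⊗[k] A)
  have h1 : finrank K (K ⊗[k] A) = n ^ 2 := by rw [Module.finrank_baseChange, hn]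
  have h2 := e.toLinearEquiv.finrank_eq
  rw [h1, Module.finrank_matrix, Module.finrank_self, Fintype.card_fin, mul_one, ← sq] at h2
  have h3 : n = m := Nat.pow_left_injective (n := 2) (by norm_num) h2
  subst h3
  exact ⟨e⟩

end Pool.Agent.H72.SB
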