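import Pool.Agent.H72.SB.Rho
import Pool.Agent.H72.SB.Simp

/-!
# The form of a matrix algebra which is given by a central simple algebra

Proof plan. `exists_form`: let `L = algebraicClosure k Ω`, an algebraically closed field which is
algebraic over `k`. `exists_algEquiv_matrix_algClosed` gives `e : L ⊗ A ≃ Mₙ(L)`; let
`ρ a = (e (1 ⊗ a)).map (algebraMap L Ω)`. For a basis `b` of `A` the matrices `e (1 ⊗ b i)` are a basis
of `Mₙ(L)` over `L`, so the `ρ (b i)` are a basis of `Mₙ(Ω)` (`n ^ 2` matrices which span: the matrix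
units are combinations of them with coefficients in `L`), and these coefficients show that the matrix
units are `L`-rational.
-/

open Module Matrix TensorProduct

namespace Pool.Agent.H72.SB

variable {k Ω : Type*} [Field k] [Field Ω] [Algebra k Ω] {n : ℕ}

/-- An `L`-basis of `Mₙ(L)` is an `Ω`-basis of `Mₙ(Ω)`, the matrix units are `L`-rational. -/
private theorem exists_basis_map {ι : Type*} [Fintype ι] (L : IntermediateField k Ω)
    (bL : Basis ι L (Matrix (Fin n) (Fin n) L)) :
    ∃ β : Basis ι Ω (Matrix (Fin n) (Fin n) Ω), (∀ i, β i = (bL i).map (algebraMap L Ω)) ∧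
      ∀ i j, RatV β L (Matrix.single i j (1 : Ω)) := by
  classical
  set v : ι → Matrix (Fin n) (Fin n) Ω := fun t => (bL t).map (algebraMap L Ω) with hv
  have hsum : ∀ i j : Fin n, Matrix.single i j (1 : Ω)
      = ∑ t, (algebraMap L Ω (bL.repr (Matrix.single i j (1 : L)) t)) • v t := by
    intro i j
    have h1 := congrArg (fun M : Matrix (Fin n) (Fin n) L => M.map (algebraMap L Ω))
      (bL.sum_repr (Matrix.single i j (1 : L)))
    have h2 : (Matrix.single i j (1 : L)).map (algebraMap L Ω) = Matrix.single i j (1 : Ω) := by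
      rw [Matrix.map_single, map_one]
    rw [h2] at h1
    rw [← h1]
    ext a b
    rw [Matrix.map_apply, Matrix.sum_apply, Matrix.sum_apply, map_sum]
    refine Finset.sum_congr rfl fun t _ => ?_
    rw [Matrix.smul_apply, Matrix.smul_apply, smul_eq_mul, smul_eq_mul, map_mul, hv]
    rfl
  have hspan : ⊤ ≤ Submodule.span Ω (Set.range v) := by
    intro M _
    rw [Matrix.matrix_eq_sum_single M]
    refine Submodule.sum_mem _ fun i _ => Submodule.sum_mem _ fun j _ => ?_
    have h3 : Matrix.single i j (M i j) = M i j • Matrix.single i j (1 : Ω) := by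
      rw [Matrix.smul_single, smul_eq_mul, mul_one]
    rw [h3, hsum i j]
    refine Submodule.smul_mem _ _ (Submodule.sum_mem _ fun t _ => Submodule.smul_mem _ _ ?_)
    exact Submodule.subset_span ⟨t, rfl⟩
  have hcard : Fintype.card ι = finrank Ω (Matrix (Fin n) (Fin n) Ω) := by
    have h4 : finrank L (Matrix (Fin n) (Fin n) L) = Fintype.card ι := finrank_eq_card_basis bL
    rw [← h4, Module.finrank_matrix, Module.finrank_matrix]
    simp
  refine ⟨basisOfTopLeSpanOfCardEqFinrank v hspan hcard, ?_, ?_⟩
  · intro i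
    rw [coe_basisOfTopLeSpanOfCardEqFinrank]
  · intro i j t
    have h5 : (basisOfTopLeSpanOfCardEqFinrank v hspan hcard).repr (Matrix.single i j (1 : Ω)) t
        = algebraMap L Ω (bL.repr (Matrix.single i j (1 : L)) t) := by
      have h6 : Matrix.single i j (1 : Ω)
          = ∑ t, (algebraMap L Ω (bL.repr (Matrix.single i j (1 : L)) t)) •
            (basisOfTopLeSpanOfCardEqFinrank v hspan hcard) t := by
        rw [coe_basisOfTopLeSpanOfCardEqFinrank]
        exact hsum i j
      rw [h6]
      rw [Basis.repr_sum_self]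
    rw [h5]
    exact (bL.repr (Matrix.single i j (1 : L)) t).2

theorem exists_form [IsAlgClosed Ω] (A : Type*) [Ring A] [Algebra k A] [Algebra.IsCentral k A]
    [IsSimpleRing A] [FiniteDimensional k A] (hn : finrank k A = n ^ 2) :
    ∃ (ρ : A →ₐ[k] Matrix (Fin n) (Fin n) Ω) (b : Basis (Fin (n ^ 2)) k A)
      (β : Basis (Fin (n ^ 2)) Ω (Matrix (Fin n) (Fin n) Ω)), (∀ i, β i = ρ (b i)) ∧
      ∀ i j, RatV β (algebraicClosure k Ω) (Matrix.single i j (1 : Ω)) := by
  have hac : IsAlgClosed (algebraicClosure k Ω) :=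
    (inferInstance : IsAlgClosure k (algebraicClosure k Ω)).isAlgClosed
  obtain ⟨e⟩ := exists_algEquiv_matrix_algClosed k (algebraicClosure k Ω) A hn
  set b : Basis (Fin (n ^ 2)) k A := finBasisOfFinrankEq k A hn with hb
  set bL : Basis (Fin (n ^ 2)) (algebraicClosure k Ω)
      (Matrix (Fin n) (Fin n) (algebraicClosure k Ω)) :=
    (Algebra.TensorProduct.basis (algebraicClosure k Ω) b).map e.toLinearEquiv with hbL
  obtain ⟨β, hβ, hrat⟩ := exists_basis_map (algebraicClosure k Ω) bL
  refine ⟨((algebraicClosure k Ω).val.mapMatrix).comp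
    ((e.restrictScalars k).toAlgHom.comp Algebra.TensorProduct.includeRight), b, β, ?_, hrat⟩
  intro i
  rw [hβ i, hbL]
  simp only [Basis.map_apply, Algebra.TensorProduct.basis_apply]
  rfl

end Pool.Agent.H72.SB
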