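import Pool.Agent.H72.SB.Rho
import Pool.Agent.H72.SB.Csa

/-!
# Splitting fields and rational subspaces

Proof plan. `splitBy_of_ratR`: let `e` be an `L`-rational projection of rank one with image `U`
(`exists_idem`). The space `S = {X | X * e = X}` has dimension `n` and it is `L`-rational (it is the
image of `X ↦ X * e`, `RatS.map`), so the `L`-rational elements of `S` are an `L`-space of dimension
`n` (`RatS.exists_basis`), on which `A` acts by left multiplication with `ρ a`. This gives
`A → Mₙ(L)`: the matrix of `X ↦ ρ a * X` in the `L`-rational basis of `S`.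
`n ^ 2 = finrank k A` because `b` and `β` have the same index type.
-/

open Module Matrix TensorProduct

namespace Pool.Agent.H72.SB

variable {k Ω : Type*} [Field k] [Field Ω] [Algebra k Ω]
variable {ι : Type*} [Fintype ι] {n : ℕ}
variable {β : Basis ι Ω (Matrix (Fin n) (Fin n) Ω)}

theorem splitBy_of_ratR {A : Type*} [Ring A] [Algebra k A]
    {ρ : A →ₐ[k] Matrix (Fin n) (Fin n) Ω} {b : Basis ι k A} (hρ : ∀ i, β i = ρ (b i))
    {L : IntermediateField k Ω} {U : Submodule Ω (Fin n → Ω)} (hU1 : finrank Ω U = 1)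
    (hU : RatR β L U) : SplitBy k A L := by
  classical
  have hβ : IsForm k β := isForm_of_rho hρ
  obtain ⟨e, heL, hee, hecol⟩ := exists_idem hβ hU
  -- `n ^ 2 = finrank k A`
  have hcardA : n ^ 2 = finrank k A := by
    rw [finrank_eq_card_basis b, ← finrank_eq_card_basis β, Module.finrank_matrix]
    simp [sq]
  have hn : 0 < n := by
    rcases Nat.eq_zero_or_pos n with h | h
    · subst h
      have h1 : finrank Ω U ≤ finrank Ω (Fin 0 → Ω) := Submodule.finrank_le U
      rw [hU1] at h1
      simp at h1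
    · exact h
  -- the left ideal
  let S : Submodule Ω (Matrix (Fin n) (Fin n) Ω) :=
    (⊤ : Submodule Ω (Matrix (Fin n) (Fin n) Ω)).map (LinearMap.mulRight Ω e)
  have hSmem : ∀ X, X ∈ S ↔ X * e = X := by
    intro X
    constructor
    · rintro ⟨Y, _, rfl⟩
      show Y * e * e = Y * e
      rw [mul_assoc, hee]
    · intro h
      exact ⟨X, trivial, h⟩
  have hS : RatS β L S :=
    RatS.map (fun i => (ratV_basis i).mul hβ heL) ratS_top
  have hSfin : finrank Ω S = n := by
    have h1 : S.map (Matrix.transposeLinearEquiv (Fin n) (Fin n) Ω Ω).toLinearMap =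
        RI (colS eᵀ) := by
      ext X
      constructor
      · rintro ⟨Y, hY, rfl⟩
        have hY' := (hSmem Y).1 hY
        intro v
        show Yᵀ *ᵥ v ∈ colS eᵀ
        rw [← hY', Matrix.transpose_mul, ← Matrix.mulVec_mulVec]
        exact ⟨_, rfl⟩
      · intro hX
        refine ⟨Xᵀ, (hSmem _).2 ?_, Matrix.transpose_transpose X⟩
        have h2 : eᵀ * X = X := by
          apply Matrix.mulVec_injective
          funext v
          obtain ⟨w, hw⟩ := hX v
          have hw' : eᵀ *ᵥ w = X *ᵥ v := hw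
          have hee' : eᵀ * eᵀ = eᵀ := by rw [← Matrix.transpose_mul, hee]
          show (eᵀ * X) *ᵥ v = X *ᵥ v
          rw [← Matrix.mulVec_mulVec, ← hw', Matrix.mulVec_mulVec, hee']
        have h3 := congrArg Matrix.transpose h2
        rw [Matrix.transpose_mul, Matrix.transpose_transpose] at h3
        exact h3
    have h2 : finrank Ω (S.map (Matrix.transposeLinearEquiv (Fin n) (Fin n) Ω Ω).toLinearMap) =
        finrank Ω S := LinearEquiv.finrank_map_eq _ S
    rw [← h2, h1, finrank_RI]
    have h3 : finrank Ω (colS eᵀ) = 1 := by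
      have h4 : finrank Ω (colS eᵀ) = (eᵀ).rank := rfl
      have h5 : finrank Ω (colS e) = e.rank := rfl
      rw [h4, Matrix.rank_transpose, ← h5, hecol, hU1]
    rw [h3, mul_one]
  obtain ⟨γ0, hγ0, hγ1⟩ := hS.exists_basis
  let γ : Basis (Fin n) Ω S := γ0.reindex (finCongr hSfin)
  have hleft : ∀ X : Matrix (Fin n) (Fin n) Ω, ∀ Y ∈ S, LinearMap.mulLeft Ω X Y ∈ S := by
    intro X Y hY
    rw [hSmem] at hY ⊢
    show X * Y * e = X * Y
    rw [mul_assoc, hY]
  let T : Matrix (Fin n) (Fin n) Ω →ₐ[Ω] Module.End Ω S :=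
    { toFun := fun X => (LinearMap.mulLeft Ω X).restrict (hleft X)
      map_one' := by
        apply LinearMap.ext; intro x; apply Subtype.ext
        show (1 : Matrix (Fin n) (Fin n) Ω) * (x : Matrix (Fin n) (Fin n) Ω) = x
        rw [one_mul]
      map_mul' := fun X Y => by
        apply LinearMap.ext; intro x; apply Subtype.ext
        show (X * Y) * (x : Matrix (Fin n) (Fin n) Ω) = X * (Y * x)
        rw [mul_assoc]
      map_zero' := by
        apply LinearMap.ext; intro x; apply Subtype.ext
        show (0 : Matrix (Fin n) (Fin n) Ω) * (x : Matrix (Fin n) (Fin n) Ω) = 0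
        rw [zero_mul]
      map_add' := fun X Y => by
        apply LinearMap.ext; intro x; apply Subtype.ext
        show (X + Y) * (x : Matrix (Fin n) (Fin n) Ω) = X * x + Y * x
        rw [add_mul]
      commutes' := fun c => by
        apply LinearMap.ext; intro x; apply Subtype.ext
        show (algebraMap Ω (Matrix (Fin n) (Fin n) Ω) c) * (x : Matrix (Fin n) (Fin n) Ω) =
          ((algebraMap Ω (Module.End Ω S) c) x : S)
        rw [Module.algebraMap_end_apply, ← Algebra.smul_def]
        rfl }
  let Θ : Matrix (Fin n) (Fin n) Ω →ₐ[Ω] Matrix (Fin n) (Fin n) Ω :=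
    (LinearMap.toMatrixAlgEquiv γ).toAlgHom.comp T
  let φ : A →ₐ[k] Matrix (Fin n) (Fin n) Ω := (Θ.restrictScalars k).comp ρ
  have hφ : ∀ a i j, φ a i j ∈ L := by
    intro a i j
    have h1 : φ a i j = γ.repr (T (ρ a) (γ j)) i := by
      show LinearMap.toMatrixAlgEquiv γ (T (ρ a)) i j = _
      rw [LinearMap.toMatrixAlgEquiv_apply]
    have h2 : RatV β L ((T (ρ a) (γ j) : S) : Matrix (Fin n) (Fin n) Ω) := by
      show RatV β L (ρ a * (γ j : Matrix (Fin n) (Fin n) Ω))
      refine RatV.mul hβ ((ratV_rho hρ a).mono bot_le) ?_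
      show RatV β L ((γ0.reindex (finCongr hSfin) j : S) : Matrix (Fin n) (Fin n) Ω)
      rw [Basis.reindex_apply]
      exact hγ0 _
    rw [h1]
    show (γ0.reindex (finCongr hSfin)).repr (T (ρ a) (γ j)) i ∈ L
    rw [Basis.repr_reindex_apply]
    exact (hγ1 L le_rfl _).1 h2 _
  have hinj : Function.Injective (L.val.mapMatrix : Matrix (Fin n) (Fin n) L →ₐ[k] _) := by
    intro X Y h
    ext i j
    exact congrFun (congrFun h i) j
  refine ⟨n, hn, hcardA, ⟨?_⟩⟩
  exact ((AlgEquiv.ofInjective _ hinj).symm.toAlgHom).comp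
    (φ.codRestrict (L.val.mapMatrix : Matrix (Fin n) (Fin n) L →ₐ[k] _).range fun a =>
      ⟨Matrix.of fun i j => ⟨φ a i j, hφ a i j⟩, by ext i j; rfl⟩)

end Pool.Agent.H72.SB
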