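import Pool.Agent.H72.SB.Idem

/-!
# Orthogonal spaces and the subspaces `cut U N φ`

Proof plan. If `e` is a `K`-rational projection with image `U` (`exists_idem`) then `perp U` is the
kernel of `eᵀ`, which is `K`-rational for `tr β` (`ratV_tr`), so `ratR_perp` follows from `ratR_ker`
for `tr β` (`IsForm.tr`). For `ratR_cut` let `f` be a `K`-rational projection for `tr β` with image
`N` and `g = fᵀ`: then `y ⬝ (φ j *ᵥ x) = 0` for all `y` in `N` iff `g *ᵥ (φ j *ᵥ x) = 0`, so
`cut U N φ = U ⊓ ⨅ j, ker (g * φ j)`, and a finite infimum of `K`-rational subspaces is `K`-rational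
(`RatR.inf`). `finrank_cut_top`: `cut ⊤ N ψ` is the orthogonal space (`perp`) of the image of the
injective map `N ^ c → Ωⁿ`, `y ↦ ∑ j, (ψ j)ᵀ *ᵥ y j`.
-/

open Module Matrix

namespace Pool.Agent.H72.SB

variable {k Ω : Type*} [Field k] [Field Ω] [Algebra k Ω]
variable {ι : Type*} [Fintype ι] {n : ℕ}
variable {β : Basis ι Ω (Matrix (Fin n) (Fin n) Ω)} {K : IntermediateField k Ω}
variable {U N : Submodule Ω (Fin n → Ω)}

private theorem perp_dot (X : Matrix (Fin n) (Fin n) Ω) (y v : Fin n → Ω) :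
    y ⬝ᵥ (X *ᵥ v) = (Xᵀ *ᵥ y) ⬝ᵥ v := by
  rw [Matrix.dotProduct_mulVec, Matrix.mulVec_transpose]

private theorem perp_eq_zero {y : Fin n → Ω} (h : ∀ v, y ⬝ᵥ v = 0) : y = 0 := by
  ext i
  have := h (Pi.single i 1)
  rwa [dotProduct_single_one] at this

theorem finrank_perp (U : Submodule Ω (Fin n → Ω)) : finrank Ω (perp U) + finrank Ω U = n := by
  have h1 : perp U = (U.dualAnnihilator).comap (dotProductEquiv Ω (Fin n)).toLinearMap := by
    ext y
    rw [Submodule.mem_comap, Submodule.mem_dualAnnihilator]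
    rfl
  have h2 : finrank Ω (perp U) = finrank Ω U.dualAnnihilator := by
    rw [h1]
    have h3 : (U.dualAnnihilator).comap (dotProductEquiv Ω (Fin n)).toLinearMap
        = (U.dualAnnihilator).map ((dotProductEquiv Ω (Fin n)).symm).toLinearMap :=
      Submodule.comap_equiv_eq_map_symm _ _
    rw [h3]
    exact LinearEquiv.finrank_map_eq (dotProductEquiv Ω (Fin n)).symm _
  rw [h2, add_comm, Subspace.finrank_add_finrank_dualAnnihilator_eq, Module.finrank_fin_fun]

theorem perp_perp (U : Submodule Ω (Fin n → Ω)) : perp (perp U) = U := by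
  have h1 : U ≤ perp (perp U) := by
    intro x hx y hy
    rw [dotProduct_comm]
    exact hy x hx
  have h2 := finrank_perp U
  have h3 := finrank_perp (perp U)
  exact (Submodule.eq_of_le_of_finrank_eq h1 (by omega)).symm

theorem ratR_perp (hβ : IsForm k β) (hU : RatR β K U) : RatR (tr β) K (perp U) := by
  obtain ⟨e, he, _, heU⟩ := exists_idem hβ hU
  have h1 : perp U = LinearMap.ker (eᵀ).mulVecLin := by
    ext y
    rw [LinearMap.mem_ker, Matrix.mulVecLin_apply]
    constructor
    · intro h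
      refine perp_eq_zero fun v => ?_
      rw [← perp_dot]
      exact h _ (heU ▸ ⟨v, rfl⟩)
    · intro h x hx
      rw [← heU] at hx
      obtain ⟨v, rfl⟩ := hx
      show y ⬝ᵥ (e *ᵥ v) = 0
      rw [perp_dot, h, zero_dotProduct]
  rw [h1]
  refine ratR_ker hβ.tr ?_
  rw [ratV_tr, Matrix.transpose_transpose]
  exact he

theorem ratR_cut (hβ : IsForm k β) (hU : RatR β K U) (hN : RatR (tr β) K N) {q : ℕ}
    {φ : Fin q → Matrix (Fin n) (Fin n) Ω} (hφ : ∀ j, RatV β K (φ j)) :
    RatR β K (cut U N φ) := by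
  obtain ⟨f, hf, _, hfN⟩ := exists_idem hβ.tr hN
  have h1 : cut U N φ = U ⊓ ⨅ j ∈ (Finset.univ : Finset (Fin q)), LinearMap.ker (fᵀ * φ j).mulVecLin := by
    ext x
    rw [Submodule.mem_inf]
    simp only [Finset.mem_univ, iInf_pos, Submodule.mem_iInf, LinearMap.mem_ker, Matrix.mulVecLin_apply]
    constructor
    · rintro ⟨hx, h⟩
      refine ⟨hx, fun j => perp_eq_zero fun v => ?_⟩
      have h2 := h j (f *ᵥ v) (hfN ▸ ⟨v, rfl⟩)
      rw [dotProduct_comm, perp_dot] at h2
      rw [← Matrix.mulVec_mulVec]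
      exact h2
    · rintro ⟨hx, h⟩
      refine ⟨hx, fun j y hy => ?_⟩
      rw [← hfN] at hy
      obtain ⟨v, rfl⟩ := hy
      show (f *ᵥ v) ⬝ᵥ (φ j *ᵥ x) = 0
      rw [dotProduct_comm, perp_dot, Matrix.mulVec_mulVec, h j, zero_dotProduct]
  have h2 : ∀ s : Finset (Fin q), RatR β K (⨅ j ∈ s, LinearMap.ker (fᵀ * φ j).mulVecLin) := by
    intro s
    induction s using Finset.induction_on with
    | empty =>
      have : (⨅ j ∈ (∅ : Finset (Fin q)), LinearMap.ker (fᵀ * φ j).mulVecLin) = ⊤ := by simp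
      rw [this]
      exact ratR_top
    | insert a s ha ih =>
      rw [Finset.iInf_insert]
      exact RatR.inf (ratR_ker hβ (RatV.mul hβ (ratV_tr.1 hf) (hφ a))) ih
  rw [h1]
  exact RatR.inf hU (h2 _)

theorem finrank_cut_top {c : ℕ} {ψ : Fin c → Matrix (Fin n) (Fin n) Ω}
    (h : ∀ y : Fin c → (Fin n → Ω), (∀ j, y j ∈ N) → ∑ j, (ψ j)ᵀ *ᵥ y j = 0 → ∀ j, y j = 0) :
    finrank Ω (cut ⊤ N ψ) + c * finrank Ω N = n := by
  let L : (Fin c → N) →ₗ[Ω] (Fin n → Ω) :=
    ∑ j, ((ψ j)ᵀ).mulVecLin ∘ₗ N.subtype ∘ₗ LinearMap.proj j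
  have hL : ∀ y : Fin c → N, L y = ∑ j, (ψ j)ᵀ *ᵥ (y j : Fin n → Ω) := by
    intro y
    show (∑ j, ((ψ j)ᵀ).mulVecLin ∘ₗ N.subtype ∘ₗ LinearMap.proj j) y = _
    rw [LinearMap.sum_apply]
    rfl
  have hinj : Function.Injective L := by
    rw [← LinearMap.ker_eq_bot, LinearMap.ker_eq_bot']
    intro y hy
    rw [hL] at hy
    have h1 := h (fun j => (y j : Fin n → Ω)) (fun j => (y j).2) hy
    funext j
    exact Subtype.ext (h1 j)
  have h1 : finrank Ω (LinearMap.range L) = c * finrank Ω N := by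
    rw [LinearMap.finrank_range_of_inj hinj, Module.finrank_pi_fintype]
    simp
  have h2 : cut ⊤ N ψ = perp (LinearMap.range L) := by
    ext x
    constructor
    · rintro ⟨_, hx⟩ _ ⟨y, rfl⟩
      rw [hL, dotProduct_sum]
      refine Finset.sum_eq_zero fun j _ => ?_
      have h3 := hx j (y j) (y j).2
      rw [perp_dot, dotProduct_comm] at h3
      exact h3
    · intro hx
      refine ⟨trivial, fun j y hy => ?_⟩
      have h3 := hx (L (Pi.single j ⟨y, hy⟩)) ⟨_, rfl⟩
      rw [hL] at h3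
      rw [Finset.sum_eq_single j] at h3
      · rw [Pi.single_eq_same] at h3
        rw [perp_dot, dotProduct_comm]
        exact h3
      · intro i _ hi
        rw [Pi.single_eq_of_ne hi]
        exact Matrix.mulVec_zero _
      · intro hj
        exact absurd (Finset.mem_univ j) hj
  rw [h2, ← h1]
  exact finrank_perp _

theorem State.dual {c : ℕ} {ψ : Fin c → Matrix (Fin n) (Fin n) Ω} (h : State k β U N ψ) :
    State k (tr β) N U fun j => (ψ j)ᵀ where
  rat j := by
    rw [ratV_tr, Matrix.transpose_transpose]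
    exact h.rat j
  orth j y hy x hx := by
    rw [perp_dot, Matrix.transpose_transpose, dotProduct_comm]
    exact h.orth j x hx y hy
  ds := h.dk
  dk x hx hs := by
    refine h.ds x hx ?_
    simpa only [Matrix.transpose_transpose] using hs

theorem State.init (hβ : IsForm k β) (U : Submodule Ω (Fin n → Ω)) :
    State k β U (perp U) fun _ : Fin 1 => 1 where
  rat _ := hβ.one
  orth _ y hy x hx := by
    rw [Matrix.one_mulVec]
    exact hy x hx
  ds x _ hs j := by
    rw [Fin.sum_univ_one, Matrix.one_mulVec] at hs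
    rw [Subsingleton.elim j 0, hs]
  dk y _ hs j := by
    rw [Fin.sum_univ_one, Matrix.transpose_one, Matrix.one_mulVec] at hs
    rw [Subsingleton.elim j 0, hs]

end Pool.Agent.H72.SB
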