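import Pool.Agent.H72.SB.Rho
import Pool.Agent.H72.SB.Perp
import Pool.Agent.H72.SB.Simp

/-!
# Rational subspaces from splitting fields

Proof plan. `exists_ratR_of_splitBy`: let `R = K ⊗ B`, a simple ring (`isSimpleRing_tensor`), of dimension
`n ^ 2` over `K`, hence Artinian. `R` as a left module is isomorphic to `S ^ c`, `S` simple, and every
finite `R`-module is isomorphic to some `S ^ a` (`IsSimpleRing.isIsotypic`,
`IsIsotypic.linearEquiv_fun`). Let `s = finrank K S`, so `c * s = n ^ 2`. For every `j` the `K`-space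
`L j ^ n` is an `R`-module (`B` acts by `B → Mₙ(L j)`, the number `a` in `SplitBy` is `n`) of dimension
`n * [L j : K]`, so `s` divides `n * [L j : K]`, hence `s` divides `n * l`. As `n * l ≤ n ^ 2` there
is a left ideal `J ≃ S ^ (n * l / s)` of `R` of dimension `n * l` over `K`. Its image in `Mₙ(Ω)`
(`toMat K.val ρ`) spans a left ideal `J'` of `Mₙ(Ω)` of dimension `n * l`, which is spanned by
`K`-rational elements. The transposes of the elements of `J'` are `RI N` for a subspace `N` of
dimension `l`, which is `K`-rational for `tr β`; let `f` be a `K`-rational projection for `tr β` with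
image `N`; then `colS fᵀ` has dimension `l` and is `K`-rational for `β` (`ratR_colS`, `ratV_tr`).
-/

open Module Matrix TensorProduct

namespace Pool.Agent.H72.SB

variable {k Ω : Type*} [Field k] [Field Ω] [Algebra k Ω]
variable {ι : Type*} [Fintype ι] {n : ℕ}
variable {β : Basis ι Ω (Matrix (Fin n) (Fin n) Ω)}

section simple

variable (K : Type*) {R : Type*} [Field K] [Ring R] [Algebra K R] [IsSimpleRing R]
variable [FiniteDimensional K R]

private theorem idxD_pi {S : Type*} [AddCommGroup S] [Module K S] [FiniteDimensional K S] (a : ℕ) :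
    finrank K (Fin a → S) = a * finrank K S := by
  rw [Module.finrank_pi_fintype, Finset.sum_const, Finset.card_univ, Fintype.card_fin, smul_eq_mul]

private theorem idxD_dvd (S : Submodule R R) [IsSimpleModule R S] {V : Type*} [AddCommGroup V]
    [Module K V] [FiniteDimensional K V] (Ψ : R →ₐ[K] Module.End K V) :
    finrank K S ∣ finrank K V := by
  have hA : IsArtinianRing R := IsArtinianRing.of_finite K R
  let _ : Module R V := Module.compHom V Ψ.toRingHom
  have hsc : IsScalarTower K R V := ⟨fun c r v => by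
    show Ψ (c • r) v = c • (Ψ r v)
    rw [map_smul]
    rfl⟩
  rcases subsingleton_or_nontrivial V with hV | hV
  · have h0 : finrank K V = 0 := Module.finrank_zero_of_subsingleton
    rw [h0]
    exact dvd_zero _
  · have hf : Module.Finite R V := Module.Finite.of_restrictScalars_finite K R V
    obtain ⟨a, _, S', hS', ⟨e⟩⟩ := (IsSimpleRing.isIsotypic R V).linearEquiv_fun
    obtain ⟨I, ⟨e'⟩⟩ := IsSemisimpleRing.exists_linearEquiv_ideal_of_isSimpleModule R S'
    have hI := IsSimpleModule.congr e'.symm
    obtain ⟨e''⟩ := IsSimpleRing.isIsotypic R R S I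
    have h1 : finrank K V = finrank K (Fin a → S') := (e.restrictScalars K).finrank_eq
    have h2 : finrank K S' = finrank K S := ((e'.trans e'').restrictScalars K).finrank_eq
    have hfS : FiniteDimensional K S' := by
      have : Module.Finite K V := inferInstance
      exact Module.Finite.of_injective (S'.subtype.restrictScalars K) Subtype.val_injective
    rw [h1, idxD_pi, h2]
    exact dvd_mul_left _ _

private theorem idxD_ideal {m : ℕ}
    (hm : ∀ S : Submodule R R, IsSimpleModule R S → finrank K S ∣ m) (hle : m ≤ finrank K R) :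
    ∃ J : Submodule R R, finrank K J = m := by
  have hA : IsArtinianRing R := IsArtinianRing.of_finite K R
  obtain ⟨c, _, S, hS, ⟨e⟩⟩ := (IsSimpleRing.isIsotypic R R).linearEquiv_fun
  obtain ⟨a, ha⟩ := hm S hS
  have hfS : FiniteDimensional K S :=
    Module.Finite.of_injective (S.subtype.restrictScalars K) Subtype.val_injective
  have h1 : finrank K R = c * finrank K S := by
    rw [← idxD_pi]
    exact (e.restrictScalars K).finrank_eq
  have hnt : Nontrivial S := IsSimpleModule.nontrivial R S
  have hpos : 0 < finrank K S := Module.finrank_pos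
  have hac : a ≤ c := by
    have h2 : finrank K S * a ≤ finrank K S * c := by
      rw [← ha, mul_comm (finrank K S) c, ← h1]
      exact hle
    exact Nat.le_of_mul_le_mul_left h2 hpos
  let inj : (Fin a → S) →ₗ[R] (Fin c → S) :=
    LinearMap.pi fun i : Fin c => if h : (i : ℕ) < a then LinearMap.proj ⟨i, h⟩ else 0
  have hinj : Function.Injective inj := by
    intro f g hfg
    funext i
    have h2 := congrFun hfg (Fin.castLE hac i)
    have h3 : ∀ f : Fin a → S, inj f (Fin.castLE hac i) = f i := by
      intro f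
      show (if h : ((Fin.castLE hac i : Fin c) : ℕ) < a then LinearMap.proj ⟨_, h⟩
        else (0 : (Fin a → S) →ₗ[R] S)) f = f i
      have h4 : ((Fin.castLE hac i : Fin c) : ℕ) < a := i.2
      rw [dif_pos h4]
      rfl
    rw [h3, h3] at h2
    exact h2
  have hinj' : Function.Injective (e.symm.toLinearMap.comp inj) :=
    e.symm.injective.comp hinj
  refine ⟨LinearMap.range (e.symm.toLinearMap.comp inj), ?_⟩
  have h5 : finrank K (Fin a → S) =
      finrank K (LinearMap.range (e.symm.toLinearMap.comp inj)) :=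
    ((LinearEquiv.ofInjective _ hinj').restrictScalars K).finrank_eq
  rw [← h5, idxD_pi, ha, mul_comm]

end simple

/-- The action of the matrices on the vectors, over a smaller field. -/
private noncomputable def idxD_act (K F : Type*) [Field K] [Field F] [Algebra K F] (n : ℕ) :
    Matrix (Fin n) (Fin n) F →ₐ[K] Module.End K (Fin n → F) where
  toFun M := M.mulVecLin.restrictScalars K
  map_one' := LinearMap.ext fun v => Matrix.one_mulVec v
  map_mul' M N := by
    refine LinearMap.ext fun v => ?_
    exact (Matrix.mulVec_mulVec v M N).symm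
  map_zero' := LinearMap.ext fun v => Matrix.zero_mulVec v
  map_add' M N := LinearMap.ext fun v => Matrix.add_mulVec M N v
  commutes' c := by
    refine LinearMap.ext fun v => ?_
    show (algebraMap K (Matrix (Fin n) (Fin n) F) c) *ᵥ v = c • v
    rw [Algebra.algebraMap_eq_smul_one, Matrix.smul_mulVec, Matrix.one_mulVec]

section ideal

/-- A right ideal of the matrix algebra is given by a subspace. -/
private theorem idxD_right (hn : 0 < n) (I : Submodule Ω (Matrix (Fin n) (Fin n) Ω))
    (hI : ∀ X ∈ I, ∀ Y, X * Y ∈ I) : ∃ N : Submodule Ω (Fin n → Ω), RI N = I := by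
  let o : Fin n := ⟨0, hn⟩
  let col : Matrix (Fin n) (Fin n) Ω →ₗ[Ω] (Fin n → Ω) :=
    { toFun := fun X => X *ᵥ Pi.single o 1
      map_add' := fun X Y => Matrix.add_mulVec X Y _
      map_smul' := fun c X => Matrix.smul_mulVec c X _ }
  have hcol : ∀ X, col X = X *ᵥ Pi.single o 1 := fun X => rfl
  refine ⟨I.map col, le_antisymm ?_ ?_⟩
  · intro X hX
    have h1 : ∀ j, ∃ Y ∈ I, Y *ᵥ Pi.single o 1 = X.col j := fun j => mem_RI_col.1 hX j
    choose Y hY hYX using h1
    have h2 : X = ∑ j, Y j * Matrix.single o j 1 := by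
      ext i j
      rw [Matrix.sum_apply, Finset.sum_eq_single j]
      · rw [Matrix.mul_single_apply_same, mul_one]
        have h3 := congrFun (hYX j) i
        rw [Matrix.mulVec_single_one] at h3
        exact h3.symm
      · intro t _ ht
        rw [Matrix.mul_single_apply_of_ne]
        exact ht.symm
      · intro h
        exact absurd (Finset.mem_univ j) h
    rw [h2]
    exact Submodule.sum_mem _ fun j _ => hI _ (hY j) _
  · intro X hX v
    have h3 : v = (Matrix.vecMulVec v (Pi.single o (1 : Ω))) *ᵥ Pi.single o 1 := by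
      ext i
      rw [Matrix.mulVec_single_one]
      simp [Matrix.col, Matrix.vecMulVec_apply]
    refine ⟨X * Matrix.vecMulVec v (Pi.single o 1), hI X hX _, ?_⟩
    rw [hcol, ← Matrix.mulVec_mulVec, ← h3]

variable {K : IntermediateField k Ω} {R : Type*} [Ring R] [Algebra K R]
variable {T : R →+* Matrix (Fin n) (Fin n) Ω}

private theorem idxD_finrank (hTs : ∀ (c : K) (x : R), T (c • x) = (c : Ω) • T x)
    (hTi : Function.Injective T) (hTr : ∀ x, RatV β K (T x))
    (J : Submodule K R) [FiniteDimensional K J] :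
    finrank Ω (Submodule.span Ω (T '' (J : Set R))) = finrank K J := by
  classical
  let γ := Module.finBasis K J
  let v : Fin (finrank K J) → Matrix (Fin n) (Fin n) Ω := fun i => T (γ i)
  have hspan : Submodule.span Ω (T '' (J : Set R)) = Submodule.span Ω (Set.range v) := by
    apply le_antisymm
    · rw [Submodule.span_le]
      rintro _ ⟨x, hx, rfl⟩
      have h1 : x = ∑ i, γ.repr ⟨x, hx⟩ i • (γ i : R) := by
        have := congrArg (fun z : J => (z : R)) (γ.sum_repr ⟨x, hx⟩)
        simp only [Submodule.coe_sum, Submodule.coe_smul] at this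
        exact this.symm
      show T x ∈ Submodule.span Ω (Set.range v)
      rw [h1, map_sum]
      refine Submodule.sum_mem _ fun i _ => ?_
      rw [hTs]
      exact Submodule.smul_mem _ _ (Submodule.subset_span ⟨i, rfl⟩)
    · refine Submodule.span_mono ?_
      rintro _ ⟨i, rfl⟩
      exact ⟨γ i, (γ i).2, rfl⟩
  have hli : LinearIndependent Ω v := by
    rw [Fintype.linearIndependent_iff]
    intro c hc i
    rw [← Module.forall_dual_apply_eq_zero_iff K (c i)]
    intro lam
    have h1 : ∑ i, (lam (c i) : Ω) • v i = 0 := by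
      have h2 : lamE β lam (∑ i, c i • v i) = ∑ i, (lam (c i) : Ω) • v i := by
        rw [lamE_sum]
        exact Finset.sum_congr rfl fun i _ => lamE_smul lam _ (hTr _)
      rw [← h2, hc, lamE_zero]
    have h3 : T (∑ i, lam (c i) • (γ i : R)) = 0 := by
      rw [map_sum, ← h1]
      exact Finset.sum_congr rfl fun i _ => hTs _ _
    have h4 : ∑ i, lam (c i) • (γ i : R) = 0 := by
      apply hTi
      rw [h3, map_zero]
    have h5 : ∑ i, lam (c i) • γ i = 0 := by
      apply Subtype.ext
      rw [Submodule.coe_sum]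
      simpa using h4
    exact Fintype.linearIndependent_iff.1 γ.linearIndependent _ h5 i
  rw [hspan, finrank_span_eq_card hli, Fintype.card_fin]

private theorem idxD_of_ideal (hβ : IsForm k β)
    (hTs : ∀ (c : K) (x : R), T (c • x) = (c : Ω) • T x)
    (hTi : Function.Injective T) (hTr : ∀ x, RatV β K (T x)) (hTb : ∀ i, ∃ x, T x = β i) {l : ℕ}
    (hn : 0 < n) (J : Submodule R R) (hfJ : FiniteDimensional K J)
    (hJ : finrank K J = n * l) :
    ∃ U : Submodule Ω (Fin n → Ω), finrank Ω U = l ∧ RatR β K U := by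
  let J0 : Submodule K R := J.restrictScalars K
  let J' : Submodule Ω (Matrix (Fin n) (Fin n) Ω) := Submodule.span Ω (T '' (J0 : Set R))
  have hfJ0 : FiniteDimensional K J0 := hfJ
  have hdim : finrank Ω J' = n * l := (idxD_finrank hTs hTi hTr J0).trans hJ
  have hleft : ∀ X ∈ J', ∀ Y, Y * X ∈ J' := by
    intro X hX Y
    refine Submodule.span_induction (p := fun X _ => Y * X ∈ J') ?_ ?_ ?_ ?_ hX
    · rintro _ ⟨x, hx, rfl⟩
      rw [← β.sum_repr Y, Finset.sum_mul]
      refine Submodule.sum_mem _ fun i _ => ?_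
      obtain ⟨y, hy⟩ := hTb i
      rw [smul_mul_assoc, ← hy, ← map_mul]
      exact Submodule.smul_mem _ _ (Submodule.subset_span ⟨y * x, J.smul_mem y hx, rfl⟩)
    · show Y * 0 ∈ J'
      rw [mul_zero]
      exact J'.zero_mem
    · intro x y _ _ hx hy
      show Y * (x + y) ∈ J'
      rw [mul_add]
      exact J'.add_mem hx hy
    · intro c x _ hx
      show Y * (c • x) ∈ J'
      rw [mul_smul_comm]
      exact J'.smul_mem c hx
  let I : Submodule Ω (Matrix (Fin n) (Fin n) Ω) :=
    J'.map (Matrix.transposeLinearEquiv (Fin n) (Fin n) Ω Ω).toLinearMap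
  have hI : ∀ X ∈ I, ∀ Y, X * Y ∈ I := by
    rintro _ ⟨X, hX, rfl⟩ Y
    refine ⟨Yᵀ * X, hleft X hX _, ?_⟩
    show (Yᵀ * X)ᵀ = Xᵀ * Y
    rw [Matrix.transpose_mul, Matrix.transpose_transpose]
  obtain ⟨N, hN⟩ := idxD_right hn I hI
  have hdimI : finrank Ω I = n * l := by
    rw [← hdim]
    exact LinearEquiv.finrank_map_eq (Matrix.transposeLinearEquiv (Fin n) (Fin n) Ω Ω) J'
  have hNl : finrank Ω N = l := by
    have h1 := finrank_RI N
    rw [hN, hdimI] at h1
    exact (Nat.eq_of_mul_eq_mul_left hn h1).symm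
  have hNK : RatR (tr β) K N := by
    unfold RatR RatS
    rw [hN]
    rintro _ ⟨X, hX, rfl⟩
    refine Submodule.span_induction (p := fun X _ =>
      (Matrix.transposeLinearEquiv (Fin n) (Fin n) Ω Ω).toLinearMap X ∈
        Submodule.span Ω {x | x ∈ I ∧ RatV (tr β) K x}) ?_ ?_ ?_ ?_ hX
    · rintro _ ⟨x, hx, rfl⟩
      refine Submodule.subset_span ⟨⟨T x, Submodule.subset_span ⟨x, hx, rfl⟩, rfl⟩, ?_⟩
      rw [ratV_tr]
      exact hTr x
    · rw [map_zero]
      exact Submodule.zero_mem _
    · intro x y _ _ hx hy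
      rw [map_add]
      exact Submodule.add_mem _ hx hy
    · intro c x _ hx
      rw [map_smul]
      exact Submodule.smul_mem _ _ hx
  obtain ⟨e, heK, -, heN⟩ := exists_idem hβ.tr hNK
  refine ⟨colS eᵀ, ?_, ratR_colS hβ (ratV_tr.1 heK)⟩
  have h1 : finrank Ω (colS eᵀ) = finrank Ω (colS e) := by
    show (eᵀ).rank = e.rank
    exact Matrix.rank_transpose e
  rw [h1, heN, hNl]

private theorem idxD_main [IsSimpleRing R] [FiniteDimensional K R] (hβ : IsForm k β)
    (hTs : ∀ (c : K) (x : R), T (c • x) = (c : Ω) • T x)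
    (hTi : Function.Injective T) (hTr : ∀ x, RatV β K (T x)) (hTb : ∀ i, ∃ x, T x = β i) {l : ℕ}
    (hn : 0 < n) (hln : l ≤ n) (hR : finrank K R = n ^ 2)
    (hV : ∃ (r : ℕ) (F : Fin r → IntermediateField K Ω), (∀ j, FiniteDimensional K (F j)) ∧
      ∑ j, finrank K (F j) = l ∧ ∀ j, Nonempty (R →ₐ[K] Matrix (Fin n) (Fin n) (F j))) :
    ∃ U : Submodule Ω (Fin n → Ω), finrank Ω U = l ∧ RatR β K U := by
  obtain ⟨r, F, hF, hsum, hΦ⟩ := hV
  have hdvd : ∀ S : Submodule R R, IsSimpleModule R S → finrank K S ∣ n * l := by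
    intro S hS
    rw [← hsum, Finset.mul_sum]
    refine Finset.dvd_sum fun j _ => ?_
    have hfj : FiniteDimensional K (F j) := hF j
    obtain ⟨Φ⟩ := hΦ j
    have h1 := idxD_dvd K S ((idxD_act K (F j) n).comp Φ)
    rwa [idxD_pi] at h1
  obtain ⟨J, hJ⟩ := idxD_ideal K hdvd (by
    rw [hR, sq]
    exact Nat.mul_le_mul_left n hln)
  have hfJ : FiniteDimensional K J :=
    Module.Finite.of_injective (J.subtype.restrictScalars K) Subtype.val_injective
  exact idxD_of_ideal hβ hTs hTi hTr hTb hn J hfJ hJ

end ideal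

/-- The identity of `L`, with values in the field over `K`. -/
private noncomputable def idxD_incl {K L : IntermediateField k Ω} (h : K ≤ L) :
    L →ₐ[k] IntermediateField.extendScalars h where
  toFun x := ⟨(x : Ω), x.2⟩
  map_one' := rfl
  map_mul' _ _ := rfl
  map_zero' := rfl
  map_add' _ _ := rfl
  commutes' _ := rfl

theorem exists_ratR_of_splitBy {B : Type*} [Ring B] [Algebra k B] [Algebra.IsCentral k B]
    [IsSimpleRing B] [FiniteDimensional k B]
    {ρ : B →ₐ[k] Matrix (Fin n) (Fin n) Ω} {b : Basis ι k B} (hρ : ∀ i, β i = ρ (b i))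
    {K : IntermediateField k Ω} {l r : ℕ} (hl0 : 0 < l) (hln : l ≤ n)
    (L : Fin r → IntermediateField k Ω) (h : ∀ j, K ≤ L j)
    (hfin : ∀ j, FiniteDimensional K (IntermediateField.extendScalars (h j)))
    (hsum : ∑ j, finrank K (IntermediateField.extendScalars (h j)) = l)
    (hs : ∀ j, SplitBy k B (L j)) :
    ∃ U : Submodule Ω (Fin n → Ω), finrank Ω U = l ∧ RatR β K U := by
  have hn : 0 < n := lt_of_lt_of_le hl0 hln
  have hcard : finrank k B = n ^ 2 := by
    rw [Module.finrank_eq_card_basis b, ← Module.finrank_eq_card_basis β, Module.finrank_matrix,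
      Module.finrank_self, Fintype.card_fin, mul_one, sq]
  have hsimp : IsSimpleRing (K ⊗[k] B) := isSimpleRing_tensor k K B
  have hR : finrank K (K ⊗[k] B) = n ^ 2 := by
    rw [Module.finrank_baseChange, hcard]
  refine idxD_main (R := K ⊗[k] B) (T := (toMat K.val ρ).toRingHom) (isForm_of_rho hρ)
    (fun c x => toMat_smul K.val ρ c x) (toMat_injective hρ K.val) (fun x => ?_) (fun i => ?_)
    hn hln hR ⟨r, fun j => IntermediateField.extendScalars (h j), hfin, hsum, fun j => ?_⟩
  · have h1 := (ratV_iff_toMat hρ K.val (toMat K.val ρ x)).2 ⟨x, rfl⟩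
    rwa [IntermediateField.fieldRange_val] at h1
  · refine ⟨1 ⊗ₜ b i, ?_⟩
    show toMat K.val ρ (1 ⊗ₜ b i) = β i
    unfold toMat
    rw [Algebra.TensorProduct.lift_tmul, map_one, one_mul, hρ]
  · obtain ⟨a, -, ha, ⟨φ⟩⟩ := hs j
    have han : a = n := by
      rw [hcard] at ha
      exact Nat.pow_left_injective (n := 2) two_ne_zero ha
    subst han
    let φ' : B →ₐ[k] Matrix (Fin a) (Fin a) (IntermediateField.extendScalars (h j)) :=
      ((idxD_incl (h j)).mapMatrix).comp φ
    exact ⟨Algebra.TensorProduct.lift (Algebra.ofId K _) φ' fun c x => Algebra.commutes c (φ' x)⟩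

end Pool.Agent.H72.SB
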