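import Pool.Agent.H72.SB.Rho

/-!
# The form of the opposite algebra
-/

open Module Matrix TensorProduct

namespace Pool.Agent.H72.SB

variable {k Ω : Type*} [Field k] [Field Ω] [Algebra k Ω]
variable {ι : Type*} [Fintype ι] {n : ℕ}
variable {β : Basis ι Ω (Matrix (Fin n) (Fin n) Ω)}
variable {A : Type*} [Ring A] [Algebra k A] {ρ : A →ₐ[k] Matrix (Fin n) (Fin n) Ω}
variable {b : Basis ι k A}

theorem exists_op_form (hρ : ∀ i, β i = ρ (b i)) {B : Type*} [Ring B] [Algebra k B]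
    (e : B ≃ₐ[k] Aᵐᵒᵖ) :
    ∃ (ρ' : B →ₐ[k] Matrix (Fin n) (Fin n) Ω) (b' : Basis ι k B), ∀ i, tr β i = ρ' (b' i) := by
  let T : (Matrix (Fin n) (Fin n) Ω)ᵐᵒᵖ ≃ₐ[k] Matrix (Fin n) (Fin n) Ω :=
    (Matrix.transposeAlgEquiv (Fin n) k Ω).symm
  let b' : Basis ι k B := (b.map (MulOpposite.opLinearEquiv k)).map e.symm.toLinearEquiv
  refine ⟨(T.toAlgHom.comp (AlgHom.op ρ)).comp e.toAlgHom, b', fun i => ?_⟩
  have h1 : e (b' i) = MulOpposite.op (b i) := by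
    show e (e.symm (MulOpposite.op (b i))) = _
    simp
  show (β i)ᵀ = T (AlgHom.op ρ (e (b' i)))
  rw [h1, hρ]
  rfl

end Pool.Agent.H72.SB
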