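import Pool.Agent.H72.SB.Trd

/-!
# Function fields as rational function fields

Proof plan. `pres_trdeg`: let `F₀` be the field of definition of `U = colS (gr e γ y)`. The family
`Sum.elim y t` is a transcendence basis of `Ω / L` (`isTranscendenceBasis_of_pres`). For `K ≥ L` one
has `F₀ ≤ K` iff all `y i` are in `K` (`IsCell.iff`), so `F₀ ⊔ L` is the field generated by `L` and the
`y i`. Its transcendence degree over `k` (or over `L`) is the number `l * (n - l)` of the `y i`, and
`t` is algebraically independent over it (`AlgebraicIndependent.sumElim_iff` or similar), hence over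
the smaller field `F₀`; `F₀ ⊔ L` is algebraic over `F₀` because `L` is algebraic over `k`.

`nonempty_equiv_of_gen`: `F` is the field generated by `F₀` and the algebraically independent `t i`.
(`IntermediateField.adjoin F₀ (range t)` is isomorphic to the fraction field of the polynomial ring:
`AlgebraicIndependent.aevalEquivField` or `IsFractionRing` arguments.)
`nonempty_equiv_fractionRing`: functoriality.
-/

open Module Matrix

namespace Pool.Agent.H72.SB

section

variable {k Ω : Type*} [Field k] [Field Ω] [Algebra k Ω]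
variable {ι : Type*} [Fintype ι] {n : ℕ}
variable {β : Basis ι Ω (Matrix (Fin n) (Fin n) Ω)} {L : IntermediateField k Ω}

private theorem star_mono {F K : IntermediateField k Ω} (h : F ≤ K) {x : Ω}
    (hx : IsAlgebraic F x) : IsAlgebraic K x :=
  IsAlgebraic.tower_top_of_subalgebra_le (A := F.toSubalgebra) (B := K.toSubalgebra) h hx

private theorem star_indep {F K : IntermediateField k Ω} (h : F ≤ K) {N : ℕ} {t : Fin N → Ω}
    (ht : AlgebraicIndependent K t) : AlgebraicIndependent F t := by
  let _ : Algebra F K := (IntermediateField.inclusion h).toRingHom.toAlgebra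
  have : IsScalarTower F K Ω := IsScalarTower.of_algebraMap_eq (fun x => rfl)
  exact ht.restrictScalars (IntermediateField.inclusion h).injective

theorem pres_trdeg (hL : Algebra.IsAlgebraic k L) {D l N : ℕ}
    (hD : Algebra.trdeg k Ω = D) (hlN : l * (n - l) + N = D)
    {e : Matrix (Fin n) (Fin n) Ω} {γ : Fin (l * (n - l)) → Matrix (Fin n) (Fin n) Ω}
    (hc : IsCell β L l e γ) {y : Fin (l * (n - l)) → Ω} {t : Fin N → Ω}
    {F F₀ : IntermediateField k Ω} (hF : Algebra.trdeg k F = D)
    (h₀ : ∀ K : IntermediateField k Ω, F₀ ≤ K ↔ RatR β K (colS (gr e γ y)))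
    (h : ∀ K : IntermediateField k Ω, F ≤ K ↔ (F₀ ≤ K ∧ ∀ i, t i ∈ K)) :
    Algebra.trdeg k F₀ = (l * (n - l) : ℕ) ∧ AlgebraicIndependent F₀ t := by
  have hb : IsTranscendenceBasis L (Sum.elim y t) := by
    refine isTranscendenceBasis_of_pres hL hD hlN hc hF (fun K => ?_)
    rw [h K, h₀ K]
  -- independence over `L(y)`
  have h1 : AlgebraicIndependent L (Sum.elim t y) := by
    have h2 := hb.1.comp Sum.swap (Function.LeftInverse.injective Sum.swap_leftInverse)
    have h3 : Sum.elim y t ∘ Sum.swap = Sum.elim t y := by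
      ext x
      rcases x with x | x <;> rfl
    rwa [h3] at h2
  have h2 := (AlgebraicIndependent.sumElim_iff.1 h1).2
  let E : IntermediateField L Ω := IntermediateField.adjoin L (Set.range y)
  have h3 : AlgebraicIndependent E t := by
    open scoped IntermediateField.algebraAdjoinAdjoin in
    exact h2.extendScalars E
  let K : IntermediateField k Ω := E.restrictScalars k
  have hLK : L ≤ K := by
    intro x hx
    exact E.algebraMap_mem ⟨x, hx⟩
  have hF₀K : F₀ ≤ K := by
    rw [h₀ K, hc.iff K hLK y]
    intro i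
    exact IntermediateField.subset_adjoin L (Set.range y) ⟨i, rfl⟩
  have h4 : AlgebraicIndependent K t := h3
  have h5 : AlgebraicIndependent F₀ t := star_indep hF₀K h4
  refine ⟨?_, h5⟩
  -- `t` is a transcendence basis over `F₀`
  let E' : IntermediateField F₀ Ω := IntermediateField.adjoin F₀ (Set.range t)
  let K' : IntermediateField k Ω := E'.restrictScalars k
  have hFK : F ≤ K' := by
    rw [h K']
    refine ⟨fun x hx => E'.algebraMap_mem ⟨x, hx⟩, fun i => ?_⟩
    exact IntermediateField.subset_adjoin F₀ (Set.range t) ⟨i, rfl⟩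
  have hFalg := trd_alg hD hF
  have hE : Algebra.IsAlgebraic E' Ω := by
    refine ⟨fun x => ?_⟩
    have h6 : IsAlgebraic K' x := star_mono hFK (hFalg.isAlgebraic x)
    exact h6
  have hA : Algebra.IsAlgebraic (Algebra.adjoin F₀ (Set.range t)) Ω := by
    open scoped IntermediateField.algebraAdjoinAdjoin in
    exact Algebra.IsAlgebraic.trans (Algebra.adjoin F₀ (Set.range t)) E' Ω
  have hb' : IsTranscendenceBasis F₀ t := h5.isTranscendenceBasis_iff_isAlgebraic.2 hA
  have h7 : Algebra.trdeg F₀ Ω = (N : Cardinal) := by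
    have := hb'.lift_cardinalMk_eq_trdeg
    simpa using this.symm
  have h8 := _root_.trdeg_add_eq k F₀ (A := Ω)
  rw [h7, hD, ← hlN] at h8
  apply Cardinal.eq_of_add_eq_add_right (b := (N : Cardinal))
  · rw [h8]; push_cast; ring
  · exact Cardinal.natCast_lt_aleph0

theorem nonempty_equiv_of_gen {F F₀ : IntermediateField k Ω} {N : ℕ} {t : Fin N → Ω}
    (h : ∀ K : IntermediateField k Ω, F ≤ K ↔ (F₀ ≤ K ∧ ∀ i, t i ∈ K))
    (ht : AlgebraicIndependent F₀ t) :
    Nonempty (FractionRing (MvPolynomial (Fin N) F₀) ≃ₐ[k] F) := by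
  let E : IntermediateField F₀ Ω := IntermediateField.adjoin F₀ (Set.range t)
  let K : IntermediateField k Ω := E.restrictScalars k
  have h1 : K = F := by
    apply le_antisymm
    · obtain ⟨h2, h3⟩ := (h F).1 le_rfl
      have h4 : E ≤ IntermediateField.extendScalars h2 := by
        rw [IntermediateField.adjoin_le_iff]
        rintro _ ⟨i, rfl⟩
        exact h3 i
      intro x hx
      exact h4 hx
    · rw [h K]
      refine ⟨fun x hx => E.algebraMap_mem ⟨x, hx⟩, fun i => ?_⟩
      exact IntermediateField.subset_adjoin F₀ (Set.range t) ⟨i, rfl⟩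
  have e1 : FractionRing (MvPolynomial (Fin N) F₀) ≃ₐ[k] E := ht.aevalEquivField.restrictScalars k
  have e2 : FractionRing (MvPolynomial (Fin N) F₀) ≃ₐ[k] K := e1
  exact ⟨e2.trans (IntermediateField.equivOfEq h1)⟩

end

theorem nonempty_equiv_fractionRing {k F F' : Type*} [Field k] [Field F] [Field F'] [Algebra k F]
    [Algebra k F'] (e : F ≃ₐ[k] F') (N : ℕ) :
    Nonempty (FractionRing (MvPolynomial (Fin N) F) ≃ₐ[k]
      FractionRing (MvPolynomial (Fin N) F')) :=
  ⟨IsFractionRing.algEquivOfAlgEquiv (MvPolynomial.mapAlgEquiv (Fin N) e)⟩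

end Pool.Agent.H72.SB
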