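import Pool.Agent.H72.SB.Conc
import Pool.Agent.H72.SB.Star
import Pool.Agent.H72.SB.OpForm
import Pool.Agent.H72.SB.FormEx
import Pool.Agent.H72.SB.FinK
import Pool.Agent.H72.SB.Cyc
import Pool.Agent.H72.SB.Abs
import Pool.Agent.H72.SB.AbsInv
import Pool.Agent.H72.SB.CyclB
import Pool.Agent.H72.SB.IdxB
import Pool.Agent.H72.SB.IdxD

/-!
# Function fields of generalized Brauer-Severi varieties
-/

open Module Matrix TensorProduct

universe u

namespace Pool.Agent.H72.SB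

variable {k : Type u} [Field k]

/-- Existence of the function field. -/
theorem exists_functionField (A : CSA.{u, u} k) {n m : ℕ} (hA : finrank k A = n ^ 2)
    (hmn : m ≤ n) :
    ∃ (F : Type u) (_ : Field F) (_ : Algebra k F), IsFunctionField A m F := by
  obtain ⟨Ω, _, _, _, hΩ⟩ := exists_omega k (m * (n - m))
  obtain ⟨ρ, b, β, hρ, hs⟩ := exists_form (Ω := Ω) A hA
  have hL : Algebra.IsAlgebraic k (algebraicClosure k Ω) := inferInstance
  obtain ⟨W, hW, F, hF, ht⟩ := exists_generic (isForm_of_rho hρ) hL hs hmn hΩ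
  exact ⟨F, inferInstance, inferInstance, isFunctionField_of hA hρ hW hF ht⟩

section Infinite

variable [Infinite k]

theorem Pres.self {Ω : Type*} [Field Ω] [Algebra k Ω] {ι : Type*} [Fintype ι] {n : ℕ}
    {β : Basis ι Ω (Matrix (Fin n) (Fin n) Ω)} {W : Submodule Ω (Fin n → Ω)} {m : ℕ}
    (hW : finrank Ω W = m) {F : IntermediateField k Ω} (hF : ∀ K, F ≤ K ↔ RatR β K W) :
    Pres β m 0 F :=
  ⟨W, hW, Fin.elim0, fun K => by rw [hF K]; exact ⟨fun h => ⟨h, fun i => i.elim0⟩, fun h => h.1⟩⟩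

theorem IsFunctionField.trdeg {A : CSA.{u, u} k} {n m : ℕ} (hA : finrank k A = n ^ 2) {F : Type u}
    [Field F] [Algebra k F] (h : IsFunctionField A m F) :
    Algebra.trdeg k F = (m * (n - m) : ℕ) := by
  obtain ⟨n', hn', _, _, _, ht, _⟩ := h
  have : n' = n := by
    have h1 : n' ^ 2 = n ^ 2 := by rw [← hn', hA]
    exact Nat.pow_left_injective (n := 2) (by norm_num) h1
  rw [this] at ht
  exact ht

theorem trdeg_fieldRange {F Ω : Type u} [Field F] [Algebra k F] [Field Ω] [Algebra k Ω]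
    (f : F →ₐ[k] Ω) : Algebra.trdeg k f.fieldRange = Algebra.trdeg k F :=
  (AlgEquiv.ofInjectiveField f).trdeg_eq.symm

/-- Uniqueness of the function field. -/
theorem functionField_unique (A : CSA.{u, u} k) {n m : ℕ} (hA : finrank k A = n ^ 2)
    (hn : 0 < n) {F F' : Type u} [Field F] [Algebra k F] [Field F'] [Algebra k F']
    (h : IsFunctionField A m F) (h' : IsFunctionField A m F') : Nonempty (F ≃ₐ[k] F') := by
  obtain ⟨Ω, _, _, _, hΩ⟩ := exists_omega k (m * (n - m))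
  obtain ⟨ρ, b, β, hρ, hs⟩ := exists_form (Ω := Ω) A hA
  have hL : Algebra.IsAlgebraic k (algebraicClosure k Ω) := inferInstance
  obtain ⟨f⟩ := exists_embedding (h.trdeg hA) hΩ
  obtain ⟨f'⟩ := exists_embedding (h'.trdeg hA) hΩ
  obtain ⟨W, hW, hF⟩ := exists_of_isFunctionField hA hρ h f
  obtain ⟨W', hW', hF'⟩ := exists_of_isFunctionField hA hρ h' f'
  obtain ⟨σ, hσ⟩ := pres_unique (isForm_of_rho hρ) hL hs hn hΩ (by omega)
    (Pres.self hW hF) (Pres.self hW' hF')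
    (by rw [trdeg_fieldRange]; exact h.trdeg hA) (by rw [trdeg_fieldRange]; exact h'.trdeg hA)
  have e1 : F ≃ₐ[k] f.fieldRange := AlgEquiv.ofInjectiveField f
  have e2 : F' ≃ₐ[k] f'.fieldRange := AlgEquiv.ofInjectiveField f'
  have e3 : f.fieldRange ≃ₐ[k] (f.fieldRange.map (σ : Ω →ₐ[k] Ω)) :=
    IntermediateField.equivMap _ _
  have e4 : (f.fieldRange.map (σ : Ω →ₐ[k] Ω)) ≃ₐ[k] f'.fieldRange :=
    IntermediateField.equivOfEq hσ
  exact ⟨((e1.trans e3).trans e4).trans e2.symm⟩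

/-- `SB_m(A)` is birational to `SB_g(A) × 𝔸^N`. -/
theorem functionField_gcd (A : CSA.{u, u} k) {n m : ℕ} (hA : finrank k A = n ^ 2)
    (hm : 1 ≤ m) (hmn : m < n) {F₀ : Type u} [Field F₀] [Algebra k F₀]
    (h : IsFunctionField A (Nat.gcd m n) F₀) :
    IsFunctionField A m (FractionRing (MvPolynomial
      (Fin (m * (n - m) - Nat.gcd m n * (n - Nat.gcd m n))) F₀)) := by
  obtain ⟨Ω, _, _, _, hΩ⟩ := exists_omega k (m * (n - m))
  obtain ⟨ρ, b, β, hρ, hs⟩ := exists_form (Ω := Ω) A hA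
  have hL : Algebra.IsAlgebraic k (algebraicClosure k Ω) := inferInstance
  have hβ := isForm_of_rho hρ
  obtain ⟨W, hW, F, hF, ht⟩ := exists_generic hβ hL hs hmn.le hΩ
  obtain ⟨N, hN, U, hU, t, hUt⟩ := euclid_pres hβ hF hW hm hmn.le
  have hgn : Nat.gcd m n ≤ n := Nat.le_of_dvd (by omega) (Nat.gcd_dvd_right m n)
  have hN' : Nat.gcd m n * (n - Nat.gcd m n) + N = m * (n - m) := by
    have h1 : ((Nat.gcd m n * (n - Nat.gcd m n) + N : ℕ) : ℤ) = (m * (n - m) : ℕ) := by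
      push_cast [Nat.cast_sub hgn, Nat.cast_sub hmn.le]
      linear_combination hN
    exact_mod_cast h1
  have hN2 : m * (n - m) - Nat.gcd m n * (n - Nat.gcd m n) = N := by omega
  rw [hN2]
  obtain ⟨F₀', hF₀'⟩ := exists_fodR k β U
  obtain ⟨e', γ, y, _, hc, hUy, _⟩ := two_cell (K := algebraicClosure k Ω) hβ hU hU
    (hs ⟨0, by omega⟩ ⟨0, by omega⟩) (finrank_colS_single _)
  have hUt' : ∀ K : IntermediateField k Ω, F ≤ K ↔ (F₀' ≤ K ∧ ∀ i, t i ∈ K) := fun K => by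
    rw [hUt K, hF₀' K]
  obtain ⟨h1, h2⟩ := pres_trdeg hL hΩ hN' hc ht (F₀ := F₀')
    (fun K => by rw [← hUy]; exact (hF₀' K).symm) hUt'
  have h3 : IsFunctionField A (Nat.gcd m n) F₀' :=
    isFunctionField_of hA hρ hU (fun K => (hF₀' K).symm) h1
  obtain ⟨e0⟩ := functionField_unique A hA (by omega) h3 h
  obtain ⟨e1⟩ := nonempty_equiv_of_gen hUt' h2
  obtain ⟨e2⟩ := nonempty_equiv_fractionRing e0 N
  exact (isFunctionField_of hA hρ hW hF ht).congr_field (e1.symm.trans e2)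

/-- The index of an algebra in the subgroup generated by `A`. -/
theorem index_transfer {A B : CSA.{u, u} k} (hAB : InCyclic A B) {n : ℕ}
    {Ω : Type u} [Field Ω] [Algebra k Ω] [IsAlgClosed Ω]
    {ρ : A →ₐ[k] Matrix (Fin n) (Fin n) Ω} {b : Basis (Fin (n ^ 2)) k A}
    {β : Basis (Fin (n ^ 2)) Ω (Matrix (Fin n) (Fin n) Ω)} (hρ : ∀ i, β i = ρ (b i))
    {ρ' : B →ₐ[k] Matrix (Fin n) (Fin n) Ω} {b' : Basis (Fin (n ^ 2)) k B}
    {β' : Basis (Fin (n ^ 2)) Ω (Matrix (Fin n) (Fin n) Ω)} (hρ' : ∀ i, β' i = ρ' (b' i))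
    {l : ℕ} (hl : 0 < l) (hln : l ≤ n) (K : IntermediateField k Ω)
    (h : ∃ U : Submodule Ω (Fin n → Ω), finrank Ω U = l ∧ RatR β K U) :
    ∃ U : Submodule Ω (Fin n → Ω), finrank Ω U = l ∧ RatR β' K U := by
  obtain ⟨U, hU, hUr⟩ := h
  obtain ⟨r, L, hKL, hfin, hsum, hL⟩ := exists_fields (isForm_of_rho hρ) hU hl hUr
  refine exists_ratR_of_splitBy hρ' hl hln L hKL hfin hsum fun j => ?_
  obtain ⟨U', hU', hUr'⟩ := hL j
  exact SplitBy.of_inCyclic hAB (splitBy_of_ratR hρ hU' hUr')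

theorem arith_ineq {m n : ℕ} (h1 : 3 * Nat.gcd m n ≤ m) (h2 : 3 * Nat.gcd m n ≤ n - m)
    (hmn : m < n) (hm : 1 ≤ m) :
    2 * (Nat.gcd m n * (n - Nat.gcd m n)) ≤ m * (n - m) := by
  obtain ⟨g, hg⟩ : ∃ g, Nat.gcd m n = g := ⟨_, rfl⟩
  have hg0 : 0 < g := hg ▸ Nat.gcd_pos_of_pos_left _ hm
  obtain ⟨a, ha⟩ : g ∣ m := hg ▸ Nat.gcd_dvd_left m n
  obtain ⟨c, hc⟩ : g ∣ n - m :=
    hg ▸ Nat.dvd_sub (Nat.gcd_dvd_right m n) (Nat.gcd_dvd_left m n)
  have hn : n = g * (a + c) := by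
    rw [mul_add, ← ha, ← hc]; omega
  have hac : Nat.gcd a (a + c) = 1 := by
    have h3 : g * Nat.gcd a (a + c) = g * 1 := by
      rw [← Nat.gcd_mul_left, ← ha, ← hn, hg, mul_one]
    exact Nat.eq_of_mul_eq_mul_left hg0 h3
  rw [hg] at h1 h2 ⊢
  have h3 : 3 ≤ a := by
    rw [ha, mul_comm 3] at h1
    exact Nat.le_of_mul_le_mul_left h1 hg0
  have h4 : 3 ≤ c := by
    rw [hc, mul_comm 3] at h2
    exact Nat.le_of_mul_le_mul_left h2 hg0
  have h5 : a ≠ 3 ∨ c ≠ 3 := by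
    by_contra hcon
    push Not at hcon
    rw [hcon.1, hcon.2] at hac
    norm_num at hac
  have h6 : 2 * (a + c - 1) ≤ a * c := by
    obtain ⟨a', rfl⟩ := Nat.exists_eq_add_of_le h3
    obtain ⟨c', rfl⟩ := Nat.exists_eq_add_of_le h4
    have h7 : 1 ≤ a' + c' := by omega
    have h8 : 3 + a' + (3 + c') - 1 = 5 + a' + c' := by omega
    rw [h8]
    nlinarith
  have h7 : n - g = g * (a + c - 1) := by
    rw [hn, Nat.mul_sub, mul_one]
  rw [h7, hc, ha]
  calc 2 * (g * (g * (a + c - 1))) = g * g * (2 * (a + c - 1)) := by ring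
    _ ≤ g * g * (a * c) := Nat.mul_le_mul_left _ h6
    _ = g * a * (g * c) := by ring

/-- Algebras with the same cyclic subgroup. -/
theorem functionField_cyclic {A B : CSA.{u, u} k} {n m : ℕ} (hA : finrank k A = n ^ 2)
    (hB : finrank k B = n ^ 2) (hm : 1 ≤ m) (hmn : m < n) (hAB : InCyclic A B)
    (hBA : InCyclic B A) (h1 : 3 * Nat.gcd m n ≤ m) (h2 : 3 * Nat.gcd m n ≤ n - m)
    {F : Type u} [Field F] [Algebra k F] (h : IsFunctionField A m F) :
    IsFunctionField B m F := by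
  obtain ⟨Ω, _, _, _, hΩ⟩ := exists_omega k (m * (n - m))
  obtain ⟨ρ, b, β, hρ, hs⟩ := exists_form (Ω := Ω) A hA
  obtain ⟨ρ', b', β', hρ', hs'⟩ := exists_form (Ω := Ω) B hB
  have hL : Algebra.IsAlgebraic k (algebraicClosure k Ω) := inferInstance
  have hβ := isForm_of_rho hρ
  have hβ' := isForm_of_rho hρ'
  have hgn : Nat.gcd m n ≤ n := Nat.le_of_dvd (by omega) (Nat.gcd_dvd_right m n)
  have hg0 : 0 < Nat.gcd m n := Nat.gcd_pos_of_pos_left _ hm
  have key : ∀ N : ℕ, (N : ℤ) + (Nat.gcd m n : ℕ) * (n - (Nat.gcd m n : ℕ)) = m * (n - m) →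
      Nat.gcd m n * (n - Nat.gcd m n) + N = m * (n - m) := by
    intro N hN
    have h1 : ((Nat.gcd m n * (n - Nat.gcd m n) + N : ℕ) : ℤ) = (m * (n - m) : ℕ) := by
      push_cast [Nat.cast_sub hgn, Nat.cast_sub hmn.le]
      linear_combination hN
    exact_mod_cast h1
  obtain ⟨W, hW, F₁, hF₁, ht₁⟩ := exists_generic hβ hL hs hmn.le hΩ
  obtain ⟨W', hW', F₂, hF₂, ht₂⟩ := exists_generic hβ' hL hs' hmn.le hΩ
  obtain ⟨N₁, hN₁, hP₁⟩ := euclid_pres hβ hF₁ hW hm hmn.le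
  obtain ⟨N₂, hN₂, hP₂⟩ := euclid_pres hβ' hF₂ hW' hm hmn.le
  have hN₁' := key N₁ hN₁
  have hN₂' := key N₂ hN₂
  have hN : N₂ = N₁ := by omega
  rw [hN] at hP₂
  have hineq := arith_ineq h1 h2 hmn hm
  have hP₃ := pres_swap hβ hβ' hg0 (Nat.gcd_dvd_right m n)
    (fun K => index_transfer hAB hρ hρ' hg0 hgn K)
    (fun K => index_transfer hBA hρ' hρ hg0 hgn K) hP₁ (by omega)
  obtain ⟨σ, hσ⟩ := pres_unique hβ' hL hs' (by omega) hΩ hN₁' hP₃ hP₂ ht₁ ht₂
  have hFA := isFunctionField_of hA hρ hW hF₁ ht₁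
  have hFB := isFunctionField_of hB hρ' hW' hF₂ ht₂
  have e3 : F₁ ≃ₐ[k] (F₁.map (σ : Ω →ₐ[k] Ω)) := IntermediateField.equivMap _ _
  have e4 : (F₁.map (σ : Ω →ₐ[k] Ω)) ≃ₐ[k] F₂ := IntermediateField.equivOfEq hσ
  obtain ⟨e0⟩ := functionField_unique A hA (by omega) h hFA
  exact hFB.congr_field ((e0.trans (e3.trans e4)).symm)

/-- The opposite algebra. -/
theorem functionField_op {A B : CSA.{u, u} k} {n m : ℕ} (hA : finrank k A = n ^ 2)
    (hm : 1 ≤ m) (hmn : m < n) (e : B ≃ₐ[k] (A : Type u)ᵐᵒᵖ)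
    {F : Type u} [Field F] [Algebra k F] (h : IsFunctionField A m F) :
    IsFunctionField B m F := by
  have hB : finrank k B = n ^ 2 := by
    rw [e.toLinearEquiv.finrank_eq, ← hA]
    exact (MulOpposite.opLinearEquiv k).finrank_eq.symm
  obtain ⟨Ω, _, _, _, hΩ⟩ := exists_omega k (m * (n - m))
  obtain ⟨ρ, b, β, hρ, hs⟩ := exists_form (Ω := Ω) A hA
  obtain ⟨ρ', b', hρ'⟩ := exists_op_form hρ e
  have hL : Algebra.IsAlgebraic k (algebraicClosure k Ω) := inferInstance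
  have hβ := isForm_of_rho hρ
  have hs' : ∀ i j, RatV (tr β) (algebraicClosure k Ω) (Matrix.single i j (1 : Ω)) := by
    intro i j
    rw [ratV_tr, Matrix.transpose_single]
    exact hs j i
  have hgn : Nat.gcd m n ≤ n := Nat.le_of_dvd (by omega) (Nat.gcd_dvd_right m n)
  obtain ⟨W, hW, F₁, hF₁, ht₁⟩ := exists_generic hβ hL hs hmn.le hΩ
  obtain ⟨W', hW', F₂, hF₂, ht₂⟩ := exists_generic hβ.tr hL hs' hmn.le hΩ
  obtain ⟨N₁, hN₁, hP₁⟩ := euclid_pres hβ hF₁ hW hm hmn.le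
  have hF₂' : ∀ K, F₂ ≤ K ↔ RatR β K (perp W') := fun K => by
    rw [hF₂ K]
    constructor
    · intro h; exact ratR_tr_tr.1 (ratR_perp hβ.tr h)
    · intro h
      have := ratR_perp hβ h
      rwa [perp_perp] at this
  have hW'' : finrank Ω (perp W') = n - m := by
    have := finrank_perp W'
    omega
  obtain ⟨N₂, hN₂, hP₂⟩ := euclid_pres hβ hF₂' hW'' (by omega) (by omega)
  have hg : Nat.gcd (n - m) n = Nat.gcd m n := by
    have h1 := Nat.sub_add_cancel hmn.le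
    conv_lhs => rw [← h1]
    conv_rhs => rw [← h1]
    simp [Nat.gcd_comm]
  rw [hg] at hN₂ hP₂
  have hN : N₂ = N₁ := by
    have h1 : (N₂ : ℤ) = N₁ := by
      push_cast [Nat.cast_sub hmn.le] at hN₂
      linear_combination hN₂ - hN₁
    exact_mod_cast h1
  rw [hN] at hP₂
  have hN₁' : Nat.gcd m n * (n - Nat.gcd m n) + N₁ = m * (n - m) := by
    have h1 : ((Nat.gcd m n * (n - Nat.gcd m n) + N₁ : ℕ) : ℤ) = (m * (n - m) : ℕ) := by
      push_cast [Nat.cast_sub hgn, Nat.cast_sub hmn.le]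
      linear_combination hN₁
    exact_mod_cast h1
  obtain ⟨σ, hσ⟩ := pres_unique hβ hL hs (by omega) hΩ hN₁' hP₁ hP₂ ht₁ ht₂
  have hFA := isFunctionField_of hA hρ hW hF₁ ht₁
  have hFB : IsFunctionField B m F₂ := isFunctionField_of hB hρ' hW' hF₂ ht₂
  have e3 : F₁ ≃ₐ[k] (F₁.map (σ : Ω →ₐ[k] Ω)) := IntermediateField.equivMap _ _
  have e4 : (F₁.map (σ : Ω →ₐ[k] Ω)) ≃ₐ[k] F₂ := IntermediateField.equivOfEq hσ
  obtain ⟨e0⟩ := functionField_unique A hA (by omega) h hFA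
  exact hFB.congr_field ((e0.trans (e3.trans e4)).symm)

end Infinite

end Pool.Agent.H72.SB
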