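import Pool.Agent.H72.SB.Idem

/-!
# Rational coordinates on an open cell of a Grassmannian

Proof plan. Let `e` be the `K`-rational projection onto `U' ⊔ V₃` along `V₂ ⊔ V₄` (`exists_proj`), `f`
the `K`-rational projection onto `V₂` along `U' ⊔ V₃ ⊔ V₄`, `g` the `K`-rational projection onto `V₃`
along `U' ⊔ V₂ ⊔ V₄`. Let `S` be the space of all matrices `f * X * g`, i.e. of all `Y` with
`f * Y = Y` and `Y * g = Y`; it is the image of the `K`-rational linear map `X ↦ f * X * g`
(`RatS.map`, `RatV.mul`), and its dimension is `finrank V₃ * finrank V₂`. Let `γ` be a basis as in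
`RatS.exists_basis`. For `Y` in `S` one has `e * Y = 0`, `Y * e = Y` (as `g * e = g`), `Y * Y = 0`, so
`π = e + Y` is a projection, its kernel is the kernel of `e`, i.e. `V₂ ⊔ V₄`, and its rank is the
rank of `e`. If `colS π` is `K'`-rational then so is `π` (`ratV_of_proj`), hence `Y = π - e`, hence
the coordinates of `Y` (`RatS.exists_basis`); the converse is `ratR_colS`.
For the last statement let `π` be the projection onto `U` along `V₂ ⊔ V₄`; then `Y = π - e` satisfies
`f * Y = Y` and `Y * g = Y`: `π` and `e` agree on `U'` and on `V₂ ⊔ V₄`, and for `v` in `V₃` the vector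
`v - π v` is in `V₂`.
-/

open Module Matrix

namespace Pool.Agent.H72.SB

variable {k Ω : Type*} [Field k] [Field Ω] [Algebra k Ω]
variable {ι : Type*} [Fintype ι] {n : ℕ}

/-- The matrix `e + ∑ i, t i • γ i`. -/
def gr {r : ℕ} (e : Matrix (Fin n) (Fin n) Ω) (γ : Fin r → Matrix (Fin n) (Fin n) Ω)
    (t : Fin r → Ω) : Matrix (Fin n) (Fin n) Ω := e + ∑ i, t i • γ i

/-- `gr e γ t` are projections of rank `m`, `colS (gr e γ t)` is `K'`-rational iff all `t i` are
in `K'`. -/
structure IsCell {k Ω : Type*} [Field k] [Field Ω] [Algebra k Ω] {ι : Type*} {n : ℕ}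
    (β : Basis ι Ω (Matrix (Fin n) (Fin n) Ω)) (K : IntermediateField k Ω) (m : ℕ) {r : ℕ}
    (e : Matrix (Fin n) (Fin n) Ω) (γ : Fin r → Matrix (Fin n) (Fin n) Ω) : Prop where
  rat_e : RatV β K e
  rat_γ : ∀ i, RatV β K (γ i)
  idem : ∀ t, gr e γ t * gr e γ t = gr e γ t
  rank : ∀ t, finrank Ω (colS (gr e γ t)) = m
  iff : ∀ K', K ≤ K' → ∀ t, RatR β K' (colS (gr e γ t)) ↔ ∀ i, t i ∈ K'

/-- `X v = v` for `v` in the image of a projection. -/
private theorem mulVec_of_mem_colS {X : Matrix (Fin n) (Fin n) Ω} (hX : X * X = X)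
    {v : Fin n → Ω} (hv : v ∈ colS X) : X *ᵥ v = v := by
  obtain ⟨w, rfl⟩ := mem_colS.1 hv
  rw [Matrix.mulVec_mulVec, hX]

private theorem ext_mulVec {X Y : Matrix (Fin n) (Fin n) Ω} (h : ∀ v, X *ᵥ v = Y *ᵥ v) : X = Y := by
  ext i j
  have := congrFun (h (Pi.single j 1)) i
  simpa using this

private theorem mul_eq_zero_of {X Y : Matrix (Fin n) (Fin n) Ω}
    (h : colS Y ≤ LinearMap.ker X.mulVecLin) : X * Y = 0 := by
  refine ext_mulVec fun v => ?_
  rw [← Matrix.mulVec_mulVec, Matrix.zero_mulVec]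
  exact h ⟨v, rfl⟩

/-- `v - X v` is in the kernel of a projection `X`. -/
private theorem sub_mem_ker {X : Matrix (Fin n) (Fin n) Ω} (hX : X * X = X) (v : Fin n → Ω) :
    v - X *ᵥ v ∈ LinearMap.ker X.mulVecLin := by
  rw [LinearMap.mem_ker, Matrix.mulVecLin_apply, Matrix.mulVec_sub, Matrix.mulVec_mulVec, hX,
    sub_self]

private theorem mul_eq_of_ker {X Y : Matrix (Fin n) (Fin n) Ω} (hX : X * X = X)
    (h : LinearMap.ker X.mulVecLin ≤ LinearMap.ker Y.mulVecLin) : Y * X = Y := by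
  refine ext_mulVec fun v => ?_
  have h1 := h (sub_mem_ker hX v)
  rw [LinearMap.mem_ker, Matrix.mulVecLin_apply, Matrix.mulVec_sub, sub_eq_zero] at h1
  rw [← Matrix.mulVec_mulVec]
  exact h1.symm

/-- The matrices `Y` with `f Y = Y` and `Y g = Y`. -/
private def fg (f g : Matrix (Fin n) (Fin n) Ω) : Submodule Ω (Matrix (Fin n) (Fin n) Ω) where
  carrier := {Y | f * Y = Y ∧ Y * g = Y}
  add_mem' := fun {a b} ha hb => ⟨by rw [mul_add, ha.1, hb.1], by rw [add_mul, ha.2, hb.2]⟩
  zero_mem' := ⟨mul_zero _, zero_mul _⟩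
  smul_mem' := fun c a ha => ⟨by rw [mul_smul_comm, ha.1], by rw [smul_mul_assoc, ha.2]⟩

private theorem ratS_fg {β : Basis ι Ω (Matrix (Fin n) (Fin n) Ω)} {K : IntermediateField k Ω}
    (hβ : IsForm k β) {f g : Matrix (Fin n) (Fin n) Ω} (hf : RatV β K f) (hg : RatV β K g)
    (hff : f * f = f) (hgg : g * g = g) : RatS β K (fg f g) := by
  have h1 : fg f g = (⊤ : Submodule Ω (Matrix (Fin n) (Fin n) Ω)).map
      ((LinearMap.mulLeft Ω f).comp (LinearMap.mulRight Ω g)) := by
    ext Y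
    constructor
    · intro h
      refine ⟨Y, trivial, ?_⟩
      rw [LinearMap.comp_apply, LinearMap.mulRight_apply, LinearMap.mulLeft_apply, h.2, h.1]
    · rintro ⟨X, _, rfl⟩
      rw [LinearMap.comp_apply, LinearMap.mulRight_apply, LinearMap.mulLeft_apply]
      exact ⟨by rw [← mul_assoc, hff], by rw [mul_assoc, mul_assoc, hgg]⟩
  rw [h1]
  refine RatS.map (β := β) (fun i => ?_) ratS_top
  rw [LinearMap.comp_apply, LinearMap.mulRight_apply, LinearMap.mulLeft_apply]
  exact hf.mul hβ ((ratV_basis i).mul hβ hg)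

private theorem mulVec_mem_of_fg {f g Y : Matrix (Fin n) (Fin n) Ω} (hY : Y ∈ fg f g)
    (v : Fin n → Ω) : Y *ᵥ v ∈ colS f :=
  mem_colS.2 ⟨Y *ᵥ v, by rw [Matrix.mulVec_mulVec, hY.1]⟩

/-- `fg f g` is the space of linear maps from the image of `g` to the image of `f`. -/
private noncomputable def fgEquiv {f g : Matrix (Fin n) (Fin n) Ω} (hff : f * f = f)
    (hgg : g * g = g) : fg f g ≃ₗ[Ω] (colS g →ₗ[Ω] colS f) where
  toFun Y := (Y.1.mulVecLin.codRestrict (colS f) fun v => mulVec_mem_of_fg Y.2 v).comp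
    (colS g).subtype
  map_add' X Y := by
    ext v
    simp
  map_smul' c X := by
    ext v
    simp
  invFun L := ⟨LinearMap.toMatrix' ((colS f).subtype.comp (L.comp
      (g.mulVecLin.codRestrict (colS g) fun v => ⟨v, rfl⟩))), by
    constructor
    · refine ext_mulVec fun v => ?_
      rw [← Matrix.mulVec_mulVec]
      rw [LinearMap.toMatrix'_mulVec]
      exact mulVec_of_mem_colS hff (L _).2
    · refine ext_mulVec fun v => ?_
      rw [← Matrix.mulVec_mulVec]
      rw [LinearMap.toMatrix'_mulVec, LinearMap.toMatrix'_mulVec]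
      simp only [LinearMap.comp_apply]
      congr 2
      apply Subtype.ext
      show g *ᵥ (g *ᵥ v) = g *ᵥ v
      rw [Matrix.mulVec_mulVec, hgg]⟩
  left_inv Y := by
    apply Subtype.ext
    refine ext_mulVec fun v => ?_
    rw [LinearMap.toMatrix'_mulVec]
    show Y.1 *ᵥ (g *ᵥ v) = Y.1 *ᵥ v
    rw [Matrix.mulVec_mulVec, Y.2.2]
  right_inv L := by
    refine LinearMap.ext fun v => ?_
    apply Subtype.ext
    show (LinearMap.toMatrix' _) *ᵥ (v : Fin n → Ω) = _
    rw [LinearMap.toMatrix'_mulVec]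
    simp only [LinearMap.comp_apply]
    show ((L _ : colS f) : Fin n → Ω) = L v
    congr 2
    apply Subtype.ext
    exact mulVec_of_mem_colS hgg v.2

private theorem finrank_fg {f g : Matrix (Fin n) (Fin n) Ω} (hff : f * f = f)
    (hgg : g * g = g) : finrank Ω (fg f g) = finrank Ω (colS g) * finrank Ω (colS f) := by
  rw [(fgEquiv hff hgg).finrank_eq, Module.finrank_linearMap]

omit [Fintype ι] in
private theorem ratR_any {β : Basis ι Ω (Matrix (Fin n) (Fin n) Ω)}
    (U : Submodule Ω (Fin n → Ω)) : RatR β (⊤ : IntermediateField k Ω) U :=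
  fun _ hx => Submodule.subset_span ⟨hx, fun _ => IntermediateField.mem_top⟩

theorem exists_cell {β : Basis ι Ω (Matrix (Fin n) (Fin n) Ω)} {K : IntermediateField k Ω}
    (hβ : IsForm k β) {U' V₂ V₃ V₄ : Submodule Ω (Fin n → Ω)}
    (hU' : RatR β K U') (hV₂ : RatR β K V₂) (hV₃ : RatR β K V₃) (hV₄ : RatR β K V₄)
    (h3 : U' ⊓ V₃ = ⊥) (h2 : (U' ⊔ V₃) ⊓ V₂ = ⊥) (h4 : IsCompl (U' ⊔ V₃ ⊔ V₂) V₄) :
    ∃ (e : Matrix (Fin n) (Fin n) Ω)
      (γ : Fin (finrank Ω V₃ * finrank Ω V₂) → Matrix (Fin n) (Fin n) Ω),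
      IsCell β K (finrank Ω U' + finrank Ω V₃) e γ ∧
      ∀ U, U' ≤ U → U ⊓ V₂ = ⊥ → U ⊔ V₂ = U' ⊔ V₃ ⊔ V₂ → ∃ t, U = colS (gr e γ t) := by
  have hA : IsCompl (U' ⊔ V₃) (V₂ ⊔ V₄) :=
    (disjoint_iff.2 h2).isCompl_sup_right_of_isCompl_sup_left h4
  have hB : IsCompl V₂ (U' ⊔ V₃ ⊔ V₄) :=
    (disjoint_iff.2 h2).symm.isCompl_sup_right_of_isCompl_sup_left (by rwa [sup_comm])
  have hC : IsCompl V₃ (U' ⊔ (V₂ ⊔ V₄)) :=
    (disjoint_iff.2 h3).symm.isCompl_sup_right_of_isCompl_sup_left (by rwa [sup_comm V₃])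
  obtain ⟨e, her, hee, hec, hek⟩ := exists_proj hβ (hU'.sup hV₃) (hV₂.sup hV₄) hA
  obtain ⟨f, hfr, hff, hfc, hfk⟩ := exists_proj hβ hV₂ ((hU'.sup hV₃).sup hV₄) hB
  obtain ⟨g, hgr, hgg, hgc, hgk⟩ := exists_proj hβ hV₃ (hU'.sup (hV₂.sup hV₄)) hC
  have hef : e * f = 0 := mul_eq_zero_of (by rw [hfc, hek]; exact le_sup_left)
  have hgf : g * f = 0 := mul_eq_zero_of (by
    rw [hfc, hgk]; exact le_sup_left.trans le_sup_right)
  have hge : g * e = g := mul_eq_of_ker hee (by rw [hek, hgk]; exact le_sup_right)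
  -- the elements of the cell
  have h_eY : ∀ Y ∈ fg f g, e * Y = 0 := fun Y hY => by
    rw [← hY.1, ← mul_assoc, hef, zero_mul]
  have h_Ye : ∀ Y ∈ fg f g, Y * e = Y := fun Y hY => by
    rw [← hY.2, mul_assoc, hge]
  have h_YY : ∀ Y ∈ fg f g, Y * Y = 0 := fun Y hY => by
    have h1 : Y * Y = (Y * g) * (f * Y) := by rw [hY.1, hY.2]
    rw [h1, mul_assoc, ← mul_assoc g f, hgf, zero_mul, mul_zero]
  have h_id : ∀ Y ∈ fg f g, (e + Y) * (e + Y) = e + Y := fun Y hY => by
    rw [add_mul, mul_add, mul_add, hee, h_eY Y hY, h_Ye Y hY, h_YY Y hY, add_zero, add_zero]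
  have h_ker : ∀ Y ∈ fg f g, LinearMap.ker (e + Y).mulVecLin = LinearMap.ker e.mulVecLin := by
    intro Y hY
    ext v
    rw [LinearMap.mem_ker, LinearMap.mem_ker, Matrix.mulVecLin_apply, Matrix.mulVecLin_apply]
    constructor
    · intro h
      have h1 : e *ᵥ ((e + Y) *ᵥ v) = e *ᵥ v := by
        rw [Matrix.mulVec_mulVec, mul_add, hee, h_eY Y hY, add_zero]
      rw [← h1, h, Matrix.mulVec_zero]
    · intro h
      have h1 : Y *ᵥ v = 0 := by
        rw [← h_Ye Y hY, ← Matrix.mulVec_mulVec, h, Matrix.mulVec_zero]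
      rw [Matrix.add_mulVec, h, h1, add_zero]
  have h_rank : ∀ Y ∈ fg f g, finrank Ω (colS (e + Y)) = finrank Ω U' + finrank Ω V₃ := by
    intro Y hY
    have h1 := LinearMap.finrank_range_add_finrank_ker (e + Y).mulVecLin
    have h2 := LinearMap.finrank_range_add_finrank_ker e.mulVecLin
    rw [h_ker Y hY] at h1
    have h3' : finrank Ω (colS (e + Y)) = finrank Ω (colS e) := by
      unfold colS; omega
    rw [h3', hec]
    have h4' := Submodule.finrank_sup_add_finrank_inf_eq U' V₃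
    rw [h3, finrank_bot, add_zero] at h4'
    exact h4'
  have hdim : finrank Ω (fg f g) = finrank Ω V₃ * finrank Ω V₂ := by
    rw [finrank_fg hff hgg, hgc, hfc]
  have key := (ratS_fg hβ hfr hgr hff hgg).exists_basis
  rw [hdim] at key
  obtain ⟨γ, hγr, hγ⟩ := key
  have hsum : ∀ t : Fin (finrank Ω V₃ * finrank Ω V₂) → Ω,
      ∑ i, t i • ((γ i : fg f g) : Matrix (Fin n) (Fin n) Ω) =
        ((∑ i, t i • γ i : fg f g) : Matrix (Fin n) (Fin n) Ω) := fun t => by
    simp only [Submodule.coe_sum, Submodule.coe_smul]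
  have hgr' : ∀ t : Fin (finrank Ω V₃ * finrank Ω V₂) → Ω,
      gr e (fun i => ((γ i : fg f g) : Matrix (Fin n) (Fin n) Ω)) t =
        e + ((∑ i, t i • γ i : fg f g) : Matrix (Fin n) (Fin n) Ω) := fun t => by
    unfold gr; rw [hsum]
  have hrepr : ∀ (t : Fin (finrank Ω V₃ * finrank Ω V₂) → Ω) i,
      γ.repr (∑ j, t j • γ j) i = t i := fun t i => by
    rw [map_sum, Finsupp.finsetSum_apply]
    simp [Finsupp.single_apply]
  refine ⟨e, fun i => ((γ i : fg f g) : Matrix (Fin n) (Fin n) Ω), ?_, ?_⟩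
  · refine ⟨her, hγr, ?_, ?_, ?_⟩
    · intro t
      rw [hgr']
      exact h_id _ (Subtype.prop _)
    · intro t
      rw [hgr']
      exact h_rank _ (Subtype.prop _)
    · intro K' hK t
      rw [hgr']
      have h5 := hγ K' hK (∑ i, t i • γ i)
      simp only [hrepr] at h5
      rw [← h5]
      have heK : RatV β K' e := her.mono hK
      constructor
      · intro h
        have h6 : RatV β K' (e + ((∑ i, t i • γ i : fg f g) : Matrix (Fin n) (Fin n) Ω)) := by
          refine ratV_of_proj hβ (h_id _ (Subtype.prop _)) h ?_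
          rw [h_ker _ (Subtype.prop _), hek]
          exact (hV₂.sup hV₄).mono hK
        have h7 := h6.sub heK
        rwa [add_sub_cancel_left] at h7
      · intro h
        exact ratR_colS hβ (heK.add h)
  · intro U hU1 hU2 hU3
    have hU : IsCompl U (V₂ ⊔ V₄) :=
      (disjoint_iff.2 hU2).isCompl_sup_right_of_isCompl_sup_left (by rwa [hU3])
    obtain ⟨π, _, hππ, hπc, hπk⟩ :=
      exists_proj hβ (ratR_any (k := k) (β := β) U) (ratR_any (k := k) (β := β) (V₂ ⊔ V₄)) hU
    have hY : π - e ∈ fg f g := by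
      constructor
      · refine ext_mulVec fun v => ?_
        rw [← Matrix.mulVec_mulVec]
        refine mulVec_of_mem_colS hff ?_
        rw [hfc]
        have h5 : π *ᵥ v ∈ U' ⊔ V₃ ⊔ V₂ := by
          rw [← hU3]
          refine Submodule.mem_sup_left ?_
          rw [← hπc]
          exact ⟨v, rfl⟩
        obtain ⟨a, ha, b, hb, hab⟩ := Submodule.mem_sup.1 h5
        have h6 : e *ᵥ v = e *ᵥ (π *ᵥ v) := by
          have h7 : v - π *ᵥ v ∈ LinearMap.ker e.mulVecLin := by
            rw [hek, ← hπk]; exact sub_mem_ker hππ v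
          rw [LinearMap.mem_ker, Matrix.mulVecLin_apply, Matrix.mulVec_sub, sub_eq_zero] at h7
          exact h7
        have h8 : e *ᵥ a = a := mulVec_of_mem_colS hee (by rw [hec]; exact ha)
        have h9 : e *ᵥ b = 0 := by
          have : b ∈ LinearMap.ker e.mulVecLin := by
            rw [hek]; exact Submodule.mem_sup_left hb
          exact this
        rw [Matrix.sub_mulVec, h6, ← hab, Matrix.mulVec_add, h8, h9, add_zero,
          add_sub_cancel_left]
        exact hb
      · refine mul_eq_of_ker hgg ?_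
        rw [hgk]
        refine sup_le ?_ ?_
        · intro v hv
          rw [LinearMap.mem_ker, Matrix.mulVecLin_apply, Matrix.sub_mulVec,
            mulVec_of_mem_colS hππ (by rw [hπc]; exact hU1 hv),
            mulVec_of_mem_colS hee (by rw [hec]; exact Submodule.mem_sup_left hv), sub_self]
        · intro v hv
          have h5 : π *ᵥ v = 0 := by
            have : v ∈ LinearMap.ker π.mulVecLin := by rw [hπk]; exact hv
            exact this
          have h6 : e *ᵥ v = 0 := by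
            have : v ∈ LinearMap.ker e.mulVecLin := by rw [hek]; exact hv
            exact this
          rw [LinearMap.mem_ker, Matrix.mulVecLin_apply, Matrix.sub_mulVec, h5, h6, sub_self]
    refine ⟨fun i => γ.repr ⟨π - e, hY⟩ i, ?_⟩
    rw [hgr']
    have h5 : (∑ i, γ.repr ⟨π - e, hY⟩ i • γ i : fg f g) = ⟨π - e, hY⟩ := γ.sum_repr _
    rw [h5]
    show U = colS (e + (π - e))
    rw [add_sub_cancel, hπc]

end Pool.Agent.H72.SB
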