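import Pool.Agent.H72.SB.Form

/-!
# Rational complements and rational projections

Proof plan. `exists_compl_rat` (semisimplicity). Let `U₀ ≠ ⊥` be a `K`-rational subspace of minimal
dimension. For `K`-rational `X` the image `X U₀ = U₀.map X.mulVecLin` is `⊥` or again minimal:
a `K`-rational `Z ≤ X U₀` gives the `K`-rational `U₀ ⊓ Z.comap X` (`RatR.comap`, `RatR.inf`), which
is `⊥` or `U₀`. If `V` is `K`-rational and contains `X U₀` for all `K`-rational `X` then `V = ⊤`,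
because the `K`-rational `X` span `Mₙ(Ω)` over `Ω` (`β i` is `K`-rational, `ratV_basis`) and `Mₙ(Ω)`
moves a nonzero vector of `U₀` to every vector. Let `W` be a `K`-rational subspace of maximal
dimension with `U ⊓ W = ⊥`. If `U ⊔ W ≠ ⊤` choose `X` with `X U₀ ≰ U ⊔ W`; then
`X U₀ ⊓ (U ⊔ W) = ⊥` by minimality and `W ⊔ X U₀` contradicts the maximality of `W`.

`exists_proj`: `RI U ⊔ RI W = RI (U ⊔ W) = ⊤` (`RI_sup`, `RI_top`) contains the `K`-rational `1`, so
`1 = e + f` with `e ∈ RI U` and `f ∈ RI W` both `K`-rational (`RatS.split`); `e` is the projection.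
-/

open Module Matrix

namespace Pool.Agent.H72.SB

variable {k Ω : Type*} [Field k] [Field Ω] [Algebra k Ω]
variable {ι : Type*} [Fintype ι] {n : ℕ}
variable {β : Basis ι Ω (Matrix (Fin n) (Fin n) Ω)} {K : IntermediateField k Ω}
variable {U V W : Submodule Ω (Fin n → Ω)}

/-- A subspace which contains all `β i` images of a nonzero subspace is everything. -/
private theorem eq_top_of_map_le {U₀ V : Submodule Ω (Fin n → Ω)} (h0 : U₀ ≠ ⊥)
    (h : ∀ i, U₀.map (β i).mulVecLin ≤ V) : V = ⊤ := by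
  obtain ⟨u, hu, hu0⟩ := Submodule.exists_mem_ne_zero_of_ne_bot h0
  obtain ⟨j, hj⟩ : ∃ j, u j ≠ 0 := by
    by_contra hcon
    push Not at hcon
    exact hu0 (funext hcon)
  refine eq_top_iff.2 fun v _ => ?_
  have h1 : ∀ M : Matrix (Fin n) (Fin n) Ω, M *ᵥ u ∈ V := by
    intro M
    have h2 : M *ᵥ u = ∑ i, β.repr M i • (β i *ᵥ u) := by
      conv_lhs => rw [← β.sum_repr M]
      rw [Matrix.sum_mulVec]
      exact Finset.sum_congr rfl fun i _ => Matrix.smul_mulVec _ _ _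
    rw [h2]
    exact Submodule.sum_mem _ fun i _ => V.smul_mem _ (h i ⟨u, hu, rfl⟩)
  have h3 : Matrix.vecMulVec v (Pi.single j (u j)⁻¹) *ᵥ u = v := by
    ext i
    simp only [Matrix.mulVec, dotProduct, Matrix.vecMulVec_apply]
    rw [Finset.sum_eq_single j]
    · rw [Pi.single_eq_same, mul_assoc, inv_mul_cancel₀ hj, mul_one]
    · intro b _ hb
      rw [Pi.single_eq_of_ne hb, mul_zero, zero_mul]
    · intro hn
      exact absurd (Finset.mem_univ j) hn
  rw [← h3]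
  exact h1 _

theorem exists_compl_rat (hβ : IsForm k β) (hU : RatR β K U) :
    ∃ W : Submodule Ω (Fin n → Ω), RatR β K W ∧ IsCompl U W := by
  by_cases htriv : (⊤ : Submodule Ω (Fin n → Ω)) = ⊥
  · refine ⟨⊥, ratR_bot, ?_⟩
    constructor
    · exact disjoint_bot_right
    · rw [codisjoint_iff, sup_bot_eq]
      exact le_antisymm le_top (htriv ▸ bot_le)
  obtain ⟨U₀, ⟨hU₀, hU₀0⟩, hmin⟩ := (wellFounded_lt (α := Submodule Ω (Fin n → Ω))).has_min
    {V | RatR β K V ∧ V ≠ ⊥} ⟨⊤, ratR_top, htriv⟩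
  have hA : ∀ X : Matrix (Fin n) (Fin n) Ω, RatV β K X → ∀ Z : Submodule Ω (Fin n → Ω),
      RatR β K Z → U₀.map X.mulVecLin ⊓ Z ≠ ⊥ → U₀.map X.mulVecLin ≤ Z := by
    intro X hX Z hZ hne
    have h1 : RatR β K (U₀ ⊓ Z.comap X.mulVecLin) := hU₀.inf (RatR.comap hβ hX hZ)
    have h2 : U₀ ⊓ Z.comap X.mulVecLin ≠ ⊥ := by
      obtain ⟨z, hz, hz0⟩ := Submodule.exists_mem_ne_zero_of_ne_bot hne
      obtain ⟨⟨u, hu, rfl⟩, hzZ⟩ := hz
      intro hbot
      have h3 : u ∈ U₀ ⊓ Z.comap X.mulVecLin := ⟨hu, hzZ⟩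
      rw [hbot, Submodule.mem_bot] at h3
      exact hz0 (by rw [h3, map_zero])
    have h4 : ¬ (U₀ ⊓ Z.comap X.mulVecLin < U₀) := hmin _ ⟨h1, h2⟩
    have h5 : U₀ ⊓ Z.comap X.mulVecLin = U₀ := by
      by_contra hne'
      exact h4 (lt_of_le_of_ne inf_le_left hne')
    rw [Submodule.map_le_iff_le_comap]
    exact inf_eq_left.1 h5
  obtain ⟨W, ⟨hW, hUW⟩, hmax⟩ := (wellFounded_gt (α := Submodule Ω (Fin n → Ω))).has_min
    {V | RatR β K V ∧ U ⊓ V = ⊥} ⟨⊥, ratR_bot, inf_bot_eq _⟩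
  refine ⟨W, hW, disjoint_iff.2 hUW, ?_⟩
  rw [codisjoint_iff]
  by_contra hne
  obtain ⟨i, hi⟩ : ∃ i, ¬ U₀.map (β i).mulVecLin ≤ U ⊔ W := by
    by_contra hcon
    push Not at hcon
    exact hne (eq_top_of_map_le hU₀0 hcon)
  have hbi : RatV β K (β i) := ratV_basis i
  have h1 : U₀.map (β i).mulVecLin ⊓ (U ⊔ W) = ⊥ := by
    by_contra hcon
    exact hi (hA _ hbi _ (hU.sup hW) hcon)
  refine hmax (W ⊔ U₀.map (β i).mulVecLin) ⟨hW.sup (RatR.map hβ hbi hU₀), ?_⟩ ?_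
  · rw [eq_bot_iff]
    rintro u ⟨huU, hu2⟩
    obtain ⟨w, hw, y, hy, hwy⟩ := Submodule.mem_sup.1 hu2
    have hy2 : y ∈ U₀.map (β i).mulVecLin ⊓ (U ⊔ W) := by
      refine ⟨hy, ?_⟩
      have h3 : y = u - w := by rw [← hwy]; abel
      rw [h3]
      exact Submodule.sub_mem _ (Submodule.mem_sup_left huU) (Submodule.mem_sup_right hw)
    rw [h1, Submodule.mem_bot] at hy2
    rw [hy2, add_zero] at hwy
    have h4 : u ∈ U ⊓ W := ⟨huU, hwy ▸ hw⟩
    rwa [hUW] at h4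
  · show W < W ⊔ U₀.map (β i).mulVecLin
    refine lt_of_le_of_ne le_sup_left fun heq => hi ?_
    calc U₀.map (β i).mulVecLin ≤ W ⊔ U₀.map (β i).mulVecLin := le_sup_right
      _ = W := heq.symm
      _ ≤ U ⊔ W := le_sup_right

theorem exists_proj (hβ : IsForm k β) (hU : RatR β K U) (hW : RatR β K W) (h : IsCompl U W) :
    ∃ e, RatV β K e ∧ e * e = e ∧ colS e = U ∧ LinearMap.ker e.mulVecLin = W := by
  have h1 : (1 : Matrix (Fin n) (Fin n) Ω) ∈ RI U ⊔ RI W := by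
    rw [← RI_sup, h.sup_eq_top, RI_top]
    trivial
  obtain ⟨e, he, f, hf, heK, _, hef⟩ := RatS.split hU hW (hβ.ratV_one K) h1
  have hx : ∀ x, x = e *ᵥ x + f *ᵥ x := by
    intro x
    rw [← Matrix.add_mulVec, ← hef, Matrix.one_mulVec]
  have hbot : ∀ y, y ∈ U → y ∈ W → y = 0 := by
    intro y hy1 hy2
    have h2 : y ∈ U ⊓ W := ⟨hy1, hy2⟩
    rwa [h.inf_eq_bot, Submodule.mem_bot] at h2
  have heU : ∀ u ∈ U, e *ᵥ u = u := by
    intro u hu
    have h2 : f *ᵥ u = 0 := by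
      refine hbot _ ?_ (hf u)
      have h3 : f *ᵥ u = u - e *ᵥ u := by
        rw [eq_sub_iff_add_eq, add_comm]
        exact (hx u).symm
      rw [h3]
      exact U.sub_mem hu (he u)
    have h4 := hx u
    rw [h2, add_zero] at h4
    exact h4.symm
  have heW : ∀ w ∈ W, e *ᵥ w = 0 := by
    intro w hw
    refine hbot _ (he w) ?_
    have h3 : e *ᵥ w = w - f *ᵥ w := by
      rw [eq_sub_iff_add_eq]
      exact (hx w).symm
    rw [h3]
    exact W.sub_mem hw (hf w)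
  refine ⟨e, heK, ?_, ?_, ?_⟩
  · apply Matrix.mulVec_injective
    funext x
    rw [← Matrix.mulVec_mulVec]
    exact heU _ (he x)
  · refine le_antisymm (mem_RI_iff.1 he) fun u hu => ?_
    exact ⟨u, heU u hu⟩
  · refine le_antisymm (fun x hxk => ?_) fun w hw => heW w hw
    have h2 : e *ᵥ x = 0 := hxk
    have h3 := hx x
    rw [h2, zero_add] at h3
    rw [h3]
    exact hf x

theorem exists_idem (hβ : IsForm k β) (hU : RatR β K U) :
    ∃ e, RatV β K e ∧ e * e = e ∧ colS e = U := by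
  obtain ⟨W, hW, h⟩ := exists_compl_rat hβ hU
  obtain ⟨e, he, hee, heU, _⟩ := exists_proj hβ hU hW h
  exact ⟨e, he, hee, heU⟩

/-- A projection with rational image and kernel is rational. -/
theorem ratV_of_proj (hβ : IsForm k β) {e : Matrix (Fin n) (Fin n) Ω} (he : e * e = e)
    (h1 : RatR β K (colS e)) (h2 : RatR β K (LinearMap.ker e.mulVecLin)) : RatV β K e := by
  have hcol : ∀ e : Matrix (Fin n) (Fin n) Ω, e * e = e → ∀ u ∈ colS e, e *ᵥ u = u := by
    rintro e he u ⟨v, rfl⟩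
    show e *ᵥ (e *ᵥ v) = e *ᵥ v
    rw [Matrix.mulVec_mulVec, he]
  have hdec : ∀ x, e *ᵥ (x - e *ᵥ x) = 0 := by
    intro x
    rw [Matrix.mulVec_sub, Matrix.mulVec_mulVec, he, sub_self]
  have hc : IsCompl (colS e) (LinearMap.ker e.mulVecLin) := by
    constructor
    · rw [disjoint_iff, eq_bot_iff]
      rintro u ⟨hu1, hu2⟩
      have h3 : e *ᵥ u = 0 := hu2
      rw [hcol e he u hu1] at h3
      exact (Submodule.mem_bot Ω).2 h3
    · rw [codisjoint_iff, eq_top_iff]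
      intro x _
      exact Submodule.mem_sup.2 ⟨e *ᵥ x, ⟨x, rfl⟩, x - e *ᵥ x, hdec x, by abel⟩
  obtain ⟨e', he'K, he', hcol', hker'⟩ := exists_proj hβ h1 h2 hc
  have heq : e = e' := by
    apply Matrix.mulVec_injective
    funext x
    have h3 : e' *ᵥ (x - e *ᵥ x) = 0 := by
      have h4 : x - e *ᵥ x ∈ LinearMap.ker e'.mulVecLin := by
        rw [hker']
        exact hdec x
      exact h4
    have h5 : e' *ᵥ (e *ᵥ x) = e *ᵥ x := by
      refine hcol e' he' _ ?_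
      rw [hcol']
      exact ⟨x, rfl⟩
    rw [Matrix.mulVec_sub, h5, sub_eq_zero] at h3
    exact h3.symm
  rw [heq]
  exact he'K

/-- A rational complement inside `V`. -/
theorem exists_compl_rat_in (hβ : IsForm k β) (hU : RatR β K U) (hV : RatR β K V) (h : U ≤ V) :
    ∃ W ≤ V, RatR β K W ∧ U ⊓ W = ⊥ ∧ U ⊔ W = V := by
  obtain ⟨W, hW, hc⟩ := exists_compl_rat hβ hU
  refine ⟨W ⊓ V, inf_le_right, hW.inf hV, ?_, ?_⟩
  · rw [← inf_assoc, hc.inf_eq_bot, bot_inf_eq]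
  · rw [← sup_inf_assoc_of_le W h, hc.sup_eq_top, top_inf_eq]

end Pool.Agent.H72.SB
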