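import Pool.Agent.H72.SB.Defs

/-!
# Rational vectors and rational subspaces

Main tool: for a `K`-linear map `lam : Ω → K` let `lamE β lam x = ∑ i, lam (β.repr x i) • β i`. It is
additive, maps to `K`-rational vectors, and `lamE (c • x) = lam c • x` for `K`-rational `x`. Hence
`S` is `K`-rational if and only if `lamE` maps `S` to itself for all `lam`.
-/

open Module Matrix

namespace Pool.Agent.H72.SB

variable {k Ω : Type*} [Field k] [Field Ω] [Algebra k Ω]
variable {E ι : Type*} [AddCommGroup E] [Module Ω E]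
variable {β : Basis ι Ω E} {K K' : IntermediateField k Ω} {x y : E} {S S' : Submodule Ω E}

theorem RatV.mono (h : K ≤ K') (hx : RatV β K x) : RatV β K' x := fun i => h (hx i)

theorem RatV.add (hx : RatV β K x) (hy : RatV β K y) : RatV β K (x + y) := fun i => by
  rw [map_add]; exact K.add_mem (hx i) (hy i)

theorem RatV.neg (hx : RatV β K x) : RatV β K (-x) := fun i => by
  rw [map_neg]; exact K.neg_mem (hx i)

theorem RatV.sub (hx : RatV β K x) (hy : RatV β K y) : RatV β K (x - y) := fun i => by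
  rw [map_sub]; exact K.sub_mem (hx i) (hy i)

theorem RatV.smul {c : Ω} (hc : c ∈ K) (hx : RatV β K x) : RatV β K (c • x) := fun i => by
  rw [map_smul]; exact K.mul_mem hc (hx i)

theorem ratV_zero : RatV β K (0 : E) := fun i => by
  rw [map_zero]; exact K.zero_mem

theorem RatV.sum {κ : Type*} {s : Finset κ} {f : κ → E} (h : ∀ a ∈ s, RatV β K (f a)) :
    RatV β K (∑ a ∈ s, f a) := by
  classical
  induction s using Finset.induction_on with
  | empty => rw [Finset.sum_empty]; exact ratV_zero
  | insert a s ha ih =>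
    rw [Finset.sum_insert ha]
    exact (h a (Finset.mem_insert_self a s)).add
      (ih fun b hb => h b (Finset.mem_insert_of_mem hb))

theorem ratV_basis (i : ι) : RatV β K (β i) := fun j => by
  classical
  rw [Basis.repr_self, Finsupp.single_apply]
  split_ifs
  · exact K.one_mem
  · exact K.zero_mem

theorem RatS.mono (h : K ≤ K') (hS : RatS β K S) : RatS β K' S :=
  hS.trans (Submodule.span_mono fun _ hx => ⟨hx.1, hx.2.mono h⟩)

theorem ratS_span {s : Set E} (hs : ∀ x ∈ s, RatV β K x) : RatS β K (Submodule.span Ω s) :=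
  Submodule.span_mono fun _ hx => ⟨Submodule.subset_span hx, hs _ hx⟩

theorem ratS_bot : RatS β K (⊥ : Submodule Ω E) := bot_le

theorem ratS_top : RatS β K (⊤ : Submodule Ω E) := by
  intro x _
  rw [← β.linearCombination_repr x]
  rw [Finsupp.linearCombination_apply, Finsupp.sum]
  exact Submodule.sum_mem _ fun i _ =>
    Submodule.smul_mem _ _ (Submodule.subset_span ⟨trivial, ratV_basis i⟩)

theorem RatS.sup (hS : RatS β K S) (hS' : RatS β K S') : RatS β K (S ⊔ S') := by
  refine sup_le (hS.trans (Submodule.span_mono fun _ hx => ⟨?_, hx.2⟩))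
    (hS'.trans (Submodule.span_mono fun _ hx => ⟨?_, hx.2⟩))
  · exact Submodule.mem_sup_left hx.1
  · exact Submodule.mem_sup_right hx.1

/-- The map induced by a functional. -/
noncomputable def lamE (β : Basis ι Ω E) [Fintype ι] (lam : Ω →ₗ[K] K) (x : E) : E :=
  ∑ i, (lam (β.repr x i) : Ω) • β i

theorem lamE_ratV [Fintype ι] (lam : Ω →ₗ[K] K) (x : E) : RatV β K (lamE β lam x) :=
  RatV.sum fun i _ => (ratV_basis i).smul (lam (β.repr x i)).2

theorem lamE_add [Fintype ι] (lam : Ω →ₗ[K] K) (x y : E) :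
    lamE β lam (x + y) = lamE β lam x + lamE β lam y := by
  unfold lamE
  rw [← Finset.sum_add_distrib]
  refine Finset.sum_congr rfl fun i _ => ?_
  rw [map_add, Finsupp.add_apply, map_add]
  push_cast
  rw [add_smul]

theorem lamE_zero [Fintype ι] (lam : Ω →ₗ[K] K) : lamE β lam (0 : E) = 0 := by
  unfold lamE
  refine Finset.sum_eq_zero fun i _ => ?_
  rw [map_zero, Finsupp.zero_apply, map_zero]
  simp

theorem lamE_smul [Fintype ι] (lam : Ω →ₗ[K] K) (c : Ω) (hx : RatV β K x) :
    lamE β lam (c • x) = (lam c : Ω) • x := by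
  unfold lamE
  conv_rhs => rw [← β.sum_repr x, Finset.smul_sum]
  refine Finset.sum_congr rfl fun i _ => ?_
  rw [map_smul, Finsupp.smul_apply, smul_smul]
  congr 1
  have h1 : c • β.repr x i = (⟨β.repr x i, hx i⟩ : K) • c := by
    show c * β.repr x i = β.repr x i * c
    ring
  rw [h1, map_smul, smul_eq_mul]
  push_cast
  ring

theorem lamE_sum [Fintype ι] (lam : Ω →ₗ[K] K) {κ : Type*} (s : Finset κ) (f : κ → E) :
    lamE β lam (∑ a ∈ s, f a) = ∑ a ∈ s, lamE β lam (f a) := by
  classical
  induction s using Finset.induction_on with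
  | empty => rw [Finset.sum_empty, Finset.sum_empty]; exact lamE_zero lam
  | insert a s ha ih => rw [Finset.sum_insert ha, Finset.sum_insert ha, lamE_add, ih]

theorem lamE_mem [Fintype ι] (lam : Ω →ₗ[K] K) (hS : RatS β K S) (hx : x ∈ S) :
    lamE β lam x ∈ S := by
  have h := hS hx
  obtain ⟨m, f, g, rfl⟩ := Submodule.mem_span_set'.1 h
  rw [lamE_sum]
  refine Submodule.sum_mem _ fun i _ => ?_
  rw [lamE_smul _ _ (g i).2.2]
  exact Submodule.smul_mem _ _ (g i).2.1

/-- A `K`-linear retraction of `Ω` to `K`. -/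
theorem exists_retraction (K : IntermediateField k Ω) :
    ∃ lam : Ω →ₗ[K] K, ∀ c (hc : c ∈ K), lam c = ⟨c, hc⟩ := by
  obtain ⟨g, hg⟩ := (Algebra.linearMap K Ω).exists_leftInverse_of_injective
    (LinearMap.ker_eq_bot.2 Subtype.val_injective)
  exact ⟨g, fun c hc => LinearMap.congr_fun hg ⟨c, hc⟩⟩

theorem lamE_eq [Fintype ι] {lam : Ω →ₗ[K] K} (hl : ∀ c (hc : c ∈ K), lam c = ⟨c, hc⟩)
    (hx : RatV β K x) : lamE β lam x = x := by
  unfold lamE
  conv_rhs => rw [← β.sum_repr x]
  refine Finset.sum_congr rfl fun i _ => ?_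
  rw [hl _ (hx i)]

theorem ratS_of_lamE [Fintype ι] (h : ∀ lam : Ω →ₗ[K] K, ∀ x ∈ S, lamE β lam x ∈ S) :
    RatS β K S := by
  classical
  intro x hx
  let B := Basis.ofVectorSpace K Ω
  let J : Finset _ := Finset.univ.biUnion fun i : ι => (B.repr (β.repr x i)).support
  have h1 : x = ∑ j ∈ J, B j • lamE β (B.coord j) x := by
    unfold lamE
    simp_rw [Finset.smul_sum]
    rw [Finset.sum_comm]
    conv_lhs => rw [← β.sum_repr x]
    refine Finset.sum_congr rfl fun i _ => ?_
    simp_rw [smul_smul]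
    rw [← Finset.sum_smul]
    congr 1
    conv_lhs => rw [← B.linearCombination_repr (β.repr x i)]
    rw [Finsupp.linearCombination_apply, Finsupp.sum]
    refine Finset.sum_subset_zero_on_sdiff ?_ ?_ ?_
    · intro j hj
      exact Finset.mem_biUnion.2 ⟨i, Finset.mem_univ i, hj⟩
    · intro j hj
      have : B.repr (β.repr x i) j = 0 := by
        by_contra hne
        exact (Finset.mem_sdiff.1 hj).2 (Finsupp.mem_support_iff.2 hne)
      rw [Basis.coord_apply, this]
      simp
    · intro j _
      show (B.repr (β.repr x i) j : Ω) * B j = B j * (B.coord j (β.repr x i) : Ω)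
      rw [Basis.coord_apply, mul_comm]
  rw [h1]
  exact Submodule.sum_mem _ fun j _ =>
    Submodule.smul_mem _ _ (Submodule.subset_span ⟨h _ x hx, lamE_ratV _ x⟩)

theorem RatS.inf [Fintype ι] (hS : RatS β K S) (hS' : RatS β K S') : RatS β K (S ⊓ S') :=
  ratS_of_lamE fun lam _ hx => ⟨lamE_mem lam hS hx.1, lamE_mem lam hS' hx.2⟩

theorem RatS.split [Fintype ι] (hS : RatS β K S) (hS' : RatS β K S') (hx : RatV β K x)
    (hxS : x ∈ S ⊔ S') : ∃ y ∈ S, ∃ z ∈ S', RatV β K y ∧ RatV β K z ∧ x = y + z := by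
  obtain ⟨lam, hl⟩ := exists_retraction K
  obtain ⟨y, hy, z, hz, rfl⟩ := Submodule.mem_sup.1 hxS
  refine ⟨lamE β lam y, lamE_mem lam hS hy, lamE β lam z, lamE_mem lam hS' hz, lamE_ratV lam y,
    lamE_ratV lam z, ?_⟩
  rw [← lamE_add, lamE_eq hl hx]

section

variable {E' ι' : Type*} [AddCommGroup E'] [Module Ω E'] {β' : Basis ι' Ω E'}

theorem RatV.map [Fintype ι] {f : E →ₗ[Ω] E'} (hf : ∀ i, RatV β' K (f (β i)))
    (hx : RatV β K x) : RatV β' K (f x) := by
  rw [← β.sum_repr x, map_sum]
  refine RatV.sum fun i _ => ?_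
  rw [map_smul]
  exact (hf i).smul (hx i)

theorem RatS.map [Fintype ι] {f : E →ₗ[Ω] E'} (hf : ∀ i, RatV β' K (f (β i)))
    (hS : RatS β K S) : RatS β' K (S.map f) := by
  rintro _ ⟨x, hx, rfl⟩
  have h := hS hx
  refine Submodule.span_induction (p := fun x _ => f x ∈ Submodule.span Ω
    {y | y ∈ S.map f ∧ RatV β' K y}) ?_ ?_ ?_ ?_ h
  · intro y hy
    exact Submodule.subset_span ⟨Submodule.mem_map_of_mem hy.1, hy.2.map hf⟩
  · rw [map_zero]; exact Submodule.zero_mem _
  · intro a b _ _ ha hb
    rw [map_add]; exact Submodule.add_mem _ ha hb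
  · intro c a _ ha
    rw [map_smul]; exact Submodule.smul_mem _ _ ha

theorem lamE_map [Fintype ι] [Fintype ι'] {f : E →ₗ[Ω] E'} (hf : ∀ i, RatV β' K (f (β i)))
    (lam : Ω →ₗ[K] K) (x : E) : f (lamE β lam x) = lamE β' lam (f x) := by
  conv_rhs => rw [← β.sum_repr x, map_sum, lamE_sum]
  unfold lamE
  rw [map_sum]
  refine Finset.sum_congr rfl fun i _ => ?_
  rw [map_smul, map_smul]
  exact (lamE_smul lam _ (hf i)).symm

theorem RatS.comap [Fintype ι] [Fintype ι'] {f : E →ₗ[Ω] E'} {T : Submodule Ω E'}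
    (hf : ∀ i, RatV β' K (f (β i))) (hT : RatS β' K T) : RatS β K (T.comap f) :=
  ratS_of_lamE fun lam x hx => by
    rw [Submodule.mem_comap, lamE_map hf]
    exact lamE_mem lam hT hx

theorem ratS_ker [Fintype ι] [Fintype ι'] {f : E →ₗ[Ω] E'}
    (hf : ∀ i, RatV β' K (f (β i))) : RatS β K (LinearMap.ker f) :=
  RatS.comap hf ratS_bot

end

/-- A rational basis of a rational subspace. -/
theorem RatS.exists_basis [Fintype ι] (hS : RatS β K S) :
    ∃ γ : Basis (Fin (finrank Ω S)) Ω S, (∀ i, RatV β K (γ i : E)) ∧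
      ∀ K', K ≤ K' → ∀ x : S, (RatV β K' (x : E) ↔ ∀ i, γ.repr x i ∈ K') := by
  classical
  have hfin : FiniteDimensional Ω E := β.finiteDimensional_of_finite
  let s : Set S := {x | RatV β K (x : E)}
  have hs : (⊤ : Submodule Ω S) ≤ Submodule.span Ω s := by
    rintro ⟨x, hx⟩ _
    obtain ⟨m, f, g, hfg⟩ := Submodule.mem_span_set'.1 (hS hx)
    have : (⟨x, hx⟩ : S) = ∑ i, f i • (⟨(g i : E), (g i).2.1⟩ : S) := by
      apply Subtype.ext
      show x = _
      rw [← hfg]
      simp
    rw [this]
    exact Submodule.sum_mem _ fun i _ =>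
      Submodule.smul_mem _ _ (Submodule.subset_span (g i).2.2)
  let γ0 := Basis.ofSpan hs
  have hγ0 : ∀ i, RatV β K (γ0 i : E) := fun i => Basis.ofSpan_subset hs ⟨i, rfl⟩
  have : Finite _ := Module.Finite.finite_basis γ0
  let _ := Fintype.ofFinite ((linearIndepOn_empty Ω id).extend (Set.empty_subset s))
  let e : _ ≃ Fin (finrank Ω S) := Fintype.equivFinOfCardEq (finrank_eq_card_basis γ0).symm
  refine ⟨γ0.reindex e, fun i => by rw [Basis.reindex_apply]; exact hγ0 _, ?_⟩
  intro K' hK x
  have hγ : ∀ i, RatV β K' ((γ0.reindex e) i : E) := fun i => by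
    rw [Basis.reindex_apply]; exact (hγ0 _).mono hK
  generalize γ0.reindex e = γ at hγ
  constructor
  · intro hx i
    obtain ⟨lam, hl⟩ := exists_retraction K'
    have h1 : (x : E) = ∑ j, γ.repr x j • (γ j : E) := by
      have := congrArg (fun z : S => (z : E)) (γ.sum_repr x)
      simp only [Submodule.coe_sum, Submodule.coe_smul] at this
      exact this.symm
    have h2 : (x : E) = ∑ j, (lam (γ.repr x j) : Ω) • (γ j : E) := by
      conv_lhs => rw [← lamE_eq hl hx, h1, lamE_sum]
      exact Finset.sum_congr rfl fun j _ => lamE_smul lam _ (hγ j)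
    have h3 : x = ∑ j, (lam (γ.repr x j) : Ω) • γ j := by
      apply Subtype.ext
      rw [h2]
      simp
    have h4 : γ.repr x i = (lam (γ.repr x i) : Ω) := by
      conv_lhs => rw [h3]
      rw [map_sum, Finsupp.finset_sum_apply]
      simp [Finsupp.single_apply]
    rw [h4]
    exact (lam _).2
  · intro h
    have h1 : (x : E) = ∑ j, γ.repr x j • (γ j : E) := by
      have := congrArg (fun z : S => (z : E)) (γ.sum_repr x)
      simp only [Submodule.coe_sum, Submodule.coe_smul] at this
      exact this.symm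
    rw [h1]
    exact RatV.sum fun j _ => (hγ j).smul (h j)

/-- The field of definition of a subspace. -/
theorem exists_fod [Fintype ι] (k : Type*) [Field k] [Algebra k Ω] (β : Basis ι Ω E)
    (S : Submodule Ω E) : ∃ K₀ : IntermediateField k Ω, ∀ K, RatS β K S ↔ K₀ ≤ K := by
  classical
  obtain ⟨κ, a, ha, hsp, hli⟩ := exists_linearIndependent' Ω fun i => S.mkQ (β i)
  have : Finite κ := Finite.of_injective a ha
  let _ := Fintype.ofFinite κ
  have htop : Submodule.span Ω (Set.range fun i => S.mkQ (β i)) = ⊤ := by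
    have : (Set.range fun i => S.mkQ (β i)) = S.mkQ '' (Set.range β) := by
      rw [← Set.range_comp]; rfl
    rw [this, ← Submodule.map_span, β.span_eq, Submodule.map_top, Submodule.range_mkQ]
  rw [htop] at hsp
  have hc : ∀ i, ∃ c : κ → Ω, β i - ∑ j, c j • β (a j) ∈ S := by
    intro i
    have h1 : S.mkQ (β i) ∈ Submodule.span Ω (Set.range ((fun i => S.mkQ (β i)) ∘ a)) := by
      rw [hsp]; trivial
    obtain ⟨c, hc⟩ := (Submodule.mem_span_range_iff_exists_fun _).1 h1
    refine ⟨c, ?_⟩
    rw [← S.ker_mkQ, LinearMap.mem_ker, map_sub, map_sum, sub_eq_zero, ← hc]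
    exact Finset.sum_congr rfl fun j _ => (map_smul _ _ _).symm
  choose c hc using hc
  refine ⟨IntermediateField.adjoin k (Set.range fun p : ι × κ => c p.1 p.2), fun K => ?_⟩
  rw [IntermediateField.adjoin_le_iff]
  constructor
  · rintro hS _ ⟨⟨i, j⟩, rfl⟩
    have hT : RatS β K (Submodule.span Ω (Set.range fun j => β (a j))) :=
      ratS_span (by rintro _ ⟨j, rfl⟩; exact ratV_basis _)
    have hmem : β i ∈ S ⊔ Submodule.span Ω (Set.range fun j => β (a j)) := by
      rw [Submodule.mem_sup]
      refine ⟨_, hc i, ∑ j, c i j • β (a j), ?_, by simp⟩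
      exact Submodule.sum_mem _ fun j _ =>
        Submodule.smul_mem _ _ (Submodule.subset_span ⟨j, rfl⟩)
    obtain ⟨y, hy, z, hz, _, hzr, hyz⟩ := hS.split hT (ratV_basis i) hmem
    obtain ⟨d, hd⟩ := (Submodule.mem_span_range_iff_exists_fun _).1 hz
    have hdc : ∀ j, d j = c i j := by
      have h1 : ∑ j, (d j - c i j) • S.mkQ (β (a j)) = 0 := by
        have h2 : S.mkQ z = S.mkQ (∑ j, c i j • β (a j)) := by
          rw [← sub_eq_zero, ← map_sub, ← LinearMap.mem_ker, S.ker_mkQ]
          have h3 : z - ∑ j, c i j • β (a j) = (β i - ∑ j, c i j • β (a j)) - y := by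
            rw [hyz]; abel
          rw [h3]
          exact S.sub_mem (hc i) hy
        rw [← hd, map_sum, map_sum] at h2
        simp_rw [sub_smul]
        rw [Finset.sum_sub_distrib, sub_eq_zero]
        simpa only [map_smul] using h2
      intro j
      have := Fintype.linearIndependent_iff.1 hli (fun j => d j - c i j) h1 j
      exact sub_eq_zero.1 this
    have hdK : d j ∈ K := by
      have h1 := hzr (a j)
      rw [← hd, map_sum, Finsupp.finset_sum_apply] at h1
      simpa [Finsupp.single_apply, ha.eq_iff] using h1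
    show c i j ∈ K
    rw [← hdc j]
    exact hdK
  · intro h x hx
    have h1 : ∀ i, β i - ∑ j, c i j • β (a j) ∈
        Submodule.span Ω {x | x ∈ S ∧ RatV β K x} := fun i =>
      Submodule.subset_span ⟨hc i, (ratV_basis i).sub
        (RatV.sum fun j _ => (ratV_basis _).smul (h ⟨(i, j), rfl⟩))⟩
    have h2 : x - ∑ j, (∑ i, β.repr x i * c i j) • β (a j) ∈
        Submodule.span Ω {x | x ∈ S ∧ RatV β K x} := by
      have h3 : x - ∑ j, (∑ i, β.repr x i * c i j) • β (a j) =
          ∑ i, β.repr x i • (β i - ∑ j, c i j • β (a j)) := by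
        conv_lhs => rw [← β.sum_repr x]
        simp_rw [smul_sub, Finset.sum_sub_distrib, Finset.smul_sum, Finset.sum_smul, smul_smul]
        rw [Finset.sum_comm (f := fun i j => (β.repr x i * c i j) • β (a j))]
        simp
      rw [h3]
      exact Submodule.sum_mem _ fun i _ => Submodule.smul_mem _ _ (h1 i)
    have h4 : ∑ j, (∑ i, β.repr x i * c i j) • β (a j) ∈ S := by
      have h5 : Submodule.span Ω {x | x ∈ S ∧ RatV β K x} ≤ S :=
        Submodule.span_le.2 fun _ hx => hx.1
      have := S.sub_mem hx (h5 h2)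
      simpa using this
    have h6 : ∀ j, ∑ i, β.repr x i * c i j = 0 := by
      have h7 : ∑ j, (∑ i, β.repr x i * c i j) • S.mkQ (β (a j)) = 0 := by
        have := (LinearMap.mem_ker (f := S.mkQ)).1 (by rw [S.ker_mkQ]; exact h4)
        rw [map_sum] at this
        simpa only [map_smul] using this
      exact Fintype.linearIndependent_iff.1 hli _ h7
    simpa [h6] using h2

end Pool.Agent.H72.SB
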