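import Pool.Agent.H72.SB.Compl
import Pool.Agent.H72.SB.Graph

/-!
# Generators of the field of definition of a subspace
-/

open Module Matrix

namespace Pool.Agent.H72.SB

variable {k Ω : Type*} [Field k] [Field Ω] [Algebra k Ω]
variable {ι : Type*} [Fintype ι] {n : ℕ}
variable {β : Basis ι Ω (Matrix (Fin n) (Fin n) Ω)} {K : IntermediateField k Ω}

theorem param [Infinite k] (hβ : IsForm k β) {U' U V : Submodule Ω (Fin n → Ω)}
    (h1 : U' ≤ U) (h2 : U ≤ V) (hU' : RatR β K U') (hV : RatR β K V)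
    {e : Matrix (Fin n) (Fin n) Ω} (he : RatV β K e) (hl : 0 < finrank Ω (colS e))
    (hdvd : finrank Ω (colS e) ∣ finrank Ω V - finrank Ω U) :
    ∃ t : Fin ((finrank Ω U - finrank Ω U') * (finrank Ω V - finrank Ω U)) → Ω,
      ∀ K', K ≤ K' → (RatR β K' U ↔ ∀ i, t i ∈ K') := by
  obtain ⟨V₂, hV₂V, hV₂, hi, hs, _, _⟩ :=
    exists_common_compl hβ h2 h2 rfl hV he hl hdvd
  obtain ⟨V₃, hV₃V, hV₃, hi3, hs3⟩ :=
    exists_compl_rat_in hβ (hU'.sup hV₂) hV (sup_le (h1.trans h2) hV₂V)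
  obtain ⟨V₄, hV₄, h4⟩ := exists_compl_rat hβ hV
  have hUV₂ : U' ⊓ V₂ = ⊥ := by
    rw [eq_bot_iff, ← hi]
    exact inf_le_inf_right _ h1
  have e3 : U' ⊓ V₃ = ⊥ := by
    rw [eq_bot_iff, ← hi3]
    exact inf_le_inf_right _ le_sup_left
  have e2 : (U' ⊔ V₃) ⊓ V₂ = ⊥ := by
    have hd : Disjoint V₂ (U' ⊔ V₃) := by
      apply Disjoint.disjoint_sup_right_of_disjoint_sup_left
      · rw [disjoint_iff, inf_comm]; exact hUV₂
      · rw [disjoint_iff, sup_comm]; exact hi3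
    rw [inf_comm]
    exact disjoint_iff.1 hd
  have eV : U' ⊔ V₃ ⊔ V₂ = V := by
    rw [sup_right_comm]; exact hs3
  obtain ⟨e', γ, hcell, hex⟩ := exists_cell hβ hU' hV₂ hV₃ hV₄ e3 e2 (by rw [eV]; exact h4)
  obtain ⟨t, ht⟩ := hex U h1 hi (by rw [eV]; exact hs)
  have d2 : finrank Ω V₂ = finrank Ω V - finrank Ω U := by
    have := Submodule.finrank_sup_add_finrank_inf_eq U V₂
    rw [hi, hs, finrank_bot] at this
    omega
  have d3 : finrank Ω V₃ = finrank Ω U - finrank Ω U' := by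
    have a1 := Submodule.finrank_sup_add_finrank_inf_eq U V₂
    rw [hi, hs, finrank_bot] at a1
    have a2 := Submodule.finrank_sup_add_finrank_inf_eq (U' ⊔ V₂) V₃
    rw [hi3, hs3, finrank_bot] at a2
    have a3 := Submodule.finrank_sup_add_finrank_inf_eq U' V₂
    rw [hUV₂, finrank_bot] at a3
    omega
  rw [← d2, ← d3]
  refine ⟨t, fun K' hK => ?_⟩
  rw [← hcell.iff K' hK t, ← ht]

/-- The cell with a given rational complement. -/
private lemma Param_cell (hβ : IsForm k β) {W V₃ : Submodule Ω (Fin n → Ω)} {l : ℕ}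
    (hW : RatR β K W) (hV₃ : RatR β K V₃) (hc : IsCompl V₃ W) (hl : finrank Ω V₃ = l) :
    ∃ (e : Matrix (Fin n) (Fin n) Ω) (γ : Fin (l * (n - l)) → Matrix (Fin n) (Fin n) Ω),
      IsCell β K l e γ ∧ ∀ U : Submodule Ω (Fin n → Ω), U ⊓ W = ⊥ → U ⊔ W = ⊤ →
        ∃ t, U = colS (gr e γ t) := by
  have hsup : (⊥ : Submodule Ω (Fin n → Ω)) ⊔ V₃ ⊔ W = ⊤ := by
    rw [bot_sup_eq]; exact hc.sup_eq_top
  obtain ⟨e, γ, hcell, hex⟩ := exists_cell hβ (ratR_bot (β := β) (K := K)) hW hV₃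
    (ratR_bot (β := β) (K := K)) (bot_inf_eq _) (by rw [bot_sup_eq]; exact hc.inf_eq_bot)
    (by rw [hsup]; exact isCompl_top_bot)
  have dW : finrank Ω W = n - l := by
    have := Submodule.finrank_sup_add_finrank_inf_eq V₃ W
    rw [hc.sup_eq_top, hc.inf_eq_bot, finrank_bot, finrank_top, Module.finrank_fin_fun, hl] at this
    omega
  rw [finrank_bot, zero_add] at hcell
  have key : ∀ (a b : ℕ), a = l → b = n - l →
      (∃ (e : Matrix (Fin n) (Fin n) Ω) (γ : Fin (a * b) → Matrix (Fin n) (Fin n) Ω),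
        IsCell β K a e γ ∧ ∀ U : Submodule Ω (Fin n → Ω), U ⊓ W = ⊥ → U ⊔ W = ⊤ →
          ∃ t, U = colS (gr e γ t)) →
      ∃ (e : Matrix (Fin n) (Fin n) Ω) (γ : Fin (l * (n - l)) → Matrix (Fin n) (Fin n) Ω),
      IsCell β K l e γ ∧ ∀ U : Submodule Ω (Fin n → Ω), U ⊓ W = ⊥ → U ⊔ W = ⊤ →
        ∃ t, U = colS (gr e γ t) := by
    rintro a b rfl rfl h
    exact h
  refine key _ _ hl dW ⟨e, γ, hcell, fun U hi hs => ?_⟩
  exact hex U bot_le hi (by rw [hsup]; exact hs)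

/-- Two subspaces of the same dimension are in a common cell. -/
theorem two_cell [Infinite k] (hβ : IsForm k β) {U₁ U₂ : Submodule Ω (Fin n → Ω)} {l : ℕ}
    (hl₁ : finrank Ω U₁ = l) (hl₂ : finrank Ω U₂ = l)
    {e : Matrix (Fin n) (Fin n) Ω} (he : RatV β K e) (hl : finrank Ω (colS e) = 1) :
    ∃ (e' : Matrix (Fin n) (Fin n) Ω) (γ : Fin (l * (n - l)) → Matrix (Fin n) (Fin n) Ω)
      (t₁ t₂ : Fin (l * (n - l)) → Ω), IsCell β K l e' γ ∧ U₁ = colS (gr e' γ t₁) ∧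
      U₂ = colS (gr e' γ t₂) := by
  obtain ⟨W, _, hW, hi1, hs1, hi2, hs2⟩ :=
    exists_common_compl hβ (V := ⊤) (U₁ := U₁) (U₂ := U₂) le_top le_top (hl₁.trans hl₂.symm)
      (ratR_top (β := β) (K := K)) he (by omega) (by rw [hl]; exact one_dvd _)
  obtain ⟨V₃, hV₃, hc⟩ := exists_compl_rat hβ hW
  have d3 : finrank Ω V₃ = l := by
    have a1 := Submodule.finrank_sup_add_finrank_inf_eq U₁ W
    rw [hi1, hs1, finrank_bot, finrank_top, Module.finrank_fin_fun] at a1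
    have a2 := Submodule.finrank_sup_add_finrank_inf_eq W V₃
    rw [hc.sup_eq_top, hc.inf_eq_bot, finrank_bot, finrank_top, Module.finrank_fin_fun] at a2
    omega
  obtain ⟨e', γ, hcell, hex⟩ := Param_cell hβ hW hV₃ hc.symm d3
  obtain ⟨t₁, ht₁⟩ := hex U₁ hi1 hs1
  obtain ⟨t₂, ht₂⟩ := hex U₂ hi2 hs2
  exact ⟨e', γ, t₁, t₂, hcell, ht₁, ht₂⟩

/-- The cell given by a rational subspace. -/
theorem cell_of_ratR (hβ : IsForm k β) {U : Submodule Ω (Fin n → Ω)} {l : ℕ}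
    (hl : finrank Ω U = l) (hU : RatR β K U) :
    ∃ (e : Matrix (Fin n) (Fin n) Ω) (γ : Fin (l * (n - l)) → Matrix (Fin n) (Fin n) Ω),
      IsCell β K l e γ := by
  obtain ⟨W, hW, hc⟩ := exists_compl_rat hβ hU
  obtain ⟨e, γ, hcell, _⟩ := Param_cell hβ hW hU hc hl
  exact ⟨e, γ, hcell⟩

end Pool.Agent.H72.SB
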