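import Pool.Agent.H72.SB.Idem

/-!
# The form of a matrix algebra which is given by a central simple algebra

`β i = ρ (b i)` for a basis `b` of the algebra `A` and `ρ : A → Mₙ(Ω)`. So `ρ a` has coordinates
`algebraMap k Ω (b.repr a i)`, and `toMat f ρ x` has the coordinates `f (c i)`, where `c i` are the
coordinates of `x` in the `F`-basis `1 ⊗ b i` of `F ⊗ A` (`Algebra.TensorProduct.basis`).
-/

open Module Matrix TensorProduct

namespace Pool.Agent.H72.SB

variable {k Ω : Type*} [Field k] [Field Ω] [Algebra k Ω]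
variable {ι : Type*} [Fintype ι] {n : ℕ}
variable {β : Basis ι Ω (Matrix (Fin n) (Fin n) Ω)}
variable {A : Type*} [Ring A] [Algebra k A] {ρ : A →ₐ[k] Matrix (Fin n) (Fin n) Ω}
variable {b : Basis ι k A}

private theorem rho_repr (hρ : ∀ i, β i = ρ (b i)) (a : A) (i : ι) :
    β.repr (ρ a) i = algebraMap k Ω (b.repr a i) := by
  have h1 : ρ a = ∑ j, algebraMap k Ω (b.repr a j) • β j := by
    conv_lhs => rw [← b.sum_repr a]
    rw [map_sum]
    refine Finset.sum_congr rfl fun j _ => ?_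
    rw [map_smul, hρ j, algebraMap_smul]
  rw [h1, β.repr_sum_self]

theorem ratV_rho (hρ : ∀ i, β i = ρ (b i)) (a : A) :
    RatV β (⊥ : IntermediateField k Ω) (ρ a) := by
  intro i
  rw [rho_repr hρ a i]
  exact (⊥ : IntermediateField k Ω).algebraMap_mem _

theorem isForm_of_rho (hρ : ∀ i, β i = ρ (b i)) : IsForm k β := by
  refine ⟨?_, fun i j => ?_⟩
  · have h := ratV_rho hρ (1 : A)
    rwa [map_one] at h
  · have h := ratV_rho hρ (b i * b j)
    rwa [map_mul, ← hρ i, ← hρ j] at h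

/-- The map `F ⊗ A → Mₙ(Ω)` given by an embedding of the field `F`. -/
noncomputable def toMat {F : Type*} [Field F] [Algebra k F] (f : F →ₐ[k] Ω)
    (ρ : A →ₐ[k] Matrix (Fin n) (Fin n) Ω) : F ⊗[k] A →ₐ[k] Matrix (Fin n) (Fin n) Ω :=
  Algebra.TensorProduct.lift
    (((Algebra.ofId Ω (Matrix (Fin n) (Fin n) Ω)).restrictScalars k).comp f) ρ
    fun c a => Algebra.commute_algebraMap_left (f c) (ρ a)

private theorem toMat_tmul {F : Type*} [Field F] [Algebra k F] (f : F →ₐ[k] Ω)
    (ρ : A →ₐ[k] Matrix (Fin n) (Fin n) Ω) (c : F) (a : A) :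
    toMat f ρ (c ⊗ₜ[k] a) = algebraMap Ω (Matrix (Fin n) (Fin n) Ω) (f c) * ρ a :=
  Algebra.TensorProduct.lift_tmul _ _ _ _ _

theorem toMat_smul {F : Type*} [Field F] [Algebra k F] (f : F →ₐ[k] Ω)
    (ρ : A →ₐ[k] Matrix (Fin n) (Fin n) Ω) (c : F) (x : F ⊗[k] A) :
    toMat f ρ (c • x) = f c • toMat f ρ x := by
  rw [Algebra.smul_def, map_mul, Algebra.TensorProduct.algebraMap_apply, toMat_tmul, map_one, mul_one,
    Algebra.algebraMap_self_apply, ← Algebra.smul_def]

private theorem toMat_eq_sum (hρ : ∀ i, β i = ρ (b i)) {F : Type*} [Field F] [Algebra k F]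
    (f : F →ₐ[k] Ω) (x : F ⊗[k] A) :
    toMat f ρ x = ∑ i, f ((Algebra.TensorProduct.basis F b).repr x i) • β i := by
  conv_lhs => rw [← (Algebra.TensorProduct.basis F b).sum_repr x]
  rw [map_sum]
  refine Finset.sum_congr rfl fun i _ => ?_
  rw [toMat_smul, Algebra.TensorProduct.basis_apply, toMat_tmul, map_one, map_one, one_mul, hρ i]

theorem toMat_injective (hρ : ∀ i, β i = ρ (b i)) {F : Type*} [Field F] [Algebra k F]
    (f : F →ₐ[k] Ω) : Function.Injective (toMat f ρ) := by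
  intro x y hxy
  rw [toMat_eq_sum hρ, toMat_eq_sum hρ] at hxy
  refine (Algebra.TensorProduct.basis F b).ext_elem fun i => ?_
  have h := congrArg (fun z => β.repr z i) hxy
  simp only [β.repr_sum_self] at h
  exact f.injective h

/-- The rational matrices are the image of `F ⊗ A`. -/
theorem ratV_iff_toMat (hρ : ∀ i, β i = ρ (b i)) {F : Type*} [Field F] [Algebra k F]
    (f : F →ₐ[k] Ω) (X : Matrix (Fin n) (Fin n) Ω) :
    RatV β f.fieldRange X ↔ ∃ x, toMat f ρ x = X := by
  constructor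
  · intro h
    have h' : ∀ i, ∃ c : F, f c = β.repr X i := fun i => AlgHom.mem_fieldRange.1 (h i)
    choose c hc using h'
    refine ⟨∑ i, c i • Algebra.TensorProduct.basis F b i, ?_⟩
    rw [toMat_eq_sum hρ, (Algebra.TensorProduct.basis F b).repr_sum_self]
    conv_rhs => rw [← β.sum_repr X]
    refine Finset.sum_congr rfl fun i _ => ?_
    rw [hc i]
  · rintro ⟨x, rfl⟩ i
    rw [toMat_eq_sum hρ, β.repr_sum_self]
    exact AlgHom.mem_fieldRange.2 ⟨_, rfl⟩

end Pool.Agent.H72.SB
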