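import Pool.Agent.H72.SB.Perp

/-!
# One step of the Euclidean algorithm: an example

Notation: `u = finrank U`, `h = finrank N`, `H = perp N` of dimension `n - h`.

`step_example` (linear algebra over `Ω`). Choose `U₀ ≤ U` of dimension `u'` and a complement `U₁` of
`U₀` in `U`, `finrank U₁ = q * h`. As `finrank (Ωⁿ ⧸ H) = h` there is a linear equivalence from `U₁`
to `Fin q → Ωⁿ ⧸ H`; lift its components to linear maps `a j : U₁ → Ωⁿ`. Let `Z ≤ H` be the sum of
the spaces `ψ j U₀`, `finrank Z ≤ c * u'`. Because `(c + q) * u' + h ≤ n` (from `u + c * h ≤ n`,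
`u = q * h + u'`, `u' ≤ h`, `1 ≤ c`) there is an injective linear map from `Fin q → U₀` to `H` whose
image meets `Z` trivially; let `b j : U₀ → H` be its components. Let `φ j` be the matrix of a linear
map which is `b j` on `U₀` and `a j` on `U₁`. (a): if `∑ j, y j ⬝ φ j x = 0` for `x` in `U₁` then all
`y j ∈ N` vanish (`N = perp H`, `perp_perp`). (b): `cut U N φ = U₀`, the map is injective on `U₀`.
-/

open Module Matrix

namespace Pool.Agent.H72.SB

variable {Ω : Type*} [Field Ω] {n : ℕ}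
variable {U N : Submodule Ω (Fin n → Ω)} {c q u' : ℕ}
variable {ψ : Fin c → Matrix (Fin n) (Fin n) Ω}

private theorem stepEx_arith {c q u' h u n : ℕ} (hn : u + c * h ≤ n) (hc : 1 ≤ c)
    (hu : u = q * h + u') (hu' : u' ≤ h) : q * u' + c * u' + h ≤ n := by
  obtain ⟨d, rfl⟩ : ∃ d, c = d + 1 := ⟨c - 1, by omega⟩
  have h1 : q * u' ≤ q * h := Nat.mul_le_mul_left _ hu'
  have h2 : d * u' ≤ d * h := Nat.mul_le_mul_left _ hu'
  have e1 : (d + 1) * u' = d * u' + u' := by ring
  have e2 : (d + 1) * h = d * h + h := by ring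
  rw [e2] at hn
  rw [e1]
  omega

/-- an injective linear map into a complement of a small subspace of `H` -/
private theorem stepEx_inj {A W : Type*} [AddCommGroup A] [Module Ω A] [FiniteDimensional Ω A]
    [AddCommGroup W] [Module Ω W] [FiniteDimensional Ω W] (Z : Submodule Ω A)
    (hd : finrank Ω W + finrank Ω Z ≤ finrank Ω A) :
    ∃ B : W →ₗ[Ω] A, ∀ w, B w ∈ Z → w = 0 := by
  have h1 : finrank Ω (A ⧸ Z) + finrank Ω Z = finrank Ω A := Submodule.finrank_quotient_add_finrank Z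
  obtain ⟨r, hr⟩ : ∃ r, finrank Ω (A ⧸ Z) = finrank Ω W + r := ⟨finrank Ω (A ⧸ Z) - finrank Ω W, by omega⟩
  have e : finrank Ω (A ⧸ Z) = finrank Ω (W × (Fin r → Ω)) := by
    rw [Module.finrank_prod, Module.finrank_fin_fun, hr]
  let E : (A ⧸ Z) ≃ₗ[Ω] (W × (Fin r → Ω)) := LinearEquiv.ofFinrankEq _ _ e
  obtain ⟨s, hs⟩ := (Z.mkQ).exists_rightInverse_of_surjective (Submodule.range_mkQ Z)
  refine ⟨s ∘ₗ E.symm.toLinearMap ∘ₗ LinearMap.inl Ω W (Fin r → Ω), ?_⟩
  intro w hw
  have h2 : Z.mkQ (s (E.symm (LinearMap.inl Ω W (Fin r → Ω) w))) = 0 := by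
    rw [← LinearMap.mem_ker, Submodule.ker_mkQ]
    exact hw
  have h3 : Z.mkQ (s (E.symm (LinearMap.inl Ω W (Fin r → Ω) w))) =
      E.symm (LinearMap.inl Ω W (Fin r → Ω) w) := by
    have := LinearMap.congr_fun hs (E.symm (LinearMap.inl Ω W (Fin r → Ω) w))
    simpa using this
  rw [h3] at h2
  have h4 := (LinearEquiv.map_eq_zero_iff E.symm).1 h2
  have h5 := congrArg Prod.fst h4
  simpa using h5

theorem step_example (horth : ∀ j, ∀ y ∈ N, ∀ x ∈ U, y ⬝ᵥ (ψ j *ᵥ x) = 0)
    (hds : ∀ x : Fin c → (Fin n → Ω), (∀ j, x j ∈ U) → ∑ j, ψ j *ᵥ x j = 0 → ∀ j, x j = 0)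
    (hn : finrank Ω U + c * finrank Ω N ≤ n) (hc : 1 ≤ c)
    (hu : finrank Ω U = q * finrank Ω N + u') (hu' : u' ≤ finrank Ω N) :
    ∃ φ : Fin q → Matrix (Fin n) (Fin n) Ω,
      (∀ y : Fin q → (Fin n → Ω), (∀ j, y j ∈ N) →
        (∀ x ∈ U, ∑ j, y j ⬝ᵥ (φ j *ᵥ x) = 0) → ∀ j, y j = 0) ∧
      ∀ x : Fin (c + q) → (Fin n → Ω), (∀ j, x j ∈ cut U N φ) →
        ∑ j, Fin.append ψ φ j *ᵥ x j = 0 → ∀ j, x j = 0 := by
  set H : Submodule Ω (Fin n → Ω) := perp N with hHdef
  have hH : finrank Ω H + finrank Ω N = n := finrank_perp N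
  have hVH : finrank Ω ((Fin n → Ω) ⧸ H) = finrank Ω N := by
    have h1 := Submodule.finrank_quotient_add_finrank H
    rw [Module.finrank_fin_fun] at h1
    omega
  have hmemH : ∀ v : Fin n → Ω, v ∈ H ↔ ∀ y ∈ N, y ⬝ᵥ v = 0 := by
    intro v
    constructor
    · intro hv y hy
      rw [dotProduct_comm]
      exact hv y hy
    · intro hv x hx
      rw [dotProduct_comm]
      exact hv x hx
  -- the splitting of `U`
  have hUf : finrank Ω U = finrank Ω ((Fin q → ((Fin n → Ω) ⧸ H)) × (Fin u' → Ω)) := by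
    rw [Module.finrank_prod, Module.finrank_pi_fintype, Module.finrank_fin_fun, hu]
    simp [hVH]
  let E : U ≃ₗ[Ω] ((Fin q → ((Fin n → Ω) ⧸ H)) × (Fin u' → Ω)) := LinearEquiv.ofFinrankEq _ _ hUf
  let ι : (Fin u' → Ω) →ₗ[Ω] (Fin n → Ω) :=
    U.subtype ∘ₗ E.symm.toLinearMap ∘ₗ LinearMap.inr Ω _ (Fin u' → Ω)
  have hιU : ∀ w, ι w ∈ U := fun w => (E.symm _).2
  have hιinj : ∀ w, ι w = 0 → w = 0 := by
    intro w hw
    have h1 : E.symm (LinearMap.inr Ω (Fin q → ((Fin n → Ω) ⧸ H)) (Fin u' → Ω) w) = 0 := by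
      apply Subtype.ext
      exact hw
    have h2 := (LinearEquiv.map_eq_zero_iff E.symm).1 h1
    simpa using congrArg Prod.snd h2
  -- the map of the old configuration
  let Ψ : (Fin c → (Fin u' → Ω)) →ₗ[Ω] H :=
    LinearMap.codRestrict H
      (∑ j, (ψ j).mulVecLin ∘ₗ ι ∘ₗ LinearMap.proj j) (by
        intro w
        rw [hmemH]
        intro y hy
        rw [LinearMap.sum_apply]
        simp only [LinearMap.comp_apply, LinearMap.proj_apply, Matrix.mulVecLin_apply]
        rw [dotProduct_sum]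
        exact Finset.sum_eq_zero fun j _ => horth j y hy _ (hιU _))
  have hΨ : ∀ w, ((Ψ w : H) : Fin n → Ω) = ∑ j, ψ j *ᵥ ι (w j) := by
    intro w
    simp only [Ψ, LinearMap.codRestrict_apply, LinearMap.sum_apply, LinearMap.comp_apply,
      LinearMap.proj_apply, Matrix.mulVecLin_apply]
  have hdim : finrank Ω (Fin q → (Fin u' → Ω)) + finrank Ω (LinearMap.range Ψ) ≤ finrank Ω H := by
    have h1 : finrank Ω (LinearMap.range Ψ) ≤ finrank Ω (Fin c → (Fin u' → Ω)) :=
      LinearMap.finrank_range_le Ψ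
    have h2 : finrank Ω (Fin c → (Fin u' → Ω)) = c * u' := by
      rw [Module.finrank_pi_fintype]
      simp
    have h3 : finrank Ω (Fin q → (Fin u' → Ω)) = q * u' := by
      rw [Module.finrank_pi_fintype]
      simp
    have h4 := stepEx_arith hn hc hu hu'
    rw [h3]
    rw [h2] at h1
    omega
  obtain ⟨B, hB⟩ := stepEx_inj (W := Fin q → (Fin u' → Ω)) (LinearMap.range Ψ) hdim
  obtain ⟨s, hs⟩ := (H.mkQ).exists_rightInverse_of_surjective (Submodule.range_mkQ H)
  have hs' : ∀ t, H.mkQ (s t) = t := fun t => by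
    have := LinearMap.congr_fun hs t
    simpa using this
  obtain ⟨π, hπ⟩ := (U.subtype).exists_leftInverse_of_injective (by
    rw [Submodule.ker_subtype])
  have hπ' : ∀ x : U, π (x : Fin n → Ω) = x := fun x => by
    have := LinearMap.congr_fun hπ x
    simpa using this
  let Φ : Fin q → ((Fin n → Ω) →ₗ[Ω] (Fin n → Ω)) := fun j =>
    s ∘ₗ LinearMap.proj j ∘ₗ LinearMap.fst Ω _ (Fin u' → Ω) ∘ₗ E.toLinearMap ∘ₗ π +
      H.subtype ∘ₗ B ∘ₗ LinearMap.single Ω (fun _ : Fin q => Fin u' → Ω) j ∘ₗ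
        LinearMap.snd Ω (Fin q → ((Fin n → Ω) ⧸ H)) (Fin u' → Ω) ∘ₗ E.toLinearMap ∘ₗ π
  have hΦ : ∀ j (t : Fin q → ((Fin n → Ω) ⧸ H)) (w : Fin u' → Ω),
      Φ j ((E.symm (t, w) : U) : Fin n → Ω) = s (t j) + ((B (Pi.single j w) : H) : Fin n → Ω) := by
    intro j t w
    simp only [Φ, LinearMap.add_apply, LinearMap.comp_apply, hπ', LinearEquiv.coe_coe,
      LinearEquiv.apply_symm_apply, LinearMap.fst_apply, LinearMap.snd_apply, LinearMap.proj_apply,
      LinearMap.single_apply, Submodule.subtype_apply]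
  have hker : ∀ v : Fin n → Ω, v ∈ H ↔ H.mkQ v = 0 := fun v => by
    rw [Submodule.mkQ_apply, Submodule.Quotient.mk_eq_zero]
  refine ⟨fun j => LinearMap.toMatrix' (Φ j), ?_, ?_⟩
  · intro y hy hsum j
    have key : ∀ v : Fin n → Ω, y j ⬝ᵥ v = 0 := by
      intro v
      have h1 := hsum ((E.symm (Pi.single j (H.mkQ v), 0) : U) : Fin n → Ω) (E.symm _).2
      have h2 : ∀ i, y i ⬝ᵥ (LinearMap.toMatrix' (Φ i) *ᵥ
          ((E.symm (Pi.single j (H.mkQ v), 0) : U) : Fin n → Ω)) =
          if i = j then y j ⬝ᵥ s (H.mkQ v) else 0 := by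
        intro i
        rw [LinearMap.toMatrix'_mulVec, hΦ]
        by_cases hij : i = j
        · subst hij
          simp
        · simp [hij]
      rw [Finset.sum_congr rfl fun i _ => h2 i, Finset.sum_ite_eq' Finset.univ j] at h1
      simp only [Finset.mem_univ, if_true] at h1
      have h3 : s (H.mkQ v) - v ∈ H := by
        rw [hker, map_sub, hs', sub_self]
      have h4 := (hmemH _).1 h3 (y j) (hy j)
      rw [dotProduct_sub, h1, zero_sub, neg_eq_zero] at h4
      exact h4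
    funext i
    have := key (Pi.single i 1)
    rw [dotProduct_single, mul_one] at this
    exact this
  · intro x hx hsum
    -- every element of the cut is `ι w`
    have hcut : ∀ v ∈ cut U N (fun j => LinearMap.toMatrix' (Φ j)), ∃ w, v = ι w := by
      intro v hv
      obtain ⟨hvU, hv2⟩ := hv
      set p := E ⟨v, hvU⟩ with hp
      have hvp : ((E.symm (p.1, p.2) : U) : Fin n → Ω) = v := by
        rw [Prod.mk.eta, hp, LinearEquiv.symm_apply_apply]
      have ht : p.1 = 0 := by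
        funext j
        have h1 : LinearMap.toMatrix' (Φ j) *ᵥ v ∈ H := by
          rw [hmemH]
          exact hv2 j
        rw [LinearMap.toMatrix'_mulVec, ← hvp, hΦ] at h1
        have h2 : s (p.1 j) ∈ H := (Submodule.add_mem_iff_left H (B (Pi.single j p.2)).2).1 h1
        rw [hker, hs'] at h2
        exact h2
      refine ⟨p.2, ?_⟩
      have h3 : ((E.symm (0, p.2) : U) : Fin n → Ω) = v := by
        rw [← hvp, ht]
      exact h3.symm
    choose w hw using fun j => hcut (x j) (hx j)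
    rw [Fin.sum_univ_add] at hsum
    simp only [Fin.append_left, Fin.append_right] at hsum
    have h1 : ∑ i : Fin c, ψ i *ᵥ x (Fin.castAdd q i) =
        ((Ψ (fun i => w (Fin.castAdd q i)) : H) : Fin n → Ω) := by
      rw [hΨ]
      exact Finset.sum_congr rfl fun i _ => by rw [hw]
    have h2 : ∑ i : Fin q, LinearMap.toMatrix' (Φ i) *ᵥ x (Fin.natAdd c i) =
        ((B (fun i => w (Fin.natAdd c i)) : H) : Fin n → Ω) := by
      have h3 : ∀ i : Fin q, LinearMap.toMatrix' (Φ i) *ᵥ x (Fin.natAdd c i) =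
          ((B (Pi.single i (w (Fin.natAdd c i))) : H) : Fin n → Ω) := by
        intro i
        rw [LinearMap.toMatrix'_mulVec, hw]
        have h4 := hΦ i 0 (w (Fin.natAdd c i))
        rw [Pi.zero_apply, map_zero, zero_add] at h4
        exact h4
      rw [Finset.sum_congr rfl fun i _ => h3 i]
      rw [← Submodule.coe_sum, ← map_sum]
      congr 2
      exact Finset.univ_sum_single _
    rw [h1, h2] at hsum
    have h5 : Ψ (fun i => w (Fin.castAdd q i)) + B (fun i => w (Fin.natAdd c i)) = 0 := by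
      apply Subtype.ext
      exact hsum
    have h6 : B (fun i => w (Fin.natAdd c i)) ∈ LinearMap.range Ψ := by
      refine ⟨-(fun i => w (Fin.castAdd q i)), ?_⟩
      rw [map_neg]
      exact neg_eq_of_add_eq_zero_right h5
    have h7 := hB _ h6
    have h8 : ∀ i, w (Fin.natAdd c i) = 0 := fun i => congrFun h7 i
    rw [h7, map_zero, add_zero] at h5
    have h9 : ∑ j, ψ j *ᵥ ι (w (Fin.castAdd q j)) = 0 := by
      rw [← hΨ (fun i => w (Fin.castAdd q i)), h5]
      rfl
    have h10 := hds (fun j => ι (w (Fin.castAdd q j))) (fun j => hιU _) h9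
    intro j
    refine Fin.addCases (fun i => ?_) (fun i => ?_) j
    · rw [hw]
      exact h10 i
    · rw [hw, h8, map_zero]

end Pool.Agent.H72.SB
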